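import Pool.Agent.H606R2.GPP.Geo

/-!
# The core of the soundness proof: sign conditions
-/

namespace Pool.Agent.NPC.ER.GPP

theorem plS (σ : ℝ) (z a b c d : ℝ × ℝ) : (σ * D z a b) * (σ * D z c d) -
    (σ * D z a c) * (σ * D z b d) + (σ * D z a d) * (σ * D z b c) = 0 := by
  linear_combination σ ^ 2 * D_plucker z a b c d

theorem swS (σ : ℝ) (z a b : ℝ × ℝ) : σ * D z a b = -(σ * D z b a) := by
  rw [D_swap]; ring

theorem sgn_neg {σ : ℝ} (hσ : σ = 1 ∨ σ = -1) : -σ = 1 ∨ -σ = -1 := by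
  rcases hσ with rfl | rfl <;> simp

/-- Consecutive triangles of a fan have the same orientation. -/
theorem opp {σ : ℝ} (hσ : σ = 1 ∨ σ = -1) {a u v w : ℝ × ℝ} (h : 0 < σ * D a u v)
    (h1 : NC a u v w) (h2 : NC a v w u) (h0 : D a v w ≠ 0) : 0 < σ * D a v w := by
  by_contra hcon
  have hne : σ * D a v w ≠ 0 := mul_ne_zero (by rcases hσ with rfl | rfl <;> norm_num) h0
  have hlt : σ * D a v w < 0 := lt_of_le_of_ne (not_lt.1 hcon) hne
  rcases le_or_gt 0 (σ * D a u w) with h3 | h3
  · refine h1 σ hσ h ⟨h3, ?_⟩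
    rw [swS]; linarith
  · refine h2 (-σ) (sgn_neg hσ) (by linarith) ⟨?_, by linarith⟩
    rw [swS, neg_mul]; linarith

/-- All points visible from `z` are in the cone spanned by `y` and `x`. -/
theorem closure {z b x y : ℝ × ℝ} (d1 : D z x b ≠ 0) (d2 : D z b y ≠ 0) (n1 : NC z x b y)
    (n2 : NC z b y x) (n3 : NC z x y b) (hz : z ∉ segment ℝ x y) :
    ∃ τ : ℝ, (τ = 1 ∨ τ = -1) ∧ 0 < τ * D z y x ∧
      ∀ v, NC z x b v → NC z b y v → 0 < τ * D z y v ∧ 0 < τ * D z v x := by
  obtain ⟨τ, hτ, h1⟩ : ∃ τ : ℝ, (τ = 1 ∨ τ = -1) ∧ 0 < τ * D z x b := by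
    rcases lt_or_gt_of_ne d1 with h | h
    · exact ⟨-1, Or.inr rfl, by linarith⟩
    · exact ⟨1, Or.inl rfl, by linarith⟩
  have h2 : 0 < τ * D z b y := opp hτ h1 n1 n2 d2
  have h3 : 0 < τ * D z y x := by
    by_contra hcon
    have h4 : 0 ≤ τ * D z x y := by rw [swS]; linarith
    rcases eq_or_lt_of_le h4 with h5 | h5
    · -- z is between x and y
      apply hz
      have h6 : D z x y = 0 := by rcases hτ with rfl | rfl <;> linarith
      have hs : 0 < τ * D z x b + τ * D z b y := by linarith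
      rw [mem_seg]
      refine ⟨(τ * D z x b) / (τ * D z x b + τ * D z b y), by positivity, ?_, ?_, ?_⟩
      · rw [div_le_one hs]; linarith
      · have h7 : (τ * D z x b + τ * D z b y) * (z.1 - x.1) = (τ * D z x b) * (y.1 - x.1) := by
          unfold D at *
          linear_combination (-(τ * (b.1 - z.1))) * h6
        rw [div_mul_eq_mul_div, eq_comm, ← h7, mul_div_cancel_left₀ _ hs.ne']
        ring
      · have h7 : (τ * D z x b + τ * D z b y) * (z.2 - x.2) = (τ * D z x b) * (y.2 - x.2) := by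
          unfold D at *
          linear_combination (-(τ * (b.2 - z.2))) * h6
        rw [div_mul_eq_mul_div, eq_comm, ← h7, mul_div_cancel_left₀ _ hs.ne']
        ring
    · exact n3 τ hτ h5 ⟨h1.le, h2.le⟩
  refine ⟨τ, hτ, h3, fun v m1 m2 => ?_⟩
  have k1 := m1 τ hτ h1
  have k2 := m2 τ hτ h2
  have hid : (τ * D z b y) * (τ * D z x v) + (τ * D z y x) * (τ * D z b v) +
      (τ * D z x b) * (τ * D z y v) = 0 := by
    unfold D; ring
  rcases le_or_gt 0 (τ * D z b v) with h4 | h4
  · have h5 : 0 < τ * D z y v := by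
      by_contra h6
      exact k2 ⟨h4, by rw [swS]; linarith⟩
    refine ⟨h5, ?_⟩
    have h6 : 0 < (τ * D z x b) * (τ * D z y v) := mul_pos h1 h5
    have h7 : 0 ≤ (τ * D z y x) * (τ * D z b v) := mul_nonneg h3.le h4
    have h8 : (τ * D z b y) * (τ * D z x v) < 0 := by linarith
    have h9 : τ * D z x v < 0 := by
      by_contra h10
      have := mul_nonneg h2.le (not_lt.1 h10)
      linarith
    rw [swS]; linarith
  · have h5 : τ * D z x v < 0 := by
      by_contra h6
      exact k1 ⟨not_lt.1 h6, by rw [swS]; linarith⟩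
    refine ⟨?_, by rw [swS]; linarith⟩
    have h6 : (τ * D z b y) * (τ * D z x v) < 0 := mul_neg_of_pos_of_neg h2 h5
    have h7 : (τ * D z y x) * (τ * D z b v) < 0 := mul_neg_of_pos_of_neg h3 h4
    have h8 : 0 < (τ * D z x b) * (τ * D z y v) := by linarith
    by_contra h9
    have := mul_nonpos_of_nonneg_of_nonpos h1.le (not_lt.1 h9)
    linarith

/-- The facts about the gadget which are used for the points on the side of `a`. -/
structure Facts (z b x y a a' c c' e p : ℝ × ℝ) : Prop where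
  d1 : D z x b ≠ 0
  d2 : D z b y ≠ 0
  d3 : D z a' a ≠ 0
  d4 : D a a' e ≠ 0
  d5 : D a e c ≠ 0
  n1 : NC z x b y
  n2 : NC z b y x
  n3 : NC z x y b
  zxy : z ∉ segment ℝ x y
  va : NC z x b a ∧ NC z b y a
  va' : NC z x b a' ∧ NC z b y a'
  vc : NC z x b c ∧ NC z b y c
  vp : NC z x b p ∧ NC z b y p
  azc : a ∉ segment ℝ z c
  cza : c ∉ segment ℝ z a
  n4 : NC z a a' c
  s1 : a' ∉ segment ℝ z c
  s2 : a' ∉ segment ℝ c a
  s3 : a' ∉ segment ℝ a z
  m1 : ¬ Meets z a' c a
  m2 : ¬ Meets a' c' z c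
  m3 : ¬ Meets a' c' c a
  m4 : ¬ Meets a' c' a z
  m5 : ¬ Meets c' x c a
  m6 : ¬ Meets c' x a z
  m7 : ¬ Meets c' y c a
  m8 : ¬ Meets c' y a z
  f1 : NC a z a' e
  f2 : NC a a' e z
  f3 : NC a a' e c
  f4 : NC a e c a'
  f5 : NC a z a' p
  f6 : NC a a' e p
  f7 : NC a e c p

theorem core_aux {z b x y a a' c c' e p : ℝ × ℝ} {σ : ℝ} (hσ : σ = 1 ∨ σ = -1)
    (F : Facts z b x y a a' c c' e p)
    (hc : ∀ v, NC z x b v → NC z b y v → 0 < σ * D z y v ∧ 0 < σ * D z v x)
    (m5 : ¬ Meets c' x c a) (m6 : ¬ Meets c' x a z) (ha : 0 < σ * D z a' a) :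
    0 < σ * D z a p ∧ 0 < σ * D z a' p := by
  obtain ⟨a1, a2⟩ := hc a F.va.1 F.va.2
  obtain ⟨b1, b2⟩ := hc a' F.va'.1 F.va'.2
  obtain ⟨c1, c2⟩ := hc c F.vc.1 F.vc.2
  obtain ⟨p1, p2⟩ := hc p F.vp.1 F.vp.2
  have hσ0 : σ ≠ 0 := by rcases hσ with rfl | rfl <;> norm_num
  -- the position of `c`
  have hac : 0 < σ * D z a c := by
    by_contra hcon
    have hne : σ * D z a c ≠ 0 := by
      intro h0
      have h1 : D z a c = 0 := by
        rcases mul_eq_zero.1 h0 with h | h
        · exact absurd h hσ0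
        · exact h
      rcases between_of_D h1 with h2 | h2 | h2
      · obtain ⟨t, t0, t1, e1, e2⟩ := mem_seg.1 h2
        have h3 : σ * D z y z = (1 - t) * (σ * D z y a) + t * (σ * D z y c) := by
          have : z = pt t a c := Prod.ext e1 e2
          have h4 := D_pt t z y a c
          rw [← this] at h4
          rw [h4]; ring
        have h4 : D z y z = 0 := by unfold D; ring
        rw [h4] at h3
        rcases eq_or_lt_of_le t0 with rfl | t0
        · linarith
        · have := mul_pos t0 c1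
          have := mul_nonneg (sub_nonneg.2 t1) a1.le
          linarith
      · exact F.azc h2
      · exact F.cza h2
    have hlt : σ * D z a c < 0 := lt_of_le_of_ne (not_lt.1 hcon) hne
    have h1 : 0 < σ * D z c a' := by
      have h2 := F.n4 (-σ) (sgn_neg hσ) (by rw [neg_mul, swS, neg_neg]; exact ha)
      by_contra h3
      exact h2 ⟨by linarith, by linarith⟩
    have hT : 0 < σ * D z c a := by rw [swS]; linarith
    have h2 : Int σ z c a a' := by
      by_contra h3
      have h4 : NC z c a a' := by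
        refine nc_of F.s1 F.s2 F.s3 ?_ F.m1
        intro σ' hσ'
        rcases hσ' with rfl | rfl <;> rcases hσ with rfl | rfl
        · exact h3
        · intro h5; have := h5.1; linarith
        · intro h5; have := h5.1; linarith
        · exact h3
      exact h4 σ hσ hT ⟨h1.le, ha.le⟩
    have h3 : Int σ z c a c' := exit hσ h2 (fun _ => F.m2) (fun _ => F.m3) (fun _ => F.m4)
    have h4 : Int σ z c a x := exit hσ h3 (fun h => absurd h (not_le.2 c2)) (fun _ => m5)
      (fun _ => m6)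
    have h5 := h4.2.2
    rw [D_rot'] at h5
    have h6 : σ * D z x a = -(σ * D z a x) := swS σ z x a
    have h7 : D a z x = D z x a := by unfold D; ring
    have h8 : D z a x = D x z a := by unfold D; ring
    have h9 : D x z a = -D z x a := by unfold D; ring
    have h10 : 0 < σ * D a z x := h4.2.2
    rw [h7, h6] at h10
    linarith
  -- the fan at `a`
  have g1 : 0 < σ * D a z a' := by
    have : D a z a' = D z a' a := by unfold D; ring
    rw [this]; exact ha
  have g2 : 0 < σ * D a a' e := opp hσ g1 F.f1 F.f2 F.d4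
  have g3 : 0 < σ * D a e c := opp hσ g2 F.f3 F.f4 F.d5
  have g4 : σ * D a z c < 0 := by
    have : D a z c = -D z a c := by unfold D; ring
    rw [this]; linarith
  have g5 : σ * D a z p < 0 := by
    by_contra hcon
    have q0 : 0 ≤ σ * D a z p := not_lt.1 hcon
    have q1 : 0 < σ * D a a' p := by
      by_contra h
      exact F.f5 σ hσ g1 ⟨q0, by rw [swS]; linarith⟩
    have q2 : 0 < σ * D a e p := by
      by_contra h
      exact F.f6 σ hσ g2 ⟨q1.le, by rw [swS]; linarith⟩
    have q3 : 0 < σ * D a c p := by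
      by_contra h
      exact F.f7 σ hσ g3 ⟨q2.le, by rw [swS]; linarith⟩
    have k1 := plS σ a z e c p
    have k2 := plS σ a z a' e p
    have j1 := mul_pos_of_neg_of_neg g4 (neg_lt_zero.2 q2)
    have j2 := mul_nonneg q0 g3.le
    have j3 : (σ * D a z e) * (σ * D a c p) < 0 := by linarith
    have j4 : σ * D a z e < 0 := by
      by_contra h
      have := mul_nonneg (not_lt.1 h) q3.le
      linarith
    have j5 := mul_pos g1 q2
    have j6 := mul_neg_of_neg_of_pos j4 q1
    have j7 := mul_nonneg q0 g2.le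
    linarith
  have g6 : 0 < σ * D z a p := by
    have : D z a p = -D a z p := by unfold D; ring
    rw [this]; linarith
  refine ⟨g6, ?_⟩
  have k := plS σ z y a' a p
  have j1 := mul_pos b1 g6
  have j2 := mul_pos p1 ha
  have j3 : 0 < (σ * D z y a) * (σ * D z a' p) := by linarith
  by_contra h
  have := mul_nonpos_of_nonneg_of_nonpos a1.le (not_lt.1 h)
  linarith

theorem core {z b x y a a' c c' e p : ℝ × ℝ} (F : Facts z b x y a a' c c' e p) :
    0 < D z a' a * (D z a p + D z a' p) := by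
  obtain ⟨τ, hτ, h1, h2⟩ := closure F.d1 F.d2 F.n1 F.n2 F.n3 F.zxy
  obtain ⟨σ, hσ, ha⟩ : ∃ σ : ℝ, (σ = 1 ∨ σ = -1) ∧ 0 < σ * D z a' a := by
    rcases lt_or_gt_of_ne F.d3 with h | h
    · exact ⟨-1, Or.inr rfl, by linarith⟩
    · exact ⟨1, Or.inl rfl, by linarith⟩
  have key : 0 < σ * D z a p ∧ 0 < σ * D z a' p := by
    have hcase : σ = τ ∨ σ = -τ := by
      rcases hσ with rfl | rfl <;> rcases hτ with rfl | rfl <;> simp
    rcases hcase with rfl | rfl
    · exact core_aux hσ F h2 F.m5 F.m6 ha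
    · -- exchange `x` and `y`
      have F' : Facts z b y x a a' c c' e p := by
        refine ⟨?_, ?_, F.d3, F.d4, F.d5, F.n2.swap, F.n1.swap, F.n3.swap, ?_,
          ⟨F.va.2.swap, F.va.1.swap⟩, ⟨F.va'.2.swap, F.va'.1.swap⟩, ⟨F.vc.2.swap, F.vc.1.swap⟩,
          ⟨F.vp.2.swap, F.vp.1.swap⟩, F.azc, F.cza, F.n4, F.s1, F.s2, F.s3, F.m1, F.m2, F.m3, F.m4,
          F.m7, F.m8, F.m5, F.m6, F.f1, F.f2, F.f3, F.f4, F.f5, F.f6, F.f7⟩
        · rw [D_swap]; exact neg_ne_zero.2 F.d2
        · rw [D_swap]; exact neg_ne_zero.2 F.d1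
        · rw [segment_symm]; exact F.zxy
      refine core_aux (sgn_neg hτ) F' ?_ F.m7 F.m8 ha
      intro v k1 k2
      obtain ⟨q1, q2⟩ := h2 v k2.swap k1.swap
      constructor
      · rw [swS, neg_mul, neg_neg]; exact q2
      · rw [swS, neg_mul, neg_neg]; exact q1
  rcases hσ with rfl | rfl
  · exact mul_pos (by linarith) (by linarith [key.1, key.2])
  · exact mul_pos_of_neg_of_neg (by linarith) (by linarith [key.1, key.2])

end Pool.Agent.NPC.ER.GPP
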