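import Mathlib

/-!
# Straight-line drawings in which given edges are not crossed
-/

namespace Pool.Agent.NPC.ER.GPP

/-- An instance `(V, E, F)`: the list of the vertices (natural numbers), the list of the edges
(pairs of vertices) and the list of the edges which have to be crossing-free. -/
abbrev Inst : Type := List ℕ × List (ℕ × ℕ) × List (ℕ × ℕ)

/-- `(V, E, F)` is an instance: the pairs in `E` consist of two distinct members of `V`, so that
`(V, E)` is a finite simple graph (`(u, v)` and `(v, u)` denote the same edge), and `F` is a subset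
of `E`. -/
def IsInst (G : Inst) : Prop :=
  (∀ e ∈ G.2.1, e.1 ∈ G.1 ∧ e.2 ∈ G.1 ∧ e.1 ≠ e.2) ∧ ∀ e ∈ G.2.2, e ∈ G.2.1

/-- The pairs `e` and `f` denote the same edge. -/
def Same (e f : ℕ × ℕ) : Prop := e = f ∨ e = (f.2, f.1)

/-- The edges `e` and `f` cross in the drawing `p`: their segments have a common point which is not
(the image of) a common endpoint of `e` and `f`. -/
def Cross (p : ℕ → ℝ × ℝ) (e f : ℕ × ℕ) : Prop :=
  ∃ x, x ∈ segment ℝ (p e.1) (p e.2) ∧ x ∈ segment ℝ (p f.1) (p f.2) ∧
    ¬ ∃ w, (w = e.1 ∨ w = e.2) ∧ (w = f.1 ∨ w = f.2) ∧ x = p w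

/-- `p` is a straight-line drawing of the graph `(V, E)`: the vertices are placed at distinct
points, and no segment of an edge contains a vertex other than its two endpoints. -/
structure IsDrawing (V : List ℕ) (E : List (ℕ × ℕ)) (p : ℕ → ℝ × ℝ) : Prop where
  inj : ∀ u ∈ V, ∀ v ∈ V, p u = p v → u = v
  avoid : ∀ e ∈ E, ∀ w ∈ V, w ≠ e.1 → w ≠ e.2 → p w ∉ segment ℝ (p e.1) (p e.2)

/-- Geometric partial planarity: the graph `(V, E)` has a straight-line drawing in which no edge of
`F` is crossed by any (other) edge. -/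
def PartiallyPlanar (G : Inst) : Prop :=
  ∃ p : ℕ → ℝ × ℝ, IsDrawing G.1 G.2.1 p ∧
    ∀ e ∈ G.2.2, ∀ f ∈ G.2.1, ¬ Same e f → ¬ Cross p e f

end Pool.Agent.NPC.ER.GPP
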