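import Pool.Agent.H606R2.GPP.Place

/-!
# The drawing is correct
-/

namespace Pool.Agent.NPC.ER.GPP

open Pool.Agent.NPC Pool.Agent.NPC.ER.Pat

section

variable {M : List (List Bool)} {X Y ζ τ : ℕ → ℝ} {ω l S : ℝ} (H : Dat M X Y ζ τ ω l S)

include H

theorem Dat.D_ne {i j k s : ℕ} (hi : i < M.length) (hj : j < M.length) (hij : i ≠ j)
    (hk : k < 2 * wid M) {b : Bool} (hs : s = 0 ∨ s = 8 ∨ s = if b = true then 4 else 5) :
    D (pos X Y ζ τ ω l (11 * i + 9)) (pos X Y ζ τ ω l (11 * j + 9))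
      (pos X Y ζ τ ω l (11 * k + s)) ≠ 0 := by
  have hl := H.hl
  obtain ⟨h1, h2⟩ := H.low hk hs
  obtain ⟨b1, -, -⟩ := H.box hk (sp_lt hs)
  have h3 := H.hl2 i hi j hj hij k hk
  rw [pos_p, pos_p]
  set g := pos X Y ζ τ ω l (11 * k + s) with hg
  intro h0
  have e : D (X i, Y i) (X j, Y j) (ζ k, 0) =
      -((X j - X i) * g.2 - (Y j - Y i) * (g.1 - ζ k)) := by
    have : D (X i, Y i) (X j, Y j) (ζ k, 0) = D (X i, Y i) (X j, Y j) g -
      ((X j - X i) * g.2 - (Y j - Y i) * (g.1 - ζ k)) := by unfold D; ring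
    rw [this, h0]; ring
  rw [e, abs_neg] at h3
  have h4 : |(X j - X i) * g.2 - (Y j - Y i) * (g.1 - ζ k)| ≤
      |X j - X i| * (2 * l) + |Y j - Y i| * (l * S) := by
    refine (abs_sub _ _).trans ?_
    rw [abs_mul, abs_mul, abs_of_nonneg h1]
    exact add_le_add (mul_le_mul_of_nonneg_left h2 (abs_nonneg _))
      (mul_le_mul_of_nonneg_left b1 (abs_nonneg _))
  have := mul_nonneg (abs_nonneg (X j - X i)) hl.le
  nlinarith

theorem Dat.avoid {e : ℕ × ℕ} (he : e ∈ (red M).2.1) {w : ℕ} (hw : w ∈ vts M) (h1 : w ≠ e.1)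
    (h2 : w ≠ e.2) : pos X Y ζ τ ω l w ∉ segment ℝ (pos X Y ζ τ ω l e.1)
      (pos X Y ζ τ ω l e.2) := by
  have hl := H.hl
  have hl10 := H.hl10
  intro hx
  have hw' := hw
  rw [mem_vts] at hw
  rcases edge_cases he with ⟨k, hk, rfl⟩ | ⟨k, hk, s, hs, rfl⟩ | ⟨k, hk, i, hi, s, hs, rfl⟩
  · simp only at hx h1 h2
    have h3 : pos X Y ζ τ ω l w = pos X Y ζ τ ω l (11 * k + 1) := by
      apply H.seg_o hk hx
      rcases hw with rfl | ⟨j, hj, rfl⟩ | ⟨k', hk', t, ht, rfl⟩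
      · exact absurd rfl h1
      · linarith [H.pY hj]
      · exact (H.box hk' ht).2.1
    exact h2 (H.inj hw' (mem_vts.2 (Or.inr (Or.inr ⟨k, hk, 1, by norm_num, rfl⟩))) h3)
  · simp only at hx h1 h2
    obtain ⟨q1, q2⟩ := sN_lt hs
    obtain ⟨a1, a2, a3⟩ := H.seg_g hk q1 q2 hx
    rcases hw with rfl | ⟨j, hj, rfl⟩ | ⟨k', hk', t, ht, rfl⟩
    · linarith [H.oY]
    · linarith [H.pY hj]
    · have hkk := H.apart' hk hk' a1 (H.box hk' ht).1
      subst hkk
      rw [pos_g k ht, pos_g k q1, pos_g k q2] at hx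
      exact tmpl_avoid H.W hs ht (fun h => h1 (by rw [h])) (fun h => h2 (by rw [h]))
        (Ps_seg_iff H.hω hl hx)
  · simp only at hx h1 h2
    rcases hw with rfl | ⟨j, hj, rfl⟩ | ⟨k', hk', t, ht, rfl⟩
    · have := ge_seg (H.box hk (sp_lt hs)).2.1 (by linarith [H.pY hi]) hx
      linarith [H.oY]
    · have hij : i ≠ j := fun h => h2 (by rw [h])
      have h3 := D_self_of_mem hx
      have h4 := H.D_ne hi hj hij hk hs
      apply h4
      have : ∀ a b c : ℝ × ℝ, D b c a = D a b c := by intro a b c; unfold D; ring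
      rw [this]
      exact h3
    · have b1 := H.box hk' ht
      have a1 := H.far hk hi hs hx b1.2.2
      have hkk := H.apart hk' hk b1.1 a1
      subst hkk
      have h3 := H.own hk hi hs (e := (t, t)) (Or.inr ⟨rfl, ht⟩) hx (left_mem_segment ℝ _ _)
      have h4 := H.inj hw' (mem_vts.2 (Or.inr (Or.inr ⟨k', hk, s, sp_lt hs, rfl⟩))) h3
      exact h1 h4

/-- A vertex on an edge is an endpoint. -/
theorem Dat.endpt {e : ℕ × ℕ} (he : e ∈ (red M).2.1) {w : ℕ} (hw : w ∈ vts M)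
    (hx : pos X Y ζ τ ω l w ∈ segment ℝ (pos X Y ζ τ ω l e.1) (pos X Y ζ τ ω l e.2)) :
    w = e.1 ∨ w = e.2 := by
  by_contra h
  push Not at h
  exact H.avoid he hw h.1 h.2 hx

theorem Dat.free {e f : ℕ × ℕ} (he : e ∈ (red M).2.2) (hf : f ∈ (red M).2.1)
    (hs : ¬ Same e f) : ¬ Cross (pos X Y ζ τ ω l) e f := by
  have hl := H.hl
  have hl10 := H.hl10
  rintro ⟨x, hx1, hx2, hno⟩
  have heE : e ∈ (red M).2.1 := List.mem_append.2 (Or.inl he)
  -- it suffices to show that `x` is a vertex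
  have hend : ∀ w ∈ vts M, x ≠ pos X Y ζ τ ω l w := by
    rintro w hw rfl
    exact hno ⟨w, H.endpt heE hw hx1, H.endpt hf hw hx2, rfl⟩
  have hv : ∀ k < 2 * wid M, ∀ t < 9, 11 * k + t ∈ vts M := fun k hk t ht =>
    mem_vts.2 (Or.inr (Or.inr ⟨k, hk, t, ht, rfl⟩))
  change e ∈ frE (2 * wid M) at he
  rw [mem_frE] at he
  rcases he with ⟨k, hk, rfl | ⟨s, hsF, rfl⟩⟩
  · simp only at hx1
    rcases edge_cases hf with ⟨k', hk', rfl⟩ | ⟨k', hk', s', hs', rfl⟩ |
      ⟨k', hk', i, hi, s', hs', rfl⟩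
    · simp only at hx2
      have hkk : k ≠ k' := fun h => hs (Or.inl (by rw [h]))
      have b1 : ∀ k : ℕ, (pos X Y ζ τ ω l (11 * k + 1)).2 = -(4 * l) := by
        intro k
        rw [pos_g k (by norm_num)]
        simp only [Ps, T, ty]
        push_cast
        ring
      have hne : (pos X Y ζ τ ω l (11 * k + 1)).1 ≠ (pos X Y ζ τ ω l (11 * k' + 1)).1 := by
        intro h
        have h3 := H.inj (hv k hk 1 (by norm_num)) (hv k' hk' 1 (by norm_num))
          (Prod.ext h (by rw [b1, b1]))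
        omega
      have hD : D (pos X Y ζ τ ω l 10) (pos X Y ζ τ ω l (11 * k + 1))
          (pos X Y ζ τ ω l (11 * k' + 1)) ≠ 0 := by
        intro h
        apply hne
        unfold D at h
        rw [b1, b1, pos_o] at h
        simp only at h
        linarith
      exact hend 10 (mem_vts.2 (Or.inl rfl)) (eq_of_common hD hx1 hx2)
    · simp only at hx2
      obtain ⟨q1, q2⟩ := sN_lt hs'
      obtain ⟨a1, a2, a3⟩ := H.seg_g hk' q1 q2 hx2
      exact hend _ (hv k hk 1 (by norm_num)) (H.seg_o hk hx1 a2)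
    · simp only at hx2
      have := ge_seg (H.box hk' (sp_lt hs')).2.1 (by linarith [H.pY hi]) hx2
      exact hend _ (hv k hk 1 (by norm_num)) (H.seg_o hk hx1 this)
  · simp only at hx1
    obtain ⟨r1, r2⟩ := F0_lt s hsF
    obtain ⟨c1, c2, c3⟩ := H.seg_g hk r1 r2 hx1
    rcases edge_cases hf with ⟨k', hk', rfl⟩ | ⟨k', hk', s', hs', rfl⟩ |
      ⟨k', hk', i, hi, s', hs', rfl⟩
    · simp only at hx2
      exact hend _ (hv k' hk' 1 (by norm_num)) (H.seg_o hk' hx2 c2)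
    · simp only at hx2
      obtain ⟨q1, q2⟩ := sN_lt hs'
      obtain ⟨a1, a2, a3⟩ := H.seg_g hk' q1 q2 hx2
      have hkk := H.apart' hk hk' c1 a1
      subst hkk
      rw [pos_g k r1, pos_g k r2] at hx1
      rw [pos_g k q1, pos_g k q2] at hx2
      obtain ⟨y, hy1, rfl⟩ := Ps_seg hx1
      have hy2 := Ps_seg_iff H.hω hl hx2
      have hs2 : ¬ Same s s' := by
        rintro (h | h)
        · exact hs (Or.inl (by rw [h]))
        · exact hs (Or.inr (by rw [h]))
      obtain ⟨w, h3, -, h4⟩ := okp_spec H.W (okp_all s hsF s' hs') hs2 hy1 hy2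
      have hw9 : w < 9 := by rcases h3 with rfl | rfl <;> assumption
      exact hend _ (hv k hk w hw9) (by rw [pos_g k hw9, h4])
    · simp only at hx2
      have a1 := H.far hk' hi hs' hx2 c3
      have hkk := H.apart hk hk' c1 a1
      subst hkk
      exact hend _ (hv k hk _ (sp_lt hs')) (H.own hk hi hs' (Or.inl hsF) hx2 hx1)

theorem Dat.planar : PartiallyPlanar (red M) :=
  ⟨pos X Y ζ τ ω l, ⟨fun _ hu _ hv h => H.inj hu hv h, fun _ he _ hw h1 h2 => H.avoid he hw h1 h2⟩,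
    fun _ he _ hf hs => H.free he hf hs⟩

end

end Pool.Agent.NPC.ER.GPP
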