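import Pool.Agent.H606R2.GPP.Draw

/-!
# Existence of the data
-/

namespace Pool.Agent.NPC.ER.GPP

open Pool.Agent.NPC Pool.Agent.NPC.ER.Pat Filter
open scoped Topology

theorem ev_pos {a : ℝ} (b : ℝ) (h : 0 < a) : ∀ᶠ δ in 𝓝[>] (0 : ℝ), 0 < a + δ * b := by
  have h1 : Tendsto (fun δ : ℝ => a + δ * b) (𝓝[>] (0 : ℝ)) (𝓝 (a + 0 * b)) := by
    apply Tendsto.mono_left _ nhdsWithin_le_nhds
    apply Continuous.tendsto
    fun_prop
  apply h1.eventually
  apply lt_mem_nhds
  simpa using h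

theorem ev_ne {a b : ℝ} (h : a ≠ 0 ∨ b ≠ 0) : ∀ᶠ δ in 𝓝[>] (0 : ℝ), a + δ * b ≠ 0 := by
  by_cases ha : a = 0
  · have hb : b ≠ 0 := by
      rcases h with h | h
      · exact absurd ha h
      · exact h
    filter_upwards [self_mem_nhdsWithin] with δ hδ
    rw [ha, zero_add]
    exact mul_ne_zero (ne_of_gt hδ) hb
  · rcases lt_or_gt_of_ne ha with h1 | h1
    · filter_upwards [ev_pos (-b) (neg_pos.2 h1)] with δ hδ h2
      linarith
    · filter_upwards [ev_pos b h1] with δ hδ h2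
      linarith

theorem ev_all {F : Filter ℝ} {n : ℕ} {P : ℕ → ℝ → Prop} (h : ∀ i < n, ∀ᶠ δ in F, P i δ) :
    ∀ᶠ δ in F, ∀ i < n, P i δ :=
  (eventually_all_finite (Set.finite_lt_nat n)).2 h

/-- Existence of the data of the drawing. -/
theorem exists_dat {m : ℕ} {M : List (List Bool)} (hM : Rect m M) (h : SRN 2 M) :
    ∃ (X Y ζ τ : ℕ → ℝ) (ω l S : ℝ), Dat M X Y ζ τ ω l S := by
  obtain ⟨y, η, c, hη, hy⟩ := h
  -- the lines
  obtain ⟨X0, Y0, A, C, h0⟩ : ∃ X0 Y0 A C : ℕ → ℝ, ∀ i < M.length, ∀ j < wid M,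
      0 < sgn (ent M i j) * (X0 i + A j * Y0 i + C j) := by
    refine ⟨fun i => y i 0, fun i => y i 1, fun j => η j 1 / η j 0, fun j => c j / η j 0, ?_⟩
    intro i hi j hj
    have hjw : j < M[i].length := by rwa [wid_eq hM hi]
    have h1 := hy i hi j hjw
    have h2 := hη j
    rw [ent_eq hi hjw]
    have e : y i 0 + η j 1 / η j 0 * y i 1 + c j / η j 0 =
        (c j + ∑ k ∈ Finset.range 2, y i k * η j k) / η j 0 := by
      rw [Finset.sum_range_succ, Finset.sum_range_one]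
      field_simp
      ring
    rw [e, ← mul_div_assoc]
    exact div_pos h1 h2
  -- the points are distinct
  obtain ⟨X, h1, h2⟩ : ∃ X : ℕ → ℝ, (∀ i < M.length, ∀ j < wid M,
      0 < sgn (ent M i j) * (X i + A j * Y0 i + C j)) ∧
      ∀ i < M.length, ∀ j < M.length, i ≠ j → Y0 j - Y0 i ≠ 0 ∨ X j - X i ≠ 0 := by
    have e1 : ∀ᶠ δ in 𝓝[>] (0 : ℝ), ∀ i < M.length, ∀ j < wid M,
        0 < sgn (ent M i j) * (X0 i + A j * Y0 i + C j) + δ * (sgn (ent M i j) * i) :=
      ev_all fun i hi => ev_all fun j hj => ev_pos _ (h0 i hi j hj)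
    have e2 : ∀ᶠ δ in 𝓝[>] (0 : ℝ), ∀ i < M.length, ∀ j < M.length, i ≠ j →
        X0 j - X0 i + δ * ((j : ℝ) - i) ≠ 0 := by
      refine ev_all fun i hi => ev_all fun j hj => ?_
      by_cases hij : i = j
      · exact Eventually.of_forall fun _ h => absurd hij h
      · have h3 : (j : ℝ) - i ≠ 0 := by
          rw [sub_ne_zero]
          exact_mod_cast Ne.symm hij
        filter_upwards [ev_ne (a := X0 j - X0 i) (Or.inr h3)] with δ hδ _ using hδ
    obtain ⟨δ, h3, h4⟩ := (e1.and e2).exists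
    refine ⟨fun i => X0 i + δ * i, fun i hi j hj => ?_, fun i hi j hj hij => Or.inr ?_⟩
    · have := h3 i hi j hj
      simp only
      linarith
    · have := h4 i hi j hj hij
      intro h5
      apply this
      simp only at h5
      linarith
  -- the heights
  obtain ⟨Y, C', h3, h4, h5⟩ : ∃ Y C' : ℕ → ℝ, (∀ i < M.length, 1 ≤ Y i) ∧
      (∀ i < M.length, ∀ j < wid M, 0 < sgn (ent M i j) * (X i + A j * Y i + C' j) ∧
        sgn (ent M i j) * (X i + A j * Y i + C' j) < Y i) ∧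
      ∀ i < M.length, ∀ j < M.length, i ≠ j → Y j - Y i ≠ 0 ∨ X j - X i ≠ 0 := by
    have e1 : ∀ᶠ N in (atTop : Filter ℝ), ∀ i < M.length, 1 - Y0 i ≤ N :=
      ev_all fun i _ => eventually_ge_atTop _
    have e2 : ∀ᶠ N in (atTop : Filter ℝ), ∀ i < M.length, ∀ j < wid M,
        sgn (ent M i j) * (X i + A j * Y0 i + C j) - Y0 i < N :=
      ev_all fun i _ => ev_all fun j _ => eventually_gt_atTop _
    obtain ⟨N, h3, h4⟩ := (e1.and e2).exists
    refine ⟨fun i => Y0 i + N, fun j => C j - A j * N, fun i hi => ?_, fun i hi j hj => ?_,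
      fun i hi j hj hij => ?_⟩
    · have := h3 i hi
      simp only
      linarith
    · have e : X i + A j * (Y0 i + N) + (C j - A j * N) = X i + A j * Y0 i + C j := by ring
      simp only
      rw [e]
      exact ⟨h1 i hi j hj, by have := h4 i hi j hj; linarith⟩
    · simp only
      rw [add_sub_add_right_eq_sub]
      exact h2 i hi j hj hij
  have hdiv : ∀ k < 2 * wid M, k / 2 < wid M := fun k hk => by omega
  -- the shift of the gadgets
  obtain ⟨ζ, h6, h7, h8⟩ : ∃ ζ : ℕ → ℝ, (∀ i < M.length, ∀ k < 2 * wid M,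
      0 < sgn (ent M i (k / 2)) * (X i - ζ k - -A (k / 2) * Y i) ∧
        sgn (ent M i (k / 2)) * (X i - ζ k - -A (k / 2) * Y i) < Y i) ∧
      (∀ k < 2 * wid M, ∀ k' < 2 * wid M, k ≠ k' → ζ k - ζ k' ≠ 0) ∧
      ∀ i < M.length, ∀ j < M.length, i ≠ j → ∀ k < 2 * wid M,
        D (X i, Y i) (X j, Y j) (ζ k, 0) ≠ 0 := by
    have e1 : ∀ᶠ ε in 𝓝[>] (0 : ℝ), ∀ i < M.length, ∀ k < 2 * wid M,
        0 < sgn (ent M i (k / 2)) * (X i + A (k / 2) * Y i + C' (k / 2)) +
          ε * (-sgn (ent M i (k / 2)) * (k + 1)) :=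
      ev_all fun i hi => ev_all fun k hk => ev_pos _ (h4 i hi _ (hdiv k hk)).1
    have e2 : ∀ᶠ ε in 𝓝[>] (0 : ℝ), ∀ i < M.length, ∀ k < 2 * wid M,
        0 < (Y i - sgn (ent M i (k / 2)) * (X i + A (k / 2) * Y i + C' (k / 2))) +
          ε * (sgn (ent M i (k / 2)) * (k + 1)) :=
      ev_all fun i hi => ev_all fun k hk => ev_pos _ (by
        have := (h4 i hi _ (hdiv k hk)).2
        linarith)
    have e3 : ∀ᶠ ε in 𝓝[>] (0 : ℝ), ∀ k < 2 * wid M, ∀ k' < 2 * wid M, k ≠ k' →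
        (C' (k' / 2) - C' (k / 2)) + ε * ((k : ℝ) - k') ≠ 0 := by
      refine ev_all fun k _ => ev_all fun k' _ => ?_
      by_cases hij : k = k'
      · exact Eventually.of_forall fun _ h => absurd hij h
      · have h3 : (k : ℝ) - k' ≠ 0 := by
          rw [sub_ne_zero]
          exact_mod_cast hij
        filter_upwards [ev_ne (a := C' (k' / 2) - C' (k / 2)) (Or.inr h3)] with δ hδ _ using hδ
    have e4 : ∀ᶠ ε in 𝓝[>] (0 : ℝ), ∀ i < M.length, ∀ j < M.length, ∀ k < 2 * wid M, i ≠ j →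
        (-(X j - X i) * Y i + (Y j - Y i) * (C' (k / 2) + X i)) +
          ε * (-(Y j - Y i) * (k + 1)) ≠ 0 := by
      refine ev_all fun i hi => ev_all fun j hj => ev_all fun k _ => ?_
      by_cases hij : i = j
      · exact Eventually.of_forall fun _ h => absurd hij h
      · have h9 := h5 i hi j hj hij
        have h10 := h3 i hi
        have h11 : (-(X j - X i) * Y i + (Y j - Y i) * (C' (k / 2) + X i)) ≠ 0 ∨
            (-(Y j - Y i) * ((k : ℝ) + 1)) ≠ 0 := by
          by_cases hYY : Y j - Y i = 0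
          · left
            have hX : X j - X i ≠ 0 := by
              rcases h9 with h9 | h9
              · exact absurd hYY h9
              · exact h9
            rw [hYY, zero_mul, add_zero]
            exact mul_ne_zero (neg_ne_zero.2 hX) (by linarith)
          · right
            exact mul_ne_zero (neg_ne_zero.2 hYY) (by positivity)
        filter_upwards [ev_ne h11] with δ hδ _ using hδ
    obtain ⟨ε, g1, g2, g3, g4⟩ := (e1.and (e2.and (e3.and e4))).exists
    refine ⟨fun k => -C' (k / 2) + ε * (k + 1), fun i hi k hk => ⟨?_, ?_⟩,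
      fun k hk k' hk' hkk => ?_, fun i hi j hj hij k hk => ?_⟩
    · have := g1 i hi k hk
      simp only
      linarith
    · have := g2 i hi k hk
      simp only
      linarith
    · have := g3 k hk k' hk' hkk
      intro h
      apply this
      simp only at h
      linarith
    · have := g4 i hi j hj k hk hij
      intro h
      apply this
      unfold D at h
      simp only at h
      linarith
  -- the width
  obtain ⟨ω, hω, hω4, h9⟩ : ∃ ω : ℝ, 0 < ω ∧ ω ≤ 1 / 4 ∧ ∀ i < M.length, ∀ k < 2 * wid M,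
      3 * ω * Y i < sgn (ent M i (k / 2)) * (X i - ζ k - -A (k / 2) * Y i) := by
    have e1 : ∀ᶠ ω in 𝓝[>] (0 : ℝ), ∀ i < M.length, ∀ k < 2 * wid M,
        0 < sgn (ent M i (k / 2)) * (X i - ζ k - -A (k / 2) * Y i) + ω * (-3 * Y i) :=
      ev_all fun i hi => ev_all fun k hk => ev_pos _ (h6 i hi k hk).1
    have e2 : ∀ᶠ ω in 𝓝[>] (0 : ℝ), (0 : ℝ) < 1 / 4 + ω * (-1) := ev_pos _ (by norm_num)
    have e3 : ∀ᶠ ω in 𝓝[>] (0 : ℝ), 0 < ω := self_mem_nhdsWithin
    obtain ⟨ω, g1, g2, g3⟩ := (e1.and (e2.and e3)).exists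
    refine ⟨ω, g3, by linarith, fun i hi k hk => ?_⟩
    have := g1 i hi k hk
    linarith
  -- the bound
  obtain ⟨S, g1, g2⟩ : ∃ S : ℝ, (∀ k < 2 * wid M, 4 + 4 * |(-A (k / 2))| ≤ S) ∧
      ∀ i < M.length, ∀ k < 2 * wid M, |X i - ζ k| ≤ S := by
    have e1 : ∀ᶠ S in (atTop : Filter ℝ), ∀ k < 2 * wid M, 4 + 4 * |(-A (k / 2))| ≤ S :=
      ev_all fun i _ => eventually_ge_atTop _
    have e2 : ∀ᶠ S in (atTop : Filter ℝ), ∀ i < M.length, ∀ k < 2 * wid M, |X i - ζ k| ≤ S :=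
      ev_all fun i _ => ev_all fun j _ => eventually_ge_atTop _
    exact (e1.and e2).exists
  -- the size
  obtain ⟨l, k1, k2, k3, k4⟩ : ∃ l : ℝ, 0 < l ∧ l ≤ 1 / 10 ∧
      (∀ k < 2 * wid M, ∀ k' < 2 * wid M, k ≠ k' → l * (18 * S) < |ζ k - ζ k'|) ∧
      ∀ i < M.length, ∀ j < M.length, i ≠ j → ∀ k < 2 * wid M,
        l * (4 * |X j - X i| + S * |Y j - Y i|) < |D (X i, Y i) (X j, Y j) (ζ k, 0)| := by
    have e1 : ∀ᶠ l in 𝓝[>] (0 : ℝ), ∀ k < 2 * wid M, ∀ k' < 2 * wid M, k ≠ k' →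
        0 < |ζ k - ζ k'| + l * (-(18 * S)) := by
      refine ev_all fun k hk => ev_all fun k' hk' => ?_
      by_cases hij : k = k'
      · exact Eventually.of_forall fun _ h => absurd hij h
      · filter_upwards [ev_pos (-(18 * S)) (abs_pos.2 (h7 k hk k' hk' hij))] with δ hδ _ using hδ
    have e2 : ∀ᶠ l in 𝓝[>] (0 : ℝ), ∀ i < M.length, ∀ j < M.length, ∀ k < 2 * wid M, i ≠ j →
        0 < |D (X i, Y i) (X j, Y j) (ζ k, 0)| +
          l * (-(4 * |X j - X i| + S * |Y j - Y i|)) := by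
      refine ev_all fun i hi => ev_all fun j hj => ev_all fun k hk => ?_
      by_cases hij : i = j
      · exact Eventually.of_forall fun _ h => absurd hij h
      · filter_upwards [ev_pos (-(4 * |X j - X i| + S * |Y j - Y i|))
          (abs_pos.2 (h8 i hi j hj hij k hk))] with δ hδ _ using hδ
    have e3 : ∀ᶠ l in 𝓝[>] (0 : ℝ), (0 : ℝ) < 1 / 10 + l * (-1) := ev_pos _ (by norm_num)
    have e4 : ∀ᶠ l in 𝓝[>] (0 : ℝ), 0 < l := self_mem_nhdsWithin
    obtain ⟨l, k1, k2, k3, k4⟩ := (e1.and (e2.and (e3.and e4))).exists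
    refine ⟨l, k4, by linarith, fun k hk k' hk' hkk => ?_, fun i hi j hj hij k hk => ?_⟩
    · have := k1 k hk k' hk' hkk
      linarith
    · have := k2 i hi j hj k hk hij
      linarith
  refine ⟨X, Y, ζ, fun k => -A (k / 2), ω, l, S, ⟨h3, fun i hi k hk => (h6 i hi k hk).2, hω, hω4,
    h9, k1, k2, g1, g2, fun i hi j hj hij h => ?_, k3, k4⟩⟩
  rcases h5 i hi j hj hij with h10 | h10
  · exact h10 (by have := congrArg Prod.snd h; simp only at this; linarith)
  · exact h10 (by have := congrArg Prod.fst h; simp only at this; linarith)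

/-- Completeness of the reduction. -/
theorem red_of_SRN {m : ℕ} {M : List (List Bool)} (hM : Rect m M) (h : SRN 2 M) :
    PartiallyPlanar (red M) := by
  obtain ⟨X, Y, ζ, τ, ω, l, S, H⟩ := exists_dat hM h
  exact H.planar

end Pool.Agent.NPC.ER.GPP
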