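import Pool.Agent.H606R2.GPP.Defs

/-!
# Plane geometry: orientations, segments, triangles
-/

namespace Pool.Agent.NPC.ER.GPP

/-- The orientation of three points (twice the signed area). -/
def D (p q r : ℝ × ℝ) : ℝ := (q.1 - p.1) * (r.2 - p.2) - (q.2 - p.2) * (r.1 - p.1)

theorem mem_seg {p q x : ℝ × ℝ} : x ∈ segment ℝ p q ↔
    ∃ t : ℝ, 0 ≤ t ∧ t ≤ 1 ∧ x.1 = p.1 + t * (q.1 - p.1) ∧ x.2 = p.2 + t * (q.2 - p.2) := by
  rw [segment_eq_image']
  simp only [Set.mem_image, Set.mem_Icc]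
  constructor
  · rintro ⟨t, ⟨h0, h1⟩, rfl⟩
    exact ⟨t, h0, h1, by simp, by simp⟩
  · rintro ⟨t, h0, h1, e1, e2⟩
    refine ⟨t, ⟨h0, h1⟩, ?_⟩
    apply Prod.ext
    · simp [e1]
    · simp [e2]

/-- The segments `pq` and `rs` have a common point. -/
def Meets (p q r s : ℝ × ℝ) : Prop := ∃ x, x ∈ segment ℝ p q ∧ x ∈ segment ℝ r s

theorem Meets.comm {p q r s : ℝ × ℝ} (h : Meets p q r s) : Meets r s p q := by
  obtain ⟨x, h1, h2⟩ := h
  exact ⟨x, h2, h1⟩

theorem Meets.swapR {p q r s : ℝ × ℝ} (h : Meets p q r s) : Meets p q s r := by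
  obtain ⟨x, h1, h2⟩ := h
  exact ⟨x, h1, by rwa [segment_symm]⟩

theorem Meets.swapL {p q r s : ℝ × ℝ} (h : Meets p q r s) : Meets q p r s := by
  obtain ⟨x, h1, h2⟩ := h
  exact ⟨x, by rwa [segment_symm], h2⟩

theorem D_rot (p q r : ℝ × ℝ) : D q r p = D p q r := by unfold D; ring
theorem D_rot' (p q r : ℝ × ℝ) : D r p q = D p q r := by unfold D; ring
theorem D_swap (p q r : ℝ × ℝ) : D p r q = -D p q r := by unfold D; ring
theorem D_swap12 (p q r : ℝ × ℝ) : D q p r = -D p q r := by unfold D; ring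
theorem D_swap13 (p q r : ℝ × ℝ) : D r q p = -D p q r := by unfold D; ring

theorem D_add (u v w p : ℝ × ℝ) : D u v p + D v w p + D w u p = D u v w := by
  unfold D; ring

/-- Plücker relation. -/
theorem D_plucker (z a b c d : ℝ × ℝ) :
    D z a b * D z c d - D z a c * D z b d + D z a d * D z b c = 0 := by
  unfold D; ring

/-- A point on the line `uv` which is on the right sides of the two other lines is in the
segment. -/
theorem mem_seg_of {u v w x : ℝ × ℝ} (hT : 0 < D u v w) (h0 : D u v x = 0) (h1 : 0 ≤ D v w x)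
    (h2 : 0 ≤ D w u x) : x ∈ segment ℝ u v := by
  have hs := D_add u v w x
  rw [mem_seg]
  refine ⟨D w u x / D u v w, by positivity, ?_, ?_, ?_⟩
  · rw [div_le_one hT]; linarith
  · field_simp
    unfold D at *
    linear_combination (w.1 - u.1) * h0
  · field_simp
    unfold D at *
    linear_combination (w.2 - u.2) * h0

theorem mem_seg_of' {u v w x : ℝ × ℝ} (hT : D u v w < 0) (h0 : D u v x = 0) (h1 : D v w x ≤ 0)
    (h2 : D w u x ≤ 0) : x ∈ segment ℝ u v := by
  rw [segment_symm]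
  apply mem_seg_of (w := w)
  · rw [D_swap12]; linarith
  · rw [D_swap12, h0]; simp
  · rw [D_swap12]; linarith
  · rw [D_swap12]; linarith

/-- Signed version. -/
theorem mem_seg_of_sgn {σ : ℝ} (hσ : σ = 1 ∨ σ = -1) {u v w x : ℝ × ℝ} (hT : 0 < σ * D u v w)
    (h0 : D u v x = 0) (h1 : 0 ≤ σ * D v w x) (h2 : 0 ≤ σ * D w u x) : x ∈ segment ℝ u v := by
  rcases hσ with rfl | rfl
  · exact mem_seg_of (w := w) (by linarith) h0 (by linarith) (by linarith)
  · exact mem_seg_of' (w := w) (by linarith) h0 (by linarith) (by linarith)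

/-- The point of a segment with given parameter. -/
def pt (t : ℝ) (p q : ℝ × ℝ) : ℝ × ℝ := (p.1 + t * (q.1 - p.1), p.2 + t * (q.2 - p.2))

theorem pt_mem {t : ℝ} (h0 : 0 ≤ t) (h1 : t ≤ 1) (p q : ℝ × ℝ) : pt t p q ∈ segment ℝ p q :=
  mem_seg.2 ⟨t, h0, h1, rfl, rfl⟩

theorem D_pt (t : ℝ) (u v p q : ℝ × ℝ) : D u v (pt t p q) = (1 - t) * D u v p + t * D u v q := by
  unfold D pt; ring

/-- Leaving a triangle through a given side. -/
theorem exit_side {σ : ℝ} (hσ : σ = 1 ∨ σ = -1) {u v w s t : ℝ × ℝ} (ha : 0 < σ * D u v t)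
    (hb : 0 < σ * D v w t) (hc : 0 < σ * D w u t) (hs : σ * D u v s ≤ 0)
    (h1 : (σ * D v w t) * (σ * D u v s) ≤ (σ * D u v t) * (σ * D v w s))
    (h2 : (σ * D w u t) * (σ * D u v s) ≤ (σ * D u v t) * (σ * D w u s)) : Meets t s u v := by
  have hd : 0 < σ * D u v t - σ * D u v s := by linarith
  set l := σ * D u v t / (σ * D u v t - σ * D u v s) with hl
  have hl0 : 0 ≤ l := by positivity
  have hl1 : l ≤ 1 := by rw [hl, div_le_one hd]; linarith
  have hT : 0 < σ * D u v w := by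
    have := D_add u v w t
    rw [← this]; linarith
  have hl' : l * (σ * D u v t - σ * D u v s) = σ * D u v t := div_mul_cancel₀ _ hd.ne'
  refine ⟨pt l t s, pt_mem hl0 hl1 t s, ?_⟩
  apply mem_seg_of_sgn hσ hT
  · have h3 : σ * D u v (pt l t s) = 0 := by
      rw [D_pt]; linear_combination (-1 : ℝ) * hl'
    rcases hσ with rfl | rfl <;> linarith
  · have h3 : (σ * D u v t - σ * D u v s) * (σ * D v w (pt l t s)) =
        (σ * D u v t) * (σ * D v w s) - (σ * D v w t) * (σ * D u v s) := by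
      rw [D_pt]; linear_combination (σ * D v w s - σ * D v w t) * hl'
    by_contra h4
    push Not at h4
    nlinarith
  · have h3 : (σ * D u v t - σ * D u v s) * (σ * D w u (pt l t s)) =
        (σ * D u v t) * (σ * D w u s) - (σ * D w u t) * (σ * D u v s) := by
      rw [D_pt]; linear_combination (σ * D w u s - σ * D w u t) * hl'
    by_contra h4
    push Not at h4
    nlinarith

/-- `t` is in the interior of the triangle `uvw`, which has orientation `σ`. -/
def Int (σ : ℝ) (u v w t : ℝ × ℝ) : Prop := 0 < σ * D u v t ∧ 0 < σ * D v w t ∧ 0 < σ * D w u t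

theorem Int.rot {σ : ℝ} {u v w t : ℝ × ℝ} (h : Int σ u v w t) : Int σ v w u t :=
  ⟨h.2.1, h.2.2, h.1⟩

theorem Int.tri {σ : ℝ} {u v w t : ℝ × ℝ} (h : Int σ u v w t) : 0 < σ * D u v w := by
  obtain ⟨h1, h2, h3⟩ := h
  rw [← D_add u v w t]; linarith

/-- A segment starting in the interior of a triangle which does not meet the sides ends in the
interior. -/
theorem exit {σ : ℝ} (hσ : σ = 1 ∨ σ = -1) {u v w s t : ℝ × ℝ} (h : Int σ u v w t)
    (h1 : σ * D u v s ≤ 0 → ¬ Meets t s u v) (h2 : σ * D v w s ≤ 0 → ¬ Meets t s v w)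
    (h3 : σ * D w u s ≤ 0 → ¬ Meets t s w u) : Int σ u v w s := by
  obtain ⟨ha, hb, hc⟩ := h
  have key : ∀ a b c a' b' c' : ℝ, 0 < a → 0 < b → 0 < c → (a' ≤ 0 ∨ b' ≤ 0 ∨ c' ≤ 0) →
      (a' ≤ 0 ∧ b * a' ≤ a * b' ∧ c * a' ≤ a * c') ∨
      (b' ≤ 0 ∧ c * b' ≤ b * c' ∧ a * b' ≤ b * a') ∨
      (c' ≤ 0 ∧ a * c' ≤ c * a' ∧ b * c' ≤ c * b') := by
    intro a b c a' b' c' h1 h2 h3 h4
    have e1 : b * a' ≤ a * b' ↔ a' / a ≤ b' / b := by
      rw [div_le_div_iff₀ h1 h2]; constructor <;> intro h <;> linarith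
    have e2 : c * a' ≤ a * c' ↔ a' / a ≤ c' / c := by
      rw [div_le_div_iff₀ h1 h3]; constructor <;> intro h <;> linarith
    have e3 : c * b' ≤ b * c' ↔ b' / b ≤ c' / c := by
      rw [div_le_div_iff₀ h2 h3]; constructor <;> intro h <;> linarith
    have e4 : a * b' ≤ b * a' ↔ b' / b ≤ a' / a := by
      rw [div_le_div_iff₀ h2 h1]; constructor <;> intro h <;> linarith
    have e5 : a * c' ≤ c * a' ↔ c' / c ≤ a' / a := by
      rw [div_le_div_iff₀ h3 h1]; constructor <;> intro h <;> linarith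
    have e6 : b * c' ≤ c * b' ↔ c' / c ≤ b' / b := by
      rw [div_le_div_iff₀ h3 h2]; constructor <;> intro h <;> linarith
    have f1 : a' ≤ 0 ↔ a' / a ≤ 0 := by rw [div_le_iff₀ h1]; simp
    have f2 : b' ≤ 0 ↔ b' / b ≤ 0 := by rw [div_le_iff₀ h2]; simp
    have f3 : c' ≤ 0 ↔ c' / c ≤ 0 := by rw [div_le_iff₀ h3]; simp
    rw [e1, e2, e3, e4, e5, e6, f1, f2, f3]
    rw [f1, f2, f3] at h4
    generalize a' / a = x at *
    generalize b' / b = y at *
    generalize c' / c = z at *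
    rcases le_total x y with h5 | h5 <;> rcases le_total y z with h6 | h6 <;>
      rcases le_total x z with h7 | h7
    · left; refine ⟨?_, h5, h7⟩; rcases h4 with h | h | h <;> linarith
    · left; refine ⟨?_, h5, by linarith⟩; rcases h4 with h | h | h <;> linarith
    · left; refine ⟨?_, h5, h7⟩; rcases h4 with h | h | h <;> linarith
    · right; right; refine ⟨?_, h7, h6⟩; rcases h4 with h | h | h <;> linarith
    · right; left; refine ⟨?_, h6, h5⟩; rcases h4 with h | h | h <;> linarith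
    · right; left; refine ⟨?_, h6, h5⟩; rcases h4 with h | h | h <;> linarith
    · right; right; refine ⟨?_, by linarith, h6⟩; rcases h4 with h | h | h <;> linarith
    · right; right; refine ⟨?_, h7, h6⟩; rcases h4 with h | h | h <;> linarith
  by_contra hcon
  unfold Int at hcon
  have h4 : σ * D u v s ≤ 0 ∨ σ * D v w s ≤ 0 ∨ σ * D w u s ≤ 0 := by
    by_contra h5
    push Not at h5
    exact hcon h5
  rcases key _ _ _ _ _ _ ha hb hc h4 with ⟨g1, g2, g3⟩ | ⟨g1, g2, g3⟩ | ⟨g1, g2, g3⟩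
  · exact h1 g1 (exit_side hσ ha hb hc g1 g2 g3)
  · exact h2 g1 (exit_side hσ hb hc ha g1 g2 g3)
  · exact h3 g1 (exit_side hσ hc ha hb g1 g2 g3)

/-- Collinear points: one of them is between the other two. -/
theorem between_of_D {a b c : ℝ × ℝ} (h : D a b c = 0) :
    a ∈ segment ℝ b c ∨ b ∈ segment ℝ a c ∨ c ∈ segment ℝ a b := by
  have hC : Collinear ℝ ({a, b, c} : Set (ℝ × ℝ)) := by
    by_cases hab : a = b
    · subst hab
      rw [Set.pair_eq_singleton a |> fun _ => Set.insert_eq_of_mem (by simp)]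
      exact collinear_pair ℝ a c
    · rw [collinear_iff_of_mem (p₀ := a) (by simp)]
      refine ⟨b - a, ?_⟩
      intro p hp
      simp only [Set.mem_insert_iff, Set.mem_singleton_iff] at hp
      rcases hp with rfl | rfl | rfl
      · exact ⟨0, by simp⟩
      · exact ⟨1, by simp⟩
      · have hne : b.1 - a.1 ≠ 0 ∨ b.2 - a.2 ≠ 0 := by
          by_contra h0
          push Not at h0
          exact hab (Prod.ext (by linarith [h0.1]) (by linarith [h0.2]))
        unfold D at h
        rcases hne with h1 | h1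
        · refine ⟨(p.1 - a.1) / (b.1 - a.1), Prod.ext ?_ ?_⟩
          · simp; field_simp; ring
          · simp only [vadd_eq_add, Prod.snd_add, Prod.smul_snd, Prod.snd_sub, smul_eq_mul]
            field_simp
            linarith
        · refine ⟨(p.2 - a.2) / (b.2 - a.2), Prod.ext ?_ ?_⟩
          · simp only [vadd_eq_add, Prod.fst_add, Prod.smul_fst, Prod.fst_sub, smul_eq_mul]
            field_simp
            linarith
          · simp; field_simp; ring
  rcases hC.wbtw_or_wbtw_or_wbtw with h1 | h1 | h1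
  · exact Or.inr (Or.inl h1.mem_segment)
  · right; right; rw [segment_symm]; exact h1.mem_segment
  · left; rw [segment_symm]; exact h1.mem_segment

/-- `p` is not in the closed cone with apex `z` spanned by `v` and `w`. -/
def NC (z v w p : ℝ × ℝ) : Prop :=
  ∀ σ : ℝ, (σ = 1 ∨ σ = -1) → 0 < σ * D z v w → ¬ (0 ≤ σ * D z v p ∧ 0 ≤ σ * D z p w)

/-- Visibility from the apex of a triangle. -/
theorem nc_of {z v w p : ℝ × ℝ} (h1 : p ∉ segment ℝ z v) (h2 : p ∉ segment ℝ v w)
    (h3 : p ∉ segment ℝ w z) (h4 : ∀ σ : ℝ, (σ = 1 ∨ σ = -1) → ¬ Int σ z v w p)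
    (h5 : ¬ Meets z p v w) : NC z v w p := by
  rintro σ hσ hT ⟨ha, hb⟩
  have hT1 : 0 < σ * D v w z := by rw [D_rot]; exact hT
  have hT2 : 0 < σ * D w z v := by rw [D_rot']; exact hT
  have hb' : 0 ≤ σ * D w z p := by
    have : D w z p = D z p w := by unfold D; ring
    rw [this]; exact hb
  rcases lt_or_ge (σ * D v w p) 0 with hc | hc
  · -- the segment crosses the side
    apply h5
    have hd : 0 < σ * D v w z - σ * D v w p := by linarith
    set l := σ * D v w z / (σ * D v w z - σ * D v w p) with hl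
    have hl0 : 0 ≤ l := by positivity
    have hl1 : l ≤ 1 := by rw [hl, div_le_one hd]; linarith
    have hl' : l * (σ * D v w z - σ * D v w p) = σ * D v w z := div_mul_cancel₀ _ hd.ne'
    refine ⟨pt l z p, pt_mem hl0 hl1 z p, ?_⟩
    apply mem_seg_of_sgn hσ hT1
    · have h3 : σ * D v w (pt l z p) = 0 := by
        rw [D_pt]; linear_combination (-1 : ℝ) * hl'
      rcases hσ with rfl | rfl <;> linarith
    · rw [D_pt]
      have : D w z z = 0 := by unfold D; ring
      rw [this]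
      have := mul_nonneg hl0 hb'
      nlinarith
    · rw [D_pt]
      have : D z v z = 0 := by unfold D; ring
      rw [this]
      have := mul_nonneg hl0 ha
      nlinarith
  · rcases eq_or_lt_of_le ha with ha0 | ha0
    · exact h1 (mem_seg_of_sgn hσ hT (by rcases hσ with rfl | rfl <;> linarith) hc hb')
    rcases eq_or_lt_of_le hc with hc0 | hc0
    · exact h2 (mem_seg_of_sgn hσ hT1 (by rcases hσ with rfl | rfl <;> linarith) hb' ha)
    rcases eq_or_lt_of_le hb' with hb0 | hb0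
    · exact h3 (mem_seg_of_sgn hσ hT2 (by rcases hσ with rfl | rfl <;> linarith) ha hc)
    exact h4 σ hσ ⟨ha0, hc0, hb0⟩

theorem NC.swap {z v w p : ℝ × ℝ} (h : NC z v w p) : NC z w v p := by
  rintro σ hσ hT ⟨ha, hb⟩
  refine h (-σ) (by rcases hσ with rfl | rfl <;> simp) ?_ ⟨?_, ?_⟩
  · rw [D_swap z w v]; linarith
  · rw [D_swap z p v]; linarith
  · rw [D_swap z w p]; linarith

end Pool.Agent.NPC.ER.GPP
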