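import Pool.Agent.H606R2.GPP.Local
import Pool.Agent.H625R2.BallMem

/-!
# The instance of a sign matrix
-/

namespace Pool.Agent.NPC.ER.GPP

open Pool.Agent.NPC Pool.Agent.NPC.ER.Pat

/-- The crossing-free edges. -/
def frE (K : ℕ) : List (ℕ × ℕ) :=
  (List.range K).flatMap fun k => (10, 11 * k + 1) :: F0.map fun e => (11 * k + e.1, 11 * k + e.2)

/-- The edges between the point number `i` and the gadget number `k`. -/
def ptE (M : List (List Bool)) (k i : ℕ) : List (ℕ × ℕ) :=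
  [(11 * k, 11 * i + 9), (11 * k + 8, 11 * i + 9),
    (if ent M i (k / 2) = true then 11 * k + 4 else 11 * k + 5, 11 * i + 9)]

/-- The other edges. -/
def noE (M : List (List Bool)) : List (ℕ × ℕ) :=
  (List.range (2 * wid M)).flatMap fun k =>
    (N0.map fun e => (11 * k + e.1, 11 * k + e.2)) ++ (List.range M.length).flatMap (ptE M k)

/-- The vertices. -/
def vts (M : List (List Bool)) : List ℕ :=
  10 :: ((List.range M.length).map (fun i => 11 * i + 9) ++ (List.range (2 * wid M)).flatMap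
    fun k => (List.range 9).map fun t => 11 * k + t)

/-- The instance of a sign matrix. -/
def red (M : List (List Bool)) : Inst := (vts M, frE (2 * wid M) ++ noE M, frE (2 * wid M))

theorem mem_vts {M : List (List Bool)} {v : ℕ} : v ∈ vts M ↔ v = 10 ∨
    (∃ i < M.length, v = 11 * i + 9) ∨ ∃ k < 2 * wid M, ∃ t < 9, v = 11 * k + t := by
  unfold vts
  simp only [List.mem_cons, List.mem_append, List.mem_map, List.mem_range, List.mem_flatMap]
  constructor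
  · rintro (h | ⟨i, hi, h⟩ | ⟨k, hk, t, ht, h⟩)
    · exact Or.inl h
    · exact Or.inr (Or.inl ⟨i, hi, h.symm⟩)
    · exact Or.inr (Or.inr ⟨k, hk, t, ht, h.symm⟩)
  · rintro (h | ⟨i, hi, h⟩ | ⟨k, hk, t, ht, h⟩)
    · exact Or.inl h
    · exact Or.inr (Or.inl ⟨i, hi, h.symm⟩)
    · exact Or.inr (Or.inr ⟨k, hk, t, ht, h.symm⟩)

theorem mem_frE {K : ℕ} {e : ℕ × ℕ} : e ∈ frE K ↔ ∃ k < K, e = (10, 11 * k + 1) ∨
    ∃ s ∈ F0, e = (11 * k + s.1, 11 * k + s.2) := by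
  unfold frE
  simp only [List.mem_flatMap, List.mem_range, List.mem_cons, List.mem_map]
  constructor
  · rintro ⟨k, hk, h | ⟨s, hs, h⟩⟩
    · exact ⟨k, hk, Or.inl h⟩
    · exact ⟨k, hk, Or.inr ⟨s, hs, h.symm⟩⟩
  · rintro ⟨k, hk, h | ⟨s, hs, h⟩⟩
    · exact ⟨k, hk, Or.inl h⟩
    · exact ⟨k, hk, Or.inr ⟨s, hs, h.symm⟩⟩

theorem mem_noE {M : List (List Bool)} {e : ℕ × ℕ} : e ∈ noE M ↔ ∃ k < 2 * wid M,
    (∃ s ∈ N0, e = (11 * k + s.1, 11 * k + s.2)) ∨ ∃ i < M.length, e ∈ ptE M k i := by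
  unfold noE
  simp only [List.mem_flatMap, List.mem_range, List.mem_append, List.mem_map]
  constructor
  · rintro ⟨k, hk, ⟨s, hs, h⟩ | ⟨i, hi, h⟩⟩
    · exact ⟨k, hk, Or.inl ⟨s, hs, h.symm⟩⟩
    · exact ⟨k, hk, Or.inr ⟨i, hi, h⟩⟩
  · rintro ⟨k, hk, ⟨s, hs, h⟩ | ⟨i, hi, h⟩⟩
    · exact ⟨k, hk, Or.inl ⟨s, hs, h.symm⟩⟩
    · exact ⟨k, hk, Or.inr ⟨i, hi, h⟩⟩

theorem isInst_red (M : List (List Bool)) : IsInst (red M) := by
  have hF : ∀ s ∈ F0, s.1 < 9 ∧ s.2 < 9 ∧ s.1 ≠ s.2 := by decide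
  have hN : ∀ s ∈ N0, s.1 < 9 ∧ s.2 < 9 ∧ s.1 ≠ s.2 := by decide
  refine ⟨fun e he => ?_, fun e he => List.mem_append.2 (Or.inl he)⟩
  change e ∈ frE (2 * wid M) ++ noE M at he
  change e.1 ∈ vts M ∧ e.2 ∈ vts M ∧ e.1 ≠ e.2
  rw [List.mem_append, mem_frE, mem_noE] at he
  rw [mem_vts, mem_vts]
  rcases he with ⟨k, hk, rfl | ⟨s, hs, rfl⟩⟩ | ⟨k, hk, ⟨s, hs, rfl⟩ | ⟨i, hi, he⟩⟩
  · exact ⟨Or.inl rfl, Or.inr (Or.inr ⟨k, hk, 1, by norm_num, rfl⟩), by
      change 10 ≠ 11 * k + 1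
      omega⟩
  · obtain ⟨h1, h2, h3⟩ := hF s hs
    exact ⟨Or.inr (Or.inr ⟨k, hk, _, h1, rfl⟩), Or.inr (Or.inr ⟨k, hk, _, h2, rfl⟩), by
      change 11 * k + s.1 ≠ 11 * k + s.2
      omega⟩
  · obtain ⟨h1, h2, h3⟩ := hN s hs
    exact ⟨Or.inr (Or.inr ⟨k, hk, _, h1, rfl⟩), Or.inr (Or.inr ⟨k, hk, _, h2, rfl⟩), by
      change 11 * k + s.1 ≠ 11 * k + s.2
      omega⟩
  · simp only [ptE, List.mem_cons, List.not_mem_nil, or_false] at he
    rcases he with rfl | rfl | rfl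
    · exact ⟨Or.inr (Or.inr ⟨k, hk, 0, by norm_num, rfl⟩), Or.inr (Or.inl ⟨i, hi, rfl⟩), by
        change 11 * k ≠ 11 * i + 9
        omega⟩
    · exact ⟨Or.inr (Or.inr ⟨k, hk, 8, by norm_num, rfl⟩), Or.inr (Or.inl ⟨i, hi, rfl⟩), by
        change 11 * k + 8 ≠ 11 * i + 9
        omega⟩
    · split_ifs
      · exact ⟨Or.inr (Or.inr ⟨k, hk, 4, by norm_num, rfl⟩), Or.inr (Or.inl ⟨i, hi, rfl⟩), by
          change 11 * k + 4 ≠ 11 * i + 9
          omega⟩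
      · exact ⟨Or.inr (Or.inr ⟨k, hk, 5, by norm_num, rfl⟩), Or.inr (Or.inl ⟨i, hi, rfl⟩), by
          change 11 * k + 5 ≠ 11 * i + 9
          omega⟩

/-! ### Soundness -/

/-- The exchange of the two sides. -/
def sw (t : ℕ) : ℕ := if t = 4 then 5 else if t = 5 then 4 else if t = 6 then 7 else
  if t = 7 then 6 else t

/-- The vertices with given labels. -/
def lab (π : ℕ → ℕ) (k i l t : ℕ) : ℕ := if t < 9 then 11 * k + π t else
  if t = 9 then 11 * i + 9 else if t = 10 then 10 else if t = 11 then 11 * l else 11 * l + 1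

section

variable {M : List (List Bool)} {p : ℕ → ℝ × ℝ}

/-- The edges (in any order). -/
def EE (M : List (List Bool)) (u v : ℕ) : Prop :=
  (u, v) ∈ (red M).2.1 ∨ (v, u) ∈ (red M).2.1

/-- The crossing-free edges (in any order). -/
def FF (M : List (List Bool)) (u v : ℕ) : Prop :=
  (u, v) ∈ (red M).2.2 ∨ (v, u) ∈ (red M).2.2

theorem FF.symm {u v : ℕ} (h : FF M u v) : FF M v u := Or.symm h
theorem EE.symm {u v : ℕ} (h : EE M u v) : EE M v u := Or.symm h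

theorem FF.ee {u v : ℕ} (h : FF M u v) : EE M u v := by
  rcases h with h | h
  · exact Or.inl (List.mem_append.2 (Or.inl h))
  · exact Or.inr (List.mem_append.2 (Or.inl h))

theorem FF_of {k : ℕ} (hk : k < 2 * wid M) {s : ℕ × ℕ} (hs : s ∈ F0) :
    FF M (11 * k + s.1) (11 * k + s.2) := Or.inl (mem_frE.2 ⟨k, hk, Or.inr ⟨s, hs, rfl⟩⟩)

theorem FF_o {k : ℕ} (hk : k < 2 * wid M) : FF M (11 * k + 1) 10 :=
  Or.inr (mem_frE.2 ⟨k, hk, Or.inl rfl⟩)

theorem EE_of {k : ℕ} (hk : k < 2 * wid M) {s : ℕ × ℕ} (hs : s ∈ N0) :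
    EE M (11 * k + s.1) (11 * k + s.2) :=
  Or.inl (List.mem_append.2 (Or.inr (mem_noE.2 ⟨k, hk, Or.inl ⟨s, hs, rfl⟩⟩)))

theorem EE_pt {k i : ℕ} (hk : k < 2 * wid M) (hi : i < M.length) {e : ℕ × ℕ}
    (he : e ∈ ptE M k i) : EE M e.1 e.2 :=
  Or.inl (List.mem_append.2 (Or.inr (mem_noE.2 ⟨k, hk, Or.inr ⟨i, hi, he⟩⟩)))

/-- Edges of a drawing which do not meet. -/
theorem nm_of (hfree : ∀ e ∈ (red M).2.2, ∀ f ∈ (red M).2.1, ¬ Same e f → ¬ Cross p e f)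
    {a b c d : ℕ} (h1 : FF M a b) (h2 : EE M c d) (d1 : a ≠ c) (d2 : a ≠ d) (d3 : b ≠ c)
    (d4 : b ≠ d) : ¬ Meets (p a) (p b) (p c) (p d) := by
  have key : ∀ a b c d : ℕ, (a, b) ∈ (red M).2.2 → (c, d) ∈ (red M).2.1 → a ≠ c → a ≠ d → b ≠ c →
      b ≠ d → ¬ Meets (p a) (p b) (p c) (p d) := by
    rintro a b c d h1 h2 d1 d2 d3 d4 ⟨x, hx1, hx2⟩
    refine hfree _ h1 _ h2 ?_ ⟨x, hx1, hx2, ?_⟩
    · rintro (h | h)
      · exact d1 (congrArg Prod.fst h)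
      · exact d2 (congrArg Prod.fst h)
    · rintro ⟨w, h3 | h3, h4 | h4, -⟩
      · exact d1 (h3.symm.trans h4)
      · exact d2 (h3.symm.trans h4)
      · exact d3 (h3.symm.trans h4)
      · exact d4 (h3.symm.trans h4)
  rcases h1 with h1 | h1 <;> rcases h2 with h2 | h2
  · exact key _ _ _ _ h1 h2 d1 d2 d3 d4
  · exact fun h => key _ _ _ _ h1 h2 d2 d1 d4 d3 h.swapR
  · exact fun h => key _ _ _ _ h1 h2 d3 d4 d1 d2 h.swapL
  · exact fun h => key _ _ _ _ h1 h2 d4 d3 d2 d1 h.swapL.swapR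

theorem av_of (hd : IsDrawing (red M).1 (red M).2.1 p) {a b w : ℕ} (h1 : EE M a b)
    (hw : w ∈ vts M) (d1 : w ≠ a) (d2 : w ≠ b) : p w ∉ segment ℝ (p a) (p b) := by
  rcases h1 with h1 | h1
  · exact hd.avoid _ h1 w hw d1 d2
  · rw [segment_symm]; exact hd.avoid _ h1 w hw d2 d1

/-- The gadget number `k` has a triangle which contains the centre. -/
def Bad (p : ℕ → ℝ × ℝ) (k : ℕ) : Prop := ∃ T ∈ TL, ∃ σ : ℝ, (σ = 1 ∨ σ = -1) ∧
  Int σ (p (11 * k + T.1)) (p (11 * k + T.2.1)) (p (11 * k + T.2.2)) (p 10)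

theorem not_both {σ τ : ℝ} {A B C A' B' C' : ℝ × ℝ} (hτ : τ = 1 ∨ τ = -1)
    (h1 : Int τ A' B' C' A) (hA : Int σ A B C A')
    (hB : Int σ A B C B') (hC : Int σ A B C C') : False := by
  have hT := h1.tri
  have key : (τ * D A' B' C') * (σ * D A B A) = (τ * D B' C' A) * (σ * D A B A') +
      (τ * D C' A' A) * (σ * D A B B') + (τ * D A' B' A) * (σ * D A B C') := by
    unfold D; ring
  have h0 : D A B A = 0 := by unfold D; ring
  rw [h0] at key
  have k1 := mul_pos h1.2.1 hA.1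
  have k2 := mul_pos h1.2.2 hB.1
  have k3 := mul_pos h1.1 hC.1
  linarith

variable (hd : IsDrawing (red M).1 (red M).2.1 p)
  (hfree : ∀ e ∈ (red M).2.2, ∀ f ∈ (red M).2.1, ¬ Same e f → ¬ Cross p e f)

include hfree in
theorem prop {σ : ℝ} (hσ : σ = 1 ∨ σ = -1) {A B C u v : ℕ} (h : Int σ (p A) (p B) (p C) (p u))
    (h1 : EE M A B) (h2 : EE M B C) (h3 : EE M C A) (h4 : FF M u v)
    (hu : u ≠ A ∧ u ≠ B ∧ u ≠ C) (hv : v ≠ A ∧ v ≠ B ∧ v ≠ C) :
    Int σ (p A) (p B) (p C) (p v) := by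
  obtain ⟨u1, u2, u3⟩ := hu
  obtain ⟨v1, v2, v3⟩ := hv
  exact exit hσ h (fun _ => nm_of hfree h4 h1 u1 u2 v1 v2)
    (fun _ => nm_of hfree h4 h2 u2 u3 v2 v3) (fun _ => nm_of hfree h4 h3 u3 u1 v3 v1)

include hfree in
/-- If a triangle of the gadget `k` contains the centre, it contains all other gadgets. -/
theorem all_in {k l : ℕ} (hk : k < 2 * wid M) (hl : l < 2 * wid M) (hkl : k ≠ l) {T : ℕ × ℕ × ℕ}
    (hT : T ∈ TL) {σ : ℝ} (hσ : σ = 1 ∨ σ = -1)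
    (h : Int σ (p (11 * k + T.1)) (p (11 * k + T.2.1)) (p (11 * k + T.2.2)) (p 10)) :
    ∀ t < 9, Int σ (p (11 * k + T.1)) (p (11 * k + T.2.1)) (p (11 * k + T.2.2))
      (p (11 * l + t)) := by
  have hTb : ∀ T ∈ TL, T.1 < 9 ∧ T.2.1 < 9 ∧ T.2.2 < 9 := by decide
  obtain ⟨b1, b2, b3⟩ := hTb T hT
  have hTe : ∀ T ∈ TL, (((T.1, T.2.1) ∈ F0 ∨ (T.2.1, T.1) ∈ F0) ∨ (T.1, T.2.1) ∈ N0 ∨
      (T.2.1, T.1) ∈ N0) ∧ (((T.2.1, T.2.2) ∈ F0 ∨ (T.2.2, T.2.1) ∈ F0) ∨ (T.2.1, T.2.2) ∈ N0 ∨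
      (T.2.2, T.2.1) ∈ N0) ∧ (((T.2.2, T.1) ∈ F0 ∨ (T.1, T.2.2) ∈ F0) ∨ (T.2.2, T.1) ∈ N0 ∨
      (T.1, T.2.2) ∈ N0) := by decide
  have hside : ∀ a b : ℕ, (((a, b) ∈ F0 ∨ (b, a) ∈ F0) ∨ (a, b) ∈ N0 ∨ (b, a) ∈ N0) →
      EE M (11 * k + a) (11 * k + b) := by
    rintro a b ((h | h) | h | h)
    · exact (FF_of hk h).ee
    · exact (FF_of hk h).symm.ee
    · exact EE_of hk h
    · exact (EE_of hk h).symm
  obtain ⟨e1, e2, e3⟩ := hTe T hT
  have s1 := hside _ _ e1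
  have s2 := hside _ _ e2
  have s3 := hside _ _ e3
  have ne : ∀ a < 9, ∀ b < 9, 11 * l + a ≠ 11 * k + b := by intro a ha b hb; omega
  have step : ∀ a b, a < 9 → b < 9 → ((a, b) ∈ F0 ∨ (b, a) ∈ F0) →
      Int σ (p (11 * k + T.1)) (p (11 * k + T.2.1)) (p (11 * k + T.2.2)) (p (11 * l + a)) →
      Int σ (p (11 * k + T.1)) (p (11 * k + T.2.1)) (p (11 * k + T.2.2)) (p (11 * l + b)) := by
    intro a b ha hb hab h0
    refine prop hfree hσ h0 s1 s2 s3 ?_ ⟨ne a ha _ b1, ne a ha _ b2, ne a ha _ b3⟩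
      ⟨ne b hb _ b1, ne b hb _ b2, ne b hb _ b3⟩
    rcases hab with h1 | h1
    · exact FF_of hl h1
    · exact (FF_of hl h1).symm
  have i1 : Int σ (p (11 * k + T.1)) (p (11 * k + T.2.1)) (p (11 * k + T.2.2))
      (p (11 * l + 1)) :=
    prop hfree hσ h s1 s2 s3 (FF_o hl).symm ⟨by omega, by omega, by omega⟩
      ⟨ne 1 (by norm_num) _ b1, ne 1 (by norm_num) _ b2, ne 1 (by norm_num) _ b3⟩
  have i0 := step 1 0 (by norm_num) (by norm_num) (by decide) i1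
  have i2 := step 1 2 (by norm_num) (by norm_num) (by decide) i1
  have i3 := step 1 3 (by norm_num) (by norm_num) (by decide) i1
  have i4 := step 0 4 (by norm_num) (by norm_num) (by decide) i0
  have i5 := step 0 5 (by norm_num) (by norm_num) (by decide) i0
  have i6 := step 4 6 (by norm_num) (by norm_num) (by decide) i4
  have i7 := step 5 7 (by norm_num) (by norm_num) (by decide) i5
  have i8 := step 4 8 (by norm_num) (by norm_num) (by decide) i4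
  intro t ht
  interval_cases t <;> assumption

include hfree in
theorem bad_unique {k l : ℕ} (hk : k < 2 * wid M) (hl : l < 2 * wid M) (hkl : k ≠ l)
    (h1 : Bad p k) (h2 : Bad p l) : False := by
  have hTb : ∀ T ∈ TL, T.1 < 9 ∧ T.2.1 < 9 ∧ T.2.2 < 9 := by decide
  obtain ⟨T, hT, σ, hσ, hI⟩ := h1
  obtain ⟨T', hT', τ, hτ, hI'⟩ := h2
  have a1 := all_in hfree hk hl hkl hT hσ hI
  have a2 := all_in hfree hl hk hkl.symm hT' hτ hI'
  obtain ⟨b1, b2, b3⟩ := hTb T' hT'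
  obtain ⟨c1, -, -⟩ := hTb T hT
  exact not_both hτ (a2 _ c1) (a1 _ b1) (a1 _ b2) (a1 _ b3)

theorem lab_inj {π : ℕ → ℕ} (hπ : ∀ t < 9, π t < 9) (hπ' : ∀ s < 9, ∀ t < 9, π s = π t → s = t)
    {k i l : ℕ} (hkl : k ≠ l) : ∀ s < 13, ∀ t < 13, lab π k i l s = lab π k i l t → s = t := by
  intro s hs t ht h
  have h1 := hπ s
  have h2 := hπ t
  have h4 := fun h1 h2 => hπ' s h1 t h2
  unfold lab at h
  by_cases hs9 : s < 9
  · by_cases ht9 : t < 9
    · rw [if_pos hs9, if_pos ht9] at h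
      exact h4 hs9 ht9 (by omega)
    · rw [if_pos hs9, if_neg ht9] at h
      have := h1 hs9
      split_ifs at h <;> omega
  · by_cases ht9 : t < 9
    · rw [if_neg hs9, if_pos ht9] at h
      have := h2 ht9
      split_ifs at h <;> omega
    · rw [if_neg hs9, if_neg ht9] at h
      split_ifs at h <;> omega

include hd hfree in
theorem loc_of {π : ℕ → ℕ} (hπ : ∀ t < 9, π t < 9)
    (hπ' : ∀ s < 9, ∀ t < 9, π s = π t → s = t)
    (hF : ∀ s ∈ F0, (π s.1, π s.2) ∈ F0 ∨ (π s.2, π s.1) ∈ F0)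
    (hN : ∀ s ∈ N0, (π s.1, π s.2) ∈ N0 ∨ (π s.2, π s.1) ∈ N0)
    (hT : ∀ T ∈ TL, (π T.1, π T.2.1, π T.2.2) ∈ TL ∨ (π T.1, π T.2.2, π T.2.1) ∈ TL)
    (h0 : π 0 = 0) (h1 : π 1 = 1) (h8 : π 8 = 8)
    {k i l : ℕ} (hk : k < 2 * wid M) (hl : l < 2 * wid M) (hi : i < M.length) (hkl : k ≠ l)
    (h4 : (11 * k + π 4, 11 * i + 9) ∈ ptE M k i) (hgood : ¬ Bad p k) :
    Loc (fun t => p (lab π k i l t)) := by
  have hinj := lab_inj hπ hπ' (i := i) hkl
  have L9 : ∀ t < 9, lab π k i l t = 11 * k + π t := fun t ht => by unfold lab; rw [if_pos ht]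
  have l9 : lab π k i l 9 = 11 * i + 9 := rfl
  have l10 : lab π k i l 10 = 10 := rfl
  have l11 : lab π k i l 11 = 11 * l := rfl
  have l12 : lab π k i l 12 = 11 * l + 1 := rfl
  have hF9 : ∀ s ∈ F0, s.1 < 9 ∧ s.2 < 9 := by decide
  have hN9 : ∀ s ∈ N0, s.1 < 9 ∧ s.2 < 9 := by decide
  have hFF0 : ∀ s ∈ F0 ++ [(1, 10), (11, 12), (12, 10)],
      s.1 < 13 ∧ s.2 < 13 ∧ FF M (lab π k i l s.1) (lab π k i l s.2) := by
    intro s hs
    rw [List.mem_append] at hs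
    rcases hs with hs | hs
    · obtain ⟨g1, g2⟩ := hF9 s hs
      refine ⟨by omega, by omega, ?_⟩
      rw [L9 _ g1, L9 _ g2]
      rcases hF s hs with h | h
      · exact FF_of hk h
      · exact (FF_of hk h).symm
    · simp only [List.mem_cons, List.not_mem_nil, or_false] at hs
      rcases hs with rfl | rfl | rfl
      · refine ⟨by norm_num, by norm_num, ?_⟩
        rw [L9 1 (by norm_num), l10, h1]
        exact FF_o hk
      · refine ⟨by norm_num, by norm_num, ?_⟩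
        rw [l11, l12]
        exact FF_of hl (s := (0, 1)) (by decide)
      · refine ⟨by norm_num, by norm_num, ?_⟩
        rw [l12, l10]
        exact FF_o hl
  have hEE0 : ∀ s ∈ N0 ++ [(0, 9), (8, 9), (4, 9), (9, 11)],
      s.1 < 13 ∧ s.2 < 13 ∧ EE M (lab π k i l s.1) (lab π k i l s.2) := by
    intro s hs
    rw [List.mem_append] at hs
    rcases hs with hs | hs
    · obtain ⟨g1, g2⟩ := hN9 s hs
      refine ⟨by omega, by omega, ?_⟩
      rw [L9 _ g1, L9 _ g2]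
      rcases hN s hs with h | h
      · exact EE_of hk h
      · exact (EE_of hk h).symm
    · simp only [List.mem_cons, List.not_mem_nil, or_false] at hs
      rcases hs with rfl | rfl | rfl | rfl
      · refine ⟨by norm_num, by norm_num, ?_⟩
        rw [L9 0 (by norm_num), l9, h0]
        exact EE_pt hk hi (e := (11 * k, 11 * i + 9)) (by simp [ptE])
      · refine ⟨by norm_num, by norm_num, ?_⟩
        rw [L9 8 (by norm_num), l9, h8]
        exact EE_pt hk hi (e := (11 * k + 8, 11 * i + 9)) (by simp [ptE])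
      · refine ⟨by norm_num, by norm_num, ?_⟩
        rw [L9 4 (by norm_num), l9]
        exact EE_pt hk hi h4
      · refine ⟨by norm_num, by norm_num, ?_⟩
        rw [l9, l11]
        exact (EE_pt hl hi (e := (11 * l, 11 * i + 9)) (by simp [ptE])).symm
  have hfF : ∀ a b, fF a b = true → a < 13 ∧ b < 13 ∧
      FF M (lab π k i l a) (lab π k i l b) := by
    intro a b hab
    unfold fF at hab
    rw [Bool.or_eq_true, decide_eq_true_iff, decide_eq_true_iff] at hab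
    rcases hab with h | h
    · exact hFF0 _ h
    · obtain ⟨g1, g2, g3⟩ := hFF0 _ h
      exact ⟨g2, g1, g3.symm⟩
  have heE : ∀ a b, eE a b = true → a < 13 ∧ b < 13 ∧
      EE M (lab π k i l a) (lab π k i l b) := by
    intro a b hab
    unfold eE at hab
    rw [Bool.or_eq_true, Bool.or_eq_true, decide_eq_true_iff, decide_eq_true_iff] at hab
    rcases hab with (h | h) | h
    · obtain ⟨g1, g2, g3⟩ := hfF _ _ h
      exact ⟨g1, g2, g3.ee⟩
    · exact hEE0 _ h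
    · obtain ⟨g1, g2, g3⟩ := hEE0 _ h
      exact ⟨g2, g1, g3.symm⟩
  have hV : ∀ t < 13, lab π k i l t ∈ vts M := by
    intro t ht
    rw [mem_vts]
    unfold lab
    split_ifs with g1 g2 g3 g4
    · exact Or.inr (Or.inr ⟨k, hk, π t, hπ t g1, rfl⟩)
    · exact Or.inr (Or.inl ⟨i, hi, rfl⟩)
    · exact Or.inl rfl
    · exact Or.inr (Or.inr ⟨l, hl, 0, by norm_num, rfl⟩)
    · exact Or.inr (Or.inr ⟨l, hl, 1, by norm_num, rfl⟩)
  refine ⟨?_, ?_, ?_⟩
  · intro a b c d hab hcd d1 d2 d3 d4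
    obtain ⟨a1, b1, f1⟩ := hfF _ _ hab
    obtain ⟨c1, e1, f2⟩ := heE _ _ hcd
    exact nm_of hfree f1 f2 (fun h => d1 (hinj _ a1 _ c1 h)) (fun h => d2 (hinj _ a1 _ e1 h))
      (fun h => d3 (hinj _ b1 _ c1 h)) (fun h => d4 (hinj _ b1 _ e1 h))
  · intro a b w hw hab d1 d2
    obtain ⟨a1, b1, f1⟩ := heE _ _ hab
    exact av_of hd f1 (hV w hw) (fun h => d1 (hinj _ hw _ a1 h)) (fun h => d2 (hinj _ hw _ b1 h))
  · intro T hTT
    have hTb : ∀ T ∈ TL, T.1 < 9 ∧ T.2.1 < 9 ∧ T.2.2 < 9 := by decide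
    obtain ⟨b1, b2, b3⟩ := hTb T hTT
    rw [L9 _ b1, L9 _ b2, L9 _ b3, l10]
    rcases hT T hTT with h | h
    · intro σ hσ hI
      exact hgood ⟨_, h, σ, hσ, hI⟩
    · have : Out (p (11 * k + π T.1)) (p (11 * k + π T.2.2)) (p (11 * k + π T.2.1)) (p 10) := by
        intro σ hσ hI
        exact hgood ⟨_, h, σ, hσ, hI⟩
      exact this.swap.rot

end

/-- Soundness of the reduction. -/
theorem SR_of_red {m : ℕ} {M : List (List Bool)} (hM : Rect m M)
    (h : PartiallyPlanar (red M)) : SR 3 M := by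
  classical
  obtain ⟨p, hd, hfree⟩ := h
  have hgood : ∀ j < wid M, ∃ k l, k < 2 * wid M ∧ l < 2 * wid M ∧ k ≠ l ∧ k / 2 = j ∧
      ¬ Bad p k := by
    intro j hj
    by_cases hb : Bad p (2 * j)
    · refine ⟨2 * j + 1, 2 * j, by omega, by omega, by omega, by omega, fun h => ?_⟩
      exact bad_unique hfree (by omega) (by omega) (by omega) hb h
    · exact ⟨2 * j, 2 * j + 1, by omega, by omega, by omega, by omega, hb⟩
  choose! κ l hκ hl hkl hκj hG using hgood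
  refine ⟨fun i => ![1, (p (11 * i + 9)).1, (p (11 * i + 9)).2], fun j =>
    let z := p (11 * κ j); let a := p (11 * κ j + 4); let a' := p (11 * κ j + 5)
    ![D z a' a * ((a.2 + a'.2 - 2 * z.2) * z.1 - (a.1 + a'.1 - 2 * z.1) * z.2),
      D z a' a * (-(a.2 + a'.2 - 2 * z.2)), D z a' a * (a.1 + a'.1 - 2 * z.1)],
    fun i hi j hj => ?_⟩
  have hjw : j < wid M := by rwa [← wid_eq hM hi]
  have hent : ent M i (κ j / 2) = M[i][j] := by rw [hκj j hjw]; exact ent_eq hi hj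
  simp only [Matrix.vec3_dotProduct, Matrix.cons_val]
  have hcalc : ∀ z a a' q : ℝ × ℝ, 1 * (D z a' a * ((a.2 + a'.2 - 2 * z.2) * z.1 -
      (a.1 + a'.1 - 2 * z.1) * z.2)) + q.1 * (D z a' a * (-(a.2 + a'.2 - 2 * z.2))) +
      q.2 * (D z a' a * (a.1 + a'.1 - 2 * z.1)) = D z a' a * (D z a q + D z a' q) := by
    intro z a a' q
    unfold D; ring
  rw [hcalc]
  cases hb : M[i][j] with
  | true =>
    have hloc := loc_of hd hfree (π := id) (by simp) (by simp) (by decide) (by decide)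
      (by decide) rfl rfl rfl (hκ j hjw) (hl j hjw) hi (hkl j hjw) (by
        simp [ptE, hent, hb]) (hG j hjw)
    have h1 := core hloc.facts
    have h2 : 0 < D (p (11 * κ j)) (p (11 * κ j + 5)) (p (11 * κ j + 4)) *
        (D (p (11 * κ j)) (p (11 * κ j + 4)) (p (11 * i + 9)) +
          D (p (11 * κ j)) (p (11 * κ j + 5)) (p (11 * i + 9))) := h1
    simp only [sgn, if_true]
    linarith
  | false =>
    have hloc := loc_of hd hfree (π := sw) (by decide) (by decide) (by decide) (by decide)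
      (by decide) rfl rfl rfl (hκ j hjw) (hl j hjw) hi (hkl j hjw) (by
        simp [ptE, hent, hb, sw]) (hG j hjw)
    have h1 := core hloc.facts
    have h2 : 0 < D (p (11 * κ j)) (p (11 * κ j + 4)) (p (11 * κ j + 5)) *
        (D (p (11 * κ j)) (p (11 * κ j + 5)) (p (11 * i + 9)) +
          D (p (11 * κ j)) (p (11 * κ j + 4)) (p (11 * i + 9))) := h1
    have h3 : D (p (11 * κ j)) (p (11 * κ j + 4)) (p (11 * κ j + 5)) =
      -D (p (11 * κ j)) (p (11 * κ j + 5)) (p (11 * κ j + 4)) := D_swap _ _ _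
    rw [h3] at h2
    simp only [sgn, Bool.false_eq_true, if_false]
    linarith

end Pool.Agent.NPC.ER.GPP
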