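import Pool.Agent.H606R2.GPP.Core

/-!
# The gadget: local soundness

Labels: `0 … 8` are the vertices `z, b, x, y, a, a', c, c', e` of the gadget, `9` is a point, `10`
is the centre, `11` and `12` are the vertices `z, b` of another gadget.
-/

namespace Pool.Agent.NPC.ER.GPP

/-- The crossing-free edges of the gadget. -/
def F0 : List (ℕ × ℕ) := [(0, 1), (1, 2), (1, 3), (0, 2), (0, 3), (0, 4), (0, 5), (4, 5), (8, 4),
  (8, 5), (8, 6), (8, 7), (4, 6), (5, 7)]

/-- The other edges of the gadget. -/
def N0 : List (ℕ × ℕ) := [(2, 3), (0, 6), (0, 7), (2, 6), (2, 7), (3, 6), (3, 7)]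

/-- Crossing-free edges between the labels. -/
def fF (i j : ℕ) : Bool :=
  decide ((i, j) ∈ F0 ++ [(1, 10), (11, 12), (12, 10)]) ||
    decide ((j, i) ∈ F0 ++ [(1, 10), (11, 12), (12, 10)])

/-- Edges between the labels. -/
def eE (i j : ℕ) : Bool :=
  fF i j || decide ((i, j) ∈ N0 ++ [(0, 9), (8, 9), (4, 9), (9, 11)]) ||
    decide ((j, i) ∈ N0 ++ [(0, 9), (8, 9), (4, 9), (9, 11)])

/-- The triangles of the gadget. -/
def TL : List (ℕ × ℕ × ℕ) := [(0, 1, 2), (0, 1, 3), (0, 4, 5), (8, 4, 5), (8, 4, 6), (8, 5, 7),
  (2, 0, 3)]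

/-- No orientation of the triangle contains the point. -/
def Out (u v w t : ℝ × ℝ) : Prop := ∀ σ : ℝ, (σ = 1 ∨ σ = -1) → ¬ Int σ u v w t

theorem Out.rot {u v w t : ℝ × ℝ} (h : Out u v w t) : Out v w u t :=
  fun σ hσ h1 => h σ hσ h1.rot.rot

theorem Out.swap {u v w t : ℝ × ℝ} (h : Out u v w t) : Out v u w t := by
  intro σ hσ h1
  refine h (-σ) (sgn_neg hσ) ⟨?_, ?_, ?_⟩
  · have := h1.1; rw [D_swap12] at this; linarith
  · have := h1.2.2
    have e : D v w t = -D w v t := by unfold D; ring
    rw [e]; linarith
  · have := h1.2.1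
    have e : D w u t = -D u w t := by unfold D; ring
    rw [e]; linarith

/-- A local drawing. -/
structure Loc (P : ℕ → ℝ × ℝ) : Prop where
  nm : ∀ i j k l, fF i j = true → eE k l = true → i ≠ k → i ≠ l → j ≠ k → j ≠ l →
    ¬ Meets (P i) (P j) (P k) (P l)
  av : ∀ i j w, w < 13 → eE i j = true → w ≠ i → w ≠ j → P w ∉ segment ℝ (P i) (P j)
  out : ∀ T ∈ TL, Out (P T.1) (P T.2.1) (P T.2.2) (P 10)

variable {P : ℕ → ℝ × ℝ}

/-- Moving along an edge which does not meet the sides. -/
theorem Loc.move (h : Loc P) {i j k u v : ℕ} (hv : Out (P i) (P j) (P k) (P v))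
    (h1 : ((fF i j && eE u v) || (eE i j && fF u v)) = true)
    (h2 : ((fF j k && eE u v) || (eE j k && fF u v)) = true)
    (h3 : ((fF k i && eE u v) || (eE k i && fF u v)) = true)
    (hd : u ≠ i ∧ u ≠ j ∧ u ≠ k ∧ v ≠ i ∧ v ≠ j ∧ v ≠ k) : Out (P i) (P j) (P k) (P u) := by
  obtain ⟨d1, d2, d3, d4, d5, d6⟩ := hd
  have key : ∀ i j, ((fF i j && eE u v) || (eE i j && fF u v)) = true → u ≠ i → u ≠ j → v ≠ i →
      v ≠ j → ¬ Meets (P u) (P v) (P i) (P j) := by
    intro i j h0 e1 e2 e3 e4 hm
    rw [Bool.or_eq_true, Bool.and_eq_true, Bool.and_eq_true] at h0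
    rcases h0 with h0 | h0
    · exact h.nm i j u v h0.1 h0.2 e1.symm e3.symm e2.symm e4.symm hm.comm
    · exact h.nm u v i j h0.2 h0.1 e1 e2 e3 e4 hm
  intro σ hσ hI
  exact hv σ hσ (exit hσ hI (fun _ => key _ _ h1 d1 d2 d4 d5) (fun _ => key _ _ h2 d2 d3 d5 d6)
    (fun _ => key _ _ h3 d3 d1 d6 d4))

/-- Nondegenerate triangles. -/
theorem Loc.nd (h : Loc P) {i j k : ℕ} (hi : i < 13) (hj : j < 13) (hk : k < 13)
    (h1 : eE i j = true) (h2 : eE j k = true) (h3 : eE i k = true)
    (hd : i ≠ j ∧ j ≠ k ∧ i ≠ k) : D (P i) (P j) (P k) ≠ 0 := by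
  intro h0
  rcases between_of_D h0 with h4 | h4 | h4
  · exact h.av j k i hi h2 hd.1 hd.2.2 h4
  · exact h.av i k j hj h3 hd.1.symm hd.2.1 h4
  · exact h.av i j k hk h1 hd.2.2.symm hd.2.1.symm h4

/-- Visibility. -/
theorem Loc.nc (h : Loc P) {i j k t : ℕ} (ht : t < 13) (ho : Out (P i) (P j) (P k) (P t))
    (h1 : eE i j = true) (h2 : eE j k = true) (h3 : eE k i = true)
    (h4 : ((fF j k && eE i t) || (eE j k && fF i t)) = true)
    (hd : t ≠ i ∧ t ≠ j ∧ t ≠ k ∧ i ≠ j ∧ i ≠ k) : NC (P i) (P j) (P k) (P t) := by
  obtain ⟨d1, d2, d3, d4, d5⟩ := hd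
  refine nc_of (h.av _ _ _ ht h1 d1 d2) (h.av _ _ _ ht h2 d2 d3) (h.av _ _ _ ht h3 d3 d1) ho ?_
  intro hm
  rw [Bool.or_eq_true, Bool.and_eq_true, Bool.and_eq_true] at h4
  rcases h4 with h4 | h4
  · exact h.nm j k i t h4.1 h4.2 d4.symm d2.symm d5.symm d3.symm hm.comm
  · exact h.nm i t j k h4.2 h4.1 d4 d5 d2 d3 hm

theorem Loc.facts (h : Loc P) :
    Facts (P 0) (P 1) (P 2) (P 3) (P 4) (P 5) (P 6) (P 7) (P 8) (P 9) := by
  -- the point is outside of the triangles
  have w1 : Out (P 0) (P 1) (P 2) (P 9) :=
    h.move (h.move (h.move (h.out _ (by decide : (0, 1, 2) ∈ TL)) (u := 12) (by decide) (by decide)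
      (by decide) (by decide)) (u := 11) (by decide) (by decide) (by decide) (by decide))
      (by decide) (by decide) (by decide) (by decide)
  have w2 : Out (P 0) (P 1) (P 3) (P 9) :=
    h.move (h.move (h.move (h.out _ (by decide : (0, 1, 3) ∈ TL)) (u := 12) (by decide) (by decide)
      (by decide) (by decide)) (u := 11) (by decide) (by decide) (by decide) (by decide))
      (by decide) (by decide) (by decide) (by decide)
  have w3 : Out (P 0) (P 4) (P 5) (P 9) :=
    h.move (h.move (h.move (h.out _ (by decide : (0, 4, 5) ∈ TL)) (u := 12) (by decide) (by decide)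
      (by decide) (by decide)) (u := 11) (by decide) (by decide) (by decide) (by decide))
      (by decide) (by decide) (by decide) (by decide)
  have w4 : Out (P 8) (P 4) (P 5) (P 9) :=
    h.move (h.move (h.move (h.out _ (by decide : (8, 4, 5) ∈ TL)) (u := 12) (by decide) (by decide)
      (by decide) (by decide)) (u := 11) (by decide) (by decide) (by decide) (by decide))
      (by decide) (by decide) (by decide) (by decide)
  have w5 : Out (P 8) (P 4) (P 6) (P 9) :=
    h.move (h.move (h.move (h.out _ (by decide : (8, 4, 6) ∈ TL)) (u := 12) (by decide) (by decide)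
      (by decide) (by decide)) (u := 11) (by decide) (by decide) (by decide) (by decide))
      (by decide) (by decide) (by decide) (by decide)
  -- the first triangle
  have a8 : Out (P 0) (P 1) (P 2) (P 8) := h.move w1 (by decide) (by decide) (by decide) (by decide)
  have a6 : Out (P 0) (P 1) (P 2) (P 6) := h.move a8 (by decide) (by decide) (by decide) (by decide)
  have a3 : Out (P 0) (P 1) (P 2) (P 3) := h.move a6 (by decide) (by decide) (by decide) (by decide)
  have a4 : Out (P 0) (P 1) (P 2) (P 4) := h.move a8 (by decide) (by decide) (by decide) (by decide)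
  have a5 : Out (P 0) (P 1) (P 2) (P 5) := h.move a8 (by decide) (by decide) (by decide) (by decide)
  -- the second triangle
  have b8 : Out (P 0) (P 1) (P 3) (P 8) := h.move w2 (by decide) (by decide) (by decide) (by decide)
  have b6 : Out (P 0) (P 1) (P 3) (P 6) := h.move b8 (by decide) (by decide) (by decide) (by decide)
  have b2 : Out (P 0) (P 1) (P 3) (P 2) := h.move b6 (by decide) (by decide) (by decide) (by decide)
  have b4 : Out (P 0) (P 1) (P 3) (P 4) := h.move b8 (by decide) (by decide) (by decide) (by decide)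
  have b5 : Out (P 0) (P 1) (P 3) (P 5) := h.move b8 (by decide) (by decide) (by decide) (by decide)
  -- the third triangle
  have c8 : Out (P 0) (P 4) (P 5) (P 8) := h.move w3 (by decide) (by decide) (by decide) (by decide)
  have c6 : Out (P 0) (P 4) (P 5) (P 6) := h.move c8 (by decide) (by decide) (by decide) (by decide)
  -- the fourth triangle
  have d1 : Out (P 8) (P 4) (P 5) (P 1) := h.move (h.out _ (by decide : (8, 4, 5) ∈ TL))
    (by decide) (by decide) (by decide) (by decide)
  have d0 : Out (P 8) (P 4) (P 5) (P 0) := h.move d1 (by decide) (by decide) (by decide) (by decide)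
  have d6 : Out (P 8) (P 4) (P 5) (P 6) := h.move d0 (by decide) (by decide) (by decide) (by decide)
  -- the fifth triangle
  have e1 : Out (P 8) (P 4) (P 6) (P 1) := h.move (h.out _ (by decide : (8, 4, 6) ∈ TL))
    (by decide) (by decide) (by decide) (by decide)
  have e0 : Out (P 8) (P 4) (P 6) (P 0) := h.move e1 (by decide) (by decide) (by decide) (by decide)
  have e5 : Out (P 8) (P 4) (P 6) (P 5) := h.move e0 (by decide) (by decide) (by decide) (by decide)
  -- the triangle with the sides `zx`, `zy`, `xy`
  have g1 : Out (P 2) (P 0) (P 3) (P 1) := h.move (h.out _ (by decide : (2, 0, 3) ∈ TL))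
    (by decide) (by decide) (by decide) (by decide)
  have nt : ∀ {i j k t : ℕ}, t < 13 → Out (P i) (P j) (P k) (P t) →
      (eE i j && eE j k && eE k i) = true → ((fF j k && eE i t) || (eE j k && fF i t)) = true →
      (t ≠ i ∧ t ≠ j ∧ t ≠ k ∧ i ≠ j ∧ i ≠ k) → NC (P i) (P j) (P k) (P t) := by
    intro i j k t ht ho h1 h2 h3
    rw [Bool.and_eq_true, Bool.and_eq_true] at h1
    exact h.nc ht ho h1.1.1 h1.1.2 h1.2 h2 h3
  exact {
    d1 := h.nd (by decide) (by decide) (by decide) (by decide) (by decide) (by decide) (by decide)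
    d2 := h.nd (by decide) (by decide) (by decide) (by decide) (by decide) (by decide) (by decide)
    d3 := h.nd (by decide) (by decide) (by decide) (by decide) (by decide) (by decide) (by decide)
    d4 := h.nd (by decide) (by decide) (by decide) (by decide) (by decide) (by decide) (by decide)
    d5 := h.nd (by decide) (by decide) (by decide) (by decide) (by decide) (by decide) (by decide)
    n1 := (nt (by decide) a3 (by decide) (by decide) (by decide)).swap
    n2 := nt (by decide) b2 (by decide) (by decide) (by decide)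
    n3 := nt (by decide) g1.swap (by decide) (by decide) (by decide)
    zxy := h.av 2 3 0 (by decide) (by decide) (by decide) (by decide)
    va := ⟨(nt (by decide) a4 (by decide) (by decide) (by decide)).swap,
      nt (by decide) b4 (by decide) (by decide) (by decide)⟩
    va' := ⟨(nt (by decide) a5 (by decide) (by decide) (by decide)).swap,
      nt (by decide) b5 (by decide) (by decide) (by decide)⟩
    vc := ⟨(nt (by decide) a6 (by decide) (by decide) (by decide)).swap,
      nt (by decide) b6 (by decide) (by decide) (by decide)⟩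
    vp := ⟨(nt (by decide) w1 (by decide) (by decide) (by decide)).swap,
      nt (by decide) w2 (by decide) (by decide) (by decide)⟩
    azc := h.av 0 6 4 (by decide) (by decide) (by decide) (by decide)
    cza := h.av 0 4 6 (by decide) (by decide) (by decide) (by decide)
    n4 := nt (by decide) c6 (by decide) (by decide) (by decide)
    s1 := h.av 0 6 5 (by decide) (by decide) (by decide) (by decide)
    s2 := h.av 6 4 5 (by decide) (by decide) (by decide) (by decide)
    s3 := h.av 4 0 5 (by decide) (by decide) (by decide) (by decide)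
    m1 := h.nm 0 5 6 4 (by decide) (by decide) (by decide) (by decide) (by decide) (by decide)
    m2 := h.nm 5 7 0 6 (by decide) (by decide) (by decide) (by decide) (by decide) (by decide)
    m3 := h.nm 5 7 6 4 (by decide) (by decide) (by decide) (by decide) (by decide) (by decide)
    m4 := h.nm 5 7 4 0 (by decide) (by decide) (by decide) (by decide) (by decide) (by decide)
    m5 := fun hm => h.nm 6 4 7 2 (by decide) (by decide) (by decide) (by decide) (by decide)
      (by decide) hm.comm
    m6 := fun hm => h.nm 4 0 7 2 (by decide) (by decide) (by decide) (by decide) (by decide)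
      (by decide) hm.comm
    m7 := fun hm => h.nm 6 4 7 3 (by decide) (by decide) (by decide) (by decide) (by decide)
      (by decide) hm.comm
    m8 := fun hm => h.nm 4 0 7 3 (by decide) (by decide) (by decide) (by decide) (by decide)
      (by decide) hm.comm
    f1 := nt (by decide) c8.swap (by decide) (by decide) (by decide)
    f2 := nt (by decide) d0.rot (by decide) (by decide) (by decide)
    f3 := nt (by decide) d6.rot (by decide) (by decide) (by decide)
    f4 := nt (by decide) e5.swap (by decide) (by decide) (by decide)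
    f5 := nt (by decide) w3.swap (by decide) (by decide) (by decide)
    f6 := nt (by decide) w4.rot (by decide) (by decide) (by decide)
    f7 := nt (by decide) w5.swap (by decide) (by decide) (by decide) }

end Pool.Agent.NPC.ER.GPP
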