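import Pool.Agent.H606R2.GPP.Exist
import Pool.Agent.H625R2.BallMem

/-!
# The reduction is computable in polynomial time
-/

namespace Pool.Agent.NPC.ER.GPP

open Pool.Agent.NPC Pool.Agent.NPC.ER.Pat

/-! ### The reduction -/

section

variable {α : Type} [TEnc α]

theorem poly_eleven {k : α → ℕ} (hk : Poly k) (t : ℕ) : Poly (fun a => 11 * k a + t) :=
  Poly.add (Poly.mul (Poly.const 11) hk) (Poly.const t)

theorem poly_gad {k : α → ℕ} (hk : Poly k) (L : List (ℕ × ℕ)) :
    Poly (fun a => L.map fun e => (11 * k a + e.1, 11 * k a + e.2)) := by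
  induction L with
  | nil => exact Poly.const []
  | cons e L ih => exact Poly.cons (Poly.pair (poly_eleven hk e.1) (poly_eleven hk e.2)) ih

theorem poly_gadV {k : α → ℕ} (hk : Poly k) (L : List ℕ) :
    Poly (fun a => L.map fun t => 11 * k a + t) := by
  induction L with
  | nil => exact Poly.const []
  | cons e L ih => exact Poly.cons (poly_eleven hk e) ih

theorem poly_ptE {M : α → List (List Bool)} {k i : α → ℕ} (hM : Poly M) (hk : Poly k)
    (hi : Poly i) : Poly (fun a => ptE (M a) (k a) (i a)) := by
  have h1 := poly_eleven hi 9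
  have h2 : Poly (fun a => 11 * k a) := Poly.mul (Poly.const 11) hk
  have h3 : Poly (fun a => ent (M a) (i a) (k a / 2)) :=
    poly_ent hM hi (Poly.div hk (Poly.const 2))
  exact Poly.cons (Poly.pair h2 h1) (Poly.cons (Poly.pair (poly_eleven hk 8) h1)
    (Poly.cons (Poly.pair (Poly.ite (Poly.decide_bool h3) (poly_eleven hk 4)
      (poly_eleven hk 5)) h1) (Poly.const [])))

theorem upoly_two_wid {M : α → List (List Bool)} (hM : Poly M) :
    UPoly (fun a => 2 * wid (M a)) := UPoly.mul (UPoly.const 2) (upoly_wid hM)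

theorem poly_frL (L : List (ℕ × ℕ)) (o : ℕ) : Poly (fun M : List (List Bool) =>
    (List.range (2 * wid M)).flatMap fun k =>
      (o, 11 * k + 1) :: L.map fun e => (11 * k + e.1, 11 * k + e.2)) := by
  have hw : Poly (fun M : List (List Bool) => List.range (2 * wid M)) :=
    (upoly_two_wid Poly.id).range
  have hk : Poly (fun p : List (List Bool) × ℕ => p.2) := Poly.snd Poly.id
  have h1 : Poly (fun p : List (List Bool) × ℕ =>
      L.map fun e => (11 * p.2 + e.1, 11 * p.2 + e.2)) := poly_gad hk L
  have h2 : Poly (fun p : List (List Bool) × ℕ => (o, 11 * p.2 + 1) ::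
      L.map fun e => (11 * p.2 + e.1, 11 * p.2 + e.2)) :=
    Poly.cons (Poly.pair (Poly.const o) (poly_eleven hk 1)) h1
  exact Poly.flatMap (F := fun _ (k : ℕ) =>
    (o, 11 * k + 1) :: L.map fun e => (11 * k + e.1, 11 * k + e.2)) hw h2

theorem poly_frE : Poly (fun M : List (List Bool) => frE (2 * wid M)) := by
  unfold frE
  exact poly_frL F0 10

theorem poly_noL (L : List (ℕ × ℕ)) : Poly (fun M : List (List Bool) =>
    (List.range (2 * wid M)).flatMap fun k =>
      (L.map fun e => (11 * k + e.1, 11 * k + e.2)) ++ (List.range M.length).flatMap (ptE M k)) := by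
  have hw : Poly (fun M : List (List Bool) => List.range (2 * wid M)) :=
    (upoly_two_wid Poly.id).range
  have hn : Poly (fun p : List (List Bool) × ℕ => List.range p.1.length) :=
    Poly.range_length (Poly.fst Poly.id)
  have hk : Poly (fun p : List (List Bool) × ℕ => p.2) := Poly.snd Poly.id
  have h1 : Poly (fun p : List (List Bool) × ℕ =>
      L.map fun e => (11 * p.2 + e.1, 11 * p.2 + e.2)) := poly_gad hk L
  have h0 : Poly (fun q : (List (List Bool) × ℕ) × ℕ => ptE q.1.1 q.1.2 q.2) :=
    poly_ptE (Poly.fst (Poly.fst Poly.id)) (Poly.snd (Poly.fst Poly.id)) (Poly.snd Poly.id)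
  have h2 : Poly (fun p : List (List Bool) × ℕ => (List.range p.1.length).flatMap (ptE p.1 p.2)) :=
    Poly.flatMap (F := fun (p : List (List Bool) × ℕ) (i : ℕ) => ptE p.1 p.2 i) hn h0
  exact Poly.flatMap (F := fun (M : List (List Bool)) (k : ℕ) =>
    (L.map fun e => (11 * k + e.1, 11 * k + e.2)) ++ (List.range M.length).flatMap (ptE M k)) hw
    (Poly.append h1 h2)

theorem poly_noE : Poly noE := poly_noL N0

theorem poly_vtL (L : List ℕ) (o : ℕ) : Poly (fun M : List (List Bool) =>
    o :: ((List.range M.length).map (fun i => 11 * i + 9) ++ (List.range (2 * wid M)).flatMap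
      fun k => L.map fun t => 11 * k + t)) := by
  have hw : Poly (fun M : List (List Bool) => List.range (2 * wid M)) :=
    (upoly_two_wid Poly.id).range
  have hn : Poly (fun M : List (List Bool) => List.range M.length) := Poly.range_length Poly.id
  have hk : Poly (fun p : List (List Bool) × ℕ => p.2) := Poly.snd Poly.id
  have h1 : Poly (fun p : List (List Bool) × ℕ => L.map fun t => 11 * p.2 + t) :=
    poly_gadV hk L
  have h2 : Poly (fun M : List (List Bool) => (List.range M.length).map fun i => 11 * i + 9) :=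
    Poly.map (F := fun _ (i : ℕ) => 11 * i + 9) hn (poly_eleven hk 9)
  exact Poly.cons (Poly.const o) (Poly.append h2 (Poly.flatMap (F := fun _ (k : ℕ) =>
    L.map fun t => 11 * k + t) hw h1))

theorem poly_vts : Poly vts := poly_vtL (List.range 9) 10

theorem poly_red : Poly red :=
  Poly.pair poly_vts (Poly.pair (Poly.append poly_frE poly_noE) poly_frE)

end

end Pool.Agent.NPC.ER.GPP
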