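import Pool.Agent.H606R2.GPP.Member
import Pool.Agent.H606R2.GPP.PolyR
import Pool.Agent.H625R2.BallFin

/-!
# Geometric partial planarity is complete for `∃ℝ`
-/

namespace Pool.Agent.NPC.ER.GPP

open Pool.Agent.NPC Pool.Agent.NPC.ER.Pat

/-- Geometric partial planarity is hard for `∃ℝ`. -/
theorem gpp_hard {patOf : List Con → Pat} (h : IsPatOf patOf) :
    ERHard (lang fun G : Inst => IsInst G ∧ PartiallyPlanar G) := by
  refine ERHard.of_sys (f := fun S => red (matOf patOf 0 S))
    (poly_red.comp (h.poly_matOf 0)) fun S => ?_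
  obtain ⟨m, hm⟩ := rect_matOf patOf 0 S
  constructor
  · intro hS
    exact ⟨isInst_red _, red_of_SRN hm (h.srn (k := 0) hS)⟩
  · rintro ⟨-, hS⟩
    exact h.sat (k := 0) (SR_of_red hm hS)

end Pool.Agent.NPC.ER.GPP
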