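import Pool.Agent.H606R2.GPP.SegF
import Pool.Agent.H670R2.ERMem
import Pool.Agent.ER.Dec

/-!
# Membership in `∃ℝ`, polynomial time
-/

namespace Pool.Agent.NPC.ER.GPP

open Pool.Agent.NPC
open Pool.Agent.NPC.H670R2 (ff tt conj holds_ff holds_tt holds_conj poly_conj poly_tvar poly_tadd
  poly_tmul poly_tneg poly_eq poly_lt poly_not poly_and poly_or poly_le not_etr_ff)

/-! ### The formula -/

/-- The point with coordinates `x (2 v), x (2 v + 1)`. -/
def vx (x : ℕ → ℝ) (v : ℕ) : ℝ × ℝ := (x (2 * v), x (2 * v + 1))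

/-- The difference of two variables. -/
def subT (n m : ℕ) : Tm := Tm.add (Tm.var n) (Tm.neg (Tm.var m))

/-- The orientation of three points. -/
def dT (p q r : ℕ) : Tm :=
  Tm.add (Tm.mul (subT (2 * q) (2 * p)) (subT (2 * r + 1) (2 * p + 1)))
    (Tm.neg (Tm.mul (subT (2 * q + 1) (2 * p + 1)) (subT (2 * r) (2 * p))))

theorem eval_dT (x : ℕ → ℝ) (p q r : ℕ) : (dT p q r).eval x = D (vx x p) (vx x q) (vx x r) := by
  simp only [dT, subT, Tm.eval, D, vx]
  ring

/-- Two points are distinct. -/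
def neF (u v : ℕ) : Fm :=
  Fm.not (Fm.and (Fm.eq (Tm.var (2 * u)) (Tm.var (2 * v)))
    (Fm.eq (Tm.var (2 * u + 1)) (Tm.var (2 * v + 1))))

theorem holds_neF (x : ℕ → ℝ) (u v : ℕ) : (neF u v).Holds x ↔ vx x u ≠ vx x v := by
  simp only [neF, Fm.Holds, Tm.eval, vx, ne_eq, Prod.mk.injEq]

/-- The point `w` is not on the segment `uv`. -/
def avF (u v w : ℕ) : Fm :=
  Fm.not (Fm.and (Fm.eq (dT u v w) Tm.zero)
    (Fm.le (Tm.add (Tm.mul (subT (2 * w) (2 * u)) (subT (2 * w) (2 * v)))
      (Tm.mul (subT (2 * w + 1) (2 * u + 1)) (subT (2 * w + 1) (2 * v + 1)))) Tm.zero))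

theorem holds_avF (x : ℕ → ℝ) (u v w : ℕ) :
    (avF u v w).Holds x ↔ vx x w ∉ segment ℝ (vx x u) (vx x v) := by
  rw [mem_seg_iff]
  simp only [avF, Fm.Holds, eval_dT, Tm.eval, subT, vx]
  simp only [← sub_eq_add_neg]

/-- The points `r`, `s` are strictly on different sides of the line `pq`. -/
def sdF (p q r s : ℕ) : Fm := Fm.lt (Tm.mul (dT p q r) (dT p q s)) Tm.zero

/-- The segments do not cross. -/
def crF (p q r s : ℕ) : Fm := Fm.not (Fm.and (sdF p q r s) (sdF r s p q))

theorem holds_crF (x : ℕ → ℝ) (p q r s : ℕ) : (crF p q r s).Holds x ↔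
    ¬ (D (vx x p) (vx x q) (vx x r) * D (vx x p) (vx x q) (vx x s) < 0 ∧
      D (vx x r) (vx x s) (vx x p) * D (vx x r) (vx x s) (vx x q) < 0) := by
  simp only [crF, sdF, Fm.Holds, eval_dT, Tm.eval]

/-- The list of conditions. -/
def conds (G : Inst) : List Fm :=
  (G.1.flatMap fun u => G.1.map fun v => if u = v then tt else neF u v) ++
  ((G.2.1.flatMap fun e => G.1.map fun w => if w = e.1 ∨ w = e.2 then tt else avF e.1 e.2 w) ++
  (G.2.2.flatMap fun e => G.2.1.map fun f =>
    if (e.1 = f.1 ∨ e.1 = f.2) ∨ (e.2 = f.1 ∨ e.2 = f.2) then tt else crF e.1 e.2 f.1 f.2))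

theorem conds_iff {G : Inst} (hG : IsInst G) (x : ℕ → ℝ) : (∀ φ ∈ conds G, φ.Holds x) ↔
    IsDrawing G.1 G.2.1 (vx x) ∧ ∀ e ∈ G.2.2, ∀ f ∈ G.2.1, ¬ Same e f → ¬ Cross (vx x) e f := by
  unfold conds
  constructor
  · intro h
    have hd : IsDrawing G.1 G.2.1 (vx x) := by
      constructor
      · intro u hu v hv huv
        by_contra hne
        have := h _ (List.mem_append.2 (Or.inl
          (List.mem_flatMap.2 ⟨u, hu, List.mem_map.2 ⟨v, hv, rfl⟩⟩)))
        rw [if_neg hne, holds_neF] at this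
        exact this huv
      · intro e he w hw h1 h2
        have := h _ (List.mem_append.2 (Or.inr (List.mem_append.2 (Or.inl
          (List.mem_flatMap.2 ⟨e, he, List.mem_map.2 ⟨w, hw, rfl⟩⟩)))))
        rw [if_neg (by rintro (h3 | h3); exacts [h1 h3, h2 h3]), holds_avF] at this
        exact this
    refine ⟨hd, (free_iff hG hd).2 fun e he f hf h1 => ?_⟩
    have := h _ (List.mem_append.2 (Or.inr (List.mem_append.2 (Or.inr
      (List.mem_flatMap.2 ⟨e, he, List.mem_map.2 ⟨f, hf, rfl⟩⟩)))))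
    obtain ⟨⟨a, b⟩, c, d⟩ := h1
    rw [if_neg (by rintro ((h3 | h3) | h3 | h3); exacts [a h3, b h3, c h3, d h3]),
      holds_crF] at this
    exact this
  · rintro ⟨hd, h2⟩ φ hφ
    rw [free_iff hG hd] at h2
    rw [List.mem_append, List.mem_append, List.mem_flatMap, List.mem_flatMap,
      List.mem_flatMap] at hφ
    rcases hφ with ⟨u, hu, hφ⟩ | ⟨e, he, hφ⟩ | ⟨e, he, hφ⟩
    · obtain ⟨v, hv, rfl⟩ := List.mem_map.1 hφ
      split_ifs with h
      · exact holds_tt x
      · rw [holds_neF]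
        exact fun h3 => h (hd.inj u hu v hv h3)
    · obtain ⟨w, hw, rfl⟩ := List.mem_map.1 hφ
      split_ifs with h
      · exact holds_tt x
      · push Not at h
        rw [holds_avF]
        exact hd.avoid e he w hw h.1 h.2
    · obtain ⟨f, hf, rfl⟩ := List.mem_map.1 hφ
      split_ifs with h
      · exact holds_tt x
      · push Not at h
        rw [holds_crF]
        exact h2 e he f hf ⟨⟨h.1.1, h.1.2⟩, h.2.1, h.2.2⟩

/-- The test for instances. -/
def instB (G : Inst) : Bool :=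
  (G.2.1.all fun e => (decide (e.1 ∈ G.1) && decide (e.2 ∈ G.1)) && !decide (e.1 = e.2)) &&
    G.2.2.all fun e => decide (e ∈ G.2.1)

theorem instB_iff (G : Inst) : instB G = true ↔ IsInst G := by
  unfold instB IsInst
  simp only [List.all_eq_true, decide_eq_true_eq, Bool.and_eq_true, Bool.not_eq_true',
    decide_eq_false_iff_not, and_assoc, ne_eq]

/-- The existential sentence. -/
def form (G : Inst) : Fm := if instB G = true then conj (conds G) else ff

theorem form_correct (G : Inst) : (IsInst G ∧ PartiallyPlanar G) ↔ ETR (form G) := by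
  unfold form
  rw [← instB_iff]
  split_ifs with h
  · rw [instB_iff] at h
    unfold ETR PartiallyPlanar
    simp only [holds_conj, conds_iff h]
    constructor
    · rintro ⟨-, p, hp⟩
      refine ⟨fun n => if n % 2 = 0 then (p (n / 2)).1 else (p (n / 2)).2, ?_⟩
      have hv : vx (fun n => if n % 2 = 0 then (p (n / 2)).1 else (p (n / 2)).2) = p := by
        funext v
        unfold vx
        have e1 : 2 * v % 2 = 0 := by omega
        have e2 : (2 * v + 1) % 2 = 1 := by omega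
        have e3 : 2 * v / 2 = v := by omega
        have e4 : (2 * v + 1) / 2 = v := by omega
        simp only [e1, e2, e3, e4]
        rfl
      rw [hv]
      exact hp
    · rintro ⟨x, hx⟩
      exact ⟨(instB_iff G).2 h, vx x, hx⟩
  · constructor
    · rintro ⟨h1, -⟩
      exact absurd h1 h
    · intro h1
      exact absurd h1 not_etr_ff

/-! ### Polynomial time -/

section

variable {α : Type} [TEnc α]

theorem poly_two {n : α → ℕ} (hn : Poly n) : Poly (fun a => 2 * n a) :=
  Poly.mul (Poly.const 2) hn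

theorem poly_subT {n m : α → ℕ} (hn : Poly n) (hm : Poly m) : Poly (fun a => subT (n a) (m a)) :=
  poly_tadd (poly_tvar hn) (poly_tneg (poly_tvar hm))

theorem poly_dT {p q r : α → ℕ} (hp : Poly p) (hq : Poly q) (hr : Poly r) :
    Poly (fun a => dT (p a) (q a) (r a)) :=
  poly_tadd (poly_tmul (poly_subT (poly_two hq) (poly_two hp))
    (poly_subT (Poly.succ (poly_two hr)) (Poly.succ (poly_two hp))))
    (poly_tneg (poly_tmul (poly_subT (Poly.succ (poly_two hq)) (Poly.succ (poly_two hp)))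
      (poly_subT (poly_two hr) (poly_two hp))))

theorem poly_neF {u v : α → ℕ} (hu : Poly u) (hv : Poly v) : Poly (fun a => neF (u a) (v a)) :=
  poly_not (poly_and (poly_eq (poly_tvar (poly_two hu)) (poly_tvar (poly_two hv)))
    (poly_eq (poly_tvar (Poly.succ (poly_two hu))) (poly_tvar (Poly.succ (poly_two hv)))))

theorem poly_avF {u v w : α → ℕ} (hu : Poly u) (hv : Poly v) (hw : Poly w) :
    Poly (fun a => avF (u a) (v a) (w a)) :=
  poly_not (poly_and (poly_eq (poly_dT hu hv hw) (Poly.const _))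
    (poly_le (poly_tadd (poly_tmul (poly_subT (poly_two hw) (poly_two hu))
      (poly_subT (poly_two hw) (poly_two hv)))
      (poly_tmul (poly_subT (Poly.succ (poly_two hw)) (Poly.succ (poly_two hu)))
        (poly_subT (Poly.succ (poly_two hw)) (Poly.succ (poly_two hv))))) (Poly.const _)))

theorem poly_sdF {p q r s : α → ℕ} (hp : Poly p) (hq : Poly q) (hr : Poly r) (hs : Poly s) :
    Poly (fun a => sdF (p a) (q a) (r a) (s a)) :=
  poly_lt (poly_tmul (poly_dT hp hq hr) (poly_dT hp hq hs)) (Poly.const _)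

theorem poly_crF {p q r s : α → ℕ} (hp : Poly p) (hq : Poly q) (hr : Poly r) (hs : Poly s) :
    Poly (fun a => crF (p a) (q a) (r a) (s a)) :=
  poly_not (poly_and (poly_sdF hp hq hr hs) (poly_sdF hr hs hp hq))

theorem poly_conds : Poly conds := by
  have hV : Poly (fun G : Inst => G.1) := Poly.fst Poly.id
  have hE : Poly (fun G : Inst => G.2.1) := Poly.fst (Poly.snd Poly.id)
  have hF : Poly (fun G : Inst => G.2.2) := Poly.snd (Poly.snd Poly.id)
  refine Poly.append ?_ (Poly.append ?_ ?_)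
  · refine Poly.flatMap (F := fun (G : Inst) (u : ℕ) => G.1.map fun v =>
      if u = v then tt else neF u v) hV ?_
    refine Poly.map (F := fun (p : Inst × ℕ) (v : ℕ) => if p.2 = v then tt else neF p.2 v)
      (hV.comp (Poly.fst Poly.id)) ?_
    exact Poly.ite (Poly.decide_eq (Poly.snd (Poly.fst Poly.id)) (Poly.snd Poly.id))
      (Poly.const _) (poly_neF (Poly.snd (Poly.fst Poly.id)) (Poly.snd Poly.id))
  · refine Poly.flatMap (F := fun (G : Inst) (e : ℕ × ℕ) => G.1.map fun w =>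
      if w = e.1 ∨ w = e.2 then tt else avF e.1 e.2 w) hE ?_
    refine Poly.map (F := fun (p : Inst × ℕ × ℕ) (w : ℕ) => if w = p.2.1 ∨ w = p.2.2 then tt
      else avF p.2.1 p.2.2 w) (hV.comp (Poly.fst Poly.id)) ?_
    have e1 : Poly (fun q : (Inst × ℕ × ℕ) × ℕ => q.1.2.1) :=
      Poly.fst (Poly.snd (Poly.fst Poly.id))
    have e2 : Poly (fun q : (Inst × ℕ × ℕ) × ℕ => q.1.2.2) :=
      Poly.snd (Poly.snd (Poly.fst Poly.id))
    have w : Poly (fun q : (Inst × ℕ × ℕ) × ℕ => q.2) := Poly.snd Poly.id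
    exact Poly.ite (Poly.decide_or (Poly.decide_eq w e1) (Poly.decide_eq w e2))
      (Poly.const _) (poly_avF e1 e2 w)
  · refine Poly.flatMap (F := fun (G : Inst) (e : ℕ × ℕ) => G.2.1.map fun f =>
      if (e.1 = f.1 ∨ e.1 = f.2) ∨ (e.2 = f.1 ∨ e.2 = f.2) then tt else crF e.1 e.2 f.1 f.2) hF ?_
    refine Poly.map (F := fun (p : Inst × ℕ × ℕ) (f : ℕ × ℕ) =>
      if (p.2.1 = f.1 ∨ p.2.1 = f.2) ∨ (p.2.2 = f.1 ∨ p.2.2 = f.2) then tt
      else crF p.2.1 p.2.2 f.1 f.2) (hE.comp (Poly.fst Poly.id)) ?_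
    have e1 : Poly (fun q : (Inst × ℕ × ℕ) × ℕ × ℕ => q.1.2.1) :=
      Poly.fst (Poly.snd (Poly.fst Poly.id))
    have e2 : Poly (fun q : (Inst × ℕ × ℕ) × ℕ × ℕ => q.1.2.2) :=
      Poly.snd (Poly.snd (Poly.fst Poly.id))
    have f1 : Poly (fun q : (Inst × ℕ × ℕ) × ℕ × ℕ => q.2.1) := Poly.fst (Poly.snd Poly.id)
    have f2 : Poly (fun q : (Inst × ℕ × ℕ) × ℕ × ℕ => q.2.2) := Poly.snd (Poly.snd Poly.id)
    exact Poly.ite (Poly.decide_or (Poly.decide_or (Poly.decide_eq e1 f1) (Poly.decide_eq e1 f2))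
      (Poly.decide_or (Poly.decide_eq e2 f1) (Poly.decide_eq e2 f2)))
      (Poly.const _) (poly_crF e1 e2 f1 f2)

theorem poly_instB : Poly instB := by
  have hE : Poly (fun G : Inst => G.2.1) := Poly.fst (Poly.snd Poly.id)
  have hF : Poly (fun G : Inst => G.2.2) := Poly.snd (Poly.snd Poly.id)
  have h1 : Poly (fun p : Inst × (ℕ × ℕ) => p.1.1) := Poly.fst (Poly.fst Poly.id)
  have h2 : Poly (fun p : Inst × (ℕ × ℕ) => p.1.2.1) :=
    Poly.fst (Poly.snd (Poly.fst Poly.id))
  have e1 : Poly (fun p : Inst × (ℕ × ℕ) => p.2.1) := Poly.fst (Poly.snd Poly.id)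
  have e2 : Poly (fun p : Inst × (ℕ × ℕ) => p.2.2) := Poly.snd (Poly.snd Poly.id)
  exact Poly.and (Poly.all (p := fun (G : Inst) (e : ℕ × ℕ) =>
      (decide (e.1 ∈ G.1) && decide (e.2 ∈ G.1)) && !decide (e.1 = e.2)) hE
      (Poly.and (Poly.and (Poly.decide_mem e1 h1) (Poly.decide_mem e2 h1))
        (Poly.not (Poly.decide_eq e1 e2))))
    (Poly.all (p := fun (G : Inst) (e : ℕ × ℕ) => decide (e ∈ G.2.1)) hF
      ((Poly.decide_mem (Poly.snd Poly.id) h2).congr fun _ => decide_eq_decide.2 Iff.rfl))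

theorem poly_form : Poly form := by
  unfold form
  exact Poly.ite (Poly.decide_bool poly_instB) (poly_conj poly_conds) (Poly.const _)

end

/-- Geometric partial planarity belongs to `∃ℝ`. -/
theorem gpp_mem : InER (lang fun G : Inst => IsInst G ∧ PartiallyPlanar G) :=
  InER.of_poly poly_form form_correct

end Pool.Agent.NPC.ER.GPP
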