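import Pool.Agent.H606R2.GPP.Side

/-!
# The drawing
-/

namespace Pool.Agent.NPC.ER.GPP

open Pool.Agent.NPC Pool.Agent.NPC.ER.Pat

/-- The data of the drawing. -/
structure Dat (M : List (List Bool)) (X Y ζ τ : ℕ → ℝ) (ω l S : ℝ) : Prop where
  hY : ∀ i < M.length, 1 ≤ Y i
  hb : ∀ i < M.length, ∀ k < 2 * wid M,
    sgn (ent M i (k / 2)) * (X i - ζ k - τ k * Y i) < Y i
  hω : 0 < ω
  hω4 : ω ≤ 1 / 4
  hs : ∀ i < M.length, ∀ k < 2 * wid M,
    3 * ω * Y i < sgn (ent M i (k / 2)) * (X i - ζ k - τ k * Y i)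
  hl : 0 < l
  hl10 : l ≤ 1 / 10
  hS1 : ∀ k < 2 * wid M, 4 + 4 * |τ k| ≤ S
  hS2 : ∀ i < M.length, ∀ k < 2 * wid M, |X i - ζ k| ≤ S
  hp : ∀ i < M.length, ∀ j < M.length, i ≠ j → (X i, Y i) ≠ (X j, Y j)
  hl1 : ∀ k < 2 * wid M, ∀ k' < 2 * wid M, k ≠ k' → l * (18 * S) < |ζ k - ζ k'|
  hl2 : ∀ i < M.length, ∀ j < M.length, i ≠ j → ∀ k < 2 * wid M,
    l * (4 * |X j - X i| + S * |Y j - Y i|) < |D (X i, Y i) (X j, Y j) (ζ k, 0)|

/-- The drawing. -/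
noncomputable def pos (X Y ζ τ : ℕ → ℝ) (ω l : ℝ) (v : ℕ) : ℝ × ℝ :=
  if v = 10 then (0, -1 - 4 * l) else if v % 11 = 9 then (X (v / 11), Y (v / 11)) else
    Ps (ζ (v / 11)) (τ (v / 11)) ω l (T (4 / ω) (v % 11))

section

variable {M : List (List Bool)} {X Y ζ τ : ℕ → ℝ} {ω l S : ℝ}

theorem pos_o : pos X Y ζ τ ω l 10 = (0, -1 - 4 * l) := by
  unfold pos
  rw [if_pos rfl]

theorem pos_p (i : ℕ) : pos X Y ζ τ ω l (11 * i + 9) = (X i, Y i) := by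
  unfold pos
  rw [if_neg (by omega), if_pos (by omega), show (11 * i + 9) / 11 = i by omega]

theorem pos_g (k : ℕ) {t : ℕ} (ht : t < 9) : pos X Y ζ τ ω l (11 * k + t) =
    Ps (ζ k) (τ k) ω l (T (4 / ω) t) := by
  unfold pos
  rw [if_neg (by omega), if_neg (by omega), show (11 * k + t) / 11 = k by omega,
    show (11 * k + t) % 11 = t by omega]

/-- The different kinds of edges. -/
theorem edge_cases {e : ℕ × ℕ} (h : e ∈ (red M).2.1) :
    (∃ k < 2 * wid M, e = (10, 11 * k + 1)) ∨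
    (∃ k < 2 * wid M, ∃ s ∈ F0 ++ N0, e = (11 * k + s.1, 11 * k + s.2)) ∨
    ∃ k < 2 * wid M, ∃ i < M.length, ∃ s, (s = 0 ∨ s = 8 ∨ s = if ent M i (k / 2) = true
      then 4 else 5) ∧ e = (11 * k + s, 11 * i + 9) := by
  change e ∈ frE (2 * wid M) ++ noE M at h
  rw [List.mem_append, mem_frE, mem_noE] at h
  rcases h with ⟨k, hk, h | ⟨s, hs, h⟩⟩ | ⟨k, hk, ⟨s, hs, h⟩ | ⟨i, hi, h⟩⟩
  · exact Or.inl ⟨k, hk, h⟩
  · exact Or.inr (Or.inl ⟨k, hk, s, List.mem_append.2 (Or.inl hs), h⟩)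
  · exact Or.inr (Or.inl ⟨k, hk, s, List.mem_append.2 (Or.inr hs), h⟩)
  · simp only [ptE, List.mem_cons, List.not_mem_nil, or_false] at h
    rcases h with h | h | h
    · exact Or.inr (Or.inr ⟨k, hk, i, hi, 0, Or.inl rfl, h⟩)
    · exact Or.inr (Or.inr ⟨k, hk, i, hi, 8, Or.inr (Or.inl rfl), h⟩)
    · refine Or.inr (Or.inr ⟨k, hk, i, hi, _, Or.inr (Or.inr rfl), ?_⟩)
      rw [h]
      split_ifs <;> rfl

theorem sN_lt {s : ℕ × ℕ} (h : s ∈ F0 ++ N0) : s.1 < 9 ∧ s.2 < 9 := by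
  rcases List.mem_append.1 h with h | h
  · exact F0_lt s h
  · exact N0_lt s h

theorem sp_lt {b : Bool} {s : ℕ} (h : s = 0 ∨ s = 8 ∨ s = if b = true then 4 else 5) : s < 9 := by
  cases b <;> simp at h <;> omega

theorem sp_ty {b : Bool} {s : ℕ} (h : s = 0 ∨ s = 8 ∨ s = if b = true then 4 else 5) :
    0 ≤ ty s ∧ ty s ≤ 2 := by
  cases b <;> simp at h <;> rcases h with rfl | rfl | rfl <;> decide

variable (H : Dat M X Y ζ τ ω l S)

include H

theorem Dat.W : (12 : ℝ) ≤ 4 / ω := by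
  rw [le_div_iff₀ H.hω]
  linarith [H.hω4]

theorem Dat.S0 {k : ℕ} (hk : k < 2 * wid M) : 0 ≤ S := by
  have := H.hS1 k hk
  have := abs_nonneg (τ k)
  linarith

/-- The points of the gadget are in a small box. -/
theorem Dat.box {k t : ℕ} (hk : k < 2 * wid M) (ht : t < 9) :
    |(pos X Y ζ τ ω l (11 * k + t)).1 - ζ k| ≤ l * S ∧
      -(4 * l) ≤ (pos X Y ζ τ ω l (11 * k + t)).2 ∧ (pos X Y ζ τ ω l (11 * k + t)).2 ≤ 4 * l := by
  obtain ⟨h1, h2⟩ := T_bound H.W ht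
  rw [pos_g k ht]
  unfold Ps
  simp only
  have hl := H.hl
  have hω := H.hω
  rw [abs_le] at h2
  refine ⟨?_, by nlinarith, by nlinarith⟩
  have e : ζ k + l * ω * (T (4 / ω) t).1 + τ k * l * (T (4 / ω) t).2 - ζ k =
      l * (ω * (T (4 / ω) t).1 + τ k * (T (4 / ω) t).2) := by ring
  rw [e, abs_mul, abs_of_pos hl]
  apply mul_le_mul_of_nonneg_left _ hl.le
  refine (abs_add_le _ _).trans ?_
  rw [abs_mul, abs_mul, abs_of_pos hω]
  have h3 : ω * |(T (4 / ω) t).1| ≤ 4 := by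
    have := mul_le_mul_of_nonneg_left h1 hω.le
    rwa [mul_div_cancel₀ _ hω.ne'] at this
  have h4 : |τ k| * |(T (4 / ω) t).2| ≤ |τ k| * 4 :=
    mul_le_mul_of_nonneg_left (abs_le.2 h2) (abs_nonneg _)
  linarith [H.hS1 k hk]

theorem Dat.one {k t : ℕ} (ht : t < 9)
    (h : (pos X Y ζ τ ω l (11 * k + t)).2 ≤ -(4 * l)) : t = 1 := by
  rw [pos_g k ht] at h
  unfold Ps at h
  simp only at h
  have hl := H.hl
  have h1 : (T (4 / ω) t).2 ≤ -4 := by
    by_contra h2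
    push Not at h2
    nlinarith
  have h2 : ty t ≤ -4 := by
    have h3 : ((ty t : ℤ) : ℝ) ≤ -4 := h1
    exact_mod_cast h3
  have : ∀ t < 9, ty t ≤ -4 → t = 1 := by decide
  exact this t ht h2

theorem Dat.pY {i : ℕ} (hi : i < M.length) : 1 ≤ (pos X Y ζ τ ω l (11 * i + 9)).2 := by
  rw [pos_p]; exact H.hY i hi

theorem Dat.oY : (pos X Y ζ τ ω l 10).2 < -(4 * l) := by
  rw [pos_o]; simp only; linarith

/-- The drawing is injective. -/
theorem Dat.inj {u v : ℕ} (hu : u ∈ vts M) (hv : v ∈ vts M)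
    (h : pos X Y ζ τ ω l u = pos X Y ζ τ ω l v) : u = v := by
  have hl := H.hl
  have hl10 := H.hl10
  have h2 := congrArg Prod.snd h
  rw [mem_vts] at hu hv
  rcases hu with rfl | ⟨i, hi, rfl⟩ | ⟨k, hk, t, ht, rfl⟩ <;>
    rcases hv with rfl | ⟨i', hi', rfl⟩ | ⟨k', hk', t', ht', rfl⟩
  · rfl
  · exfalso; have := H.oY; have := H.pY hi'; linarith
  · exfalso; have := H.oY; have := (H.box hk' ht').2.1; linarith
  · exfalso; have := H.oY; have := H.pY hi; linarith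
  · by_contra hne
    have hij : i ≠ i' := fun h => hne (by rw [h])
    rw [pos_p, pos_p] at h
    exact H.hp i hi i' hi' hij h
  · exfalso; have := H.pY hi; have := (H.box hk' ht').2.2; linarith
  · exfalso; have := H.oY; have := (H.box hk ht).2.1; linarith
  · exfalso; have := H.pY hi'; have := (H.box hk ht).2.2; linarith
  · by_cases hkk : k = k'
    · subst hkk
      rw [pos_g k ht, pos_g k ht'] at h
      rw [tmpl_inj H.W ht ht' (Ps_inj H.hω hl h)]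
    · exfalso
      have b1 := (H.box hk ht).1
      have b2 := (H.box hk' ht').1
      rw [← h] at b2
      have h3 := H.hl1 k hk k' hk' hkk
      have h4 : |ζ k - ζ k'| ≤ |(pos X Y ζ τ ω l (11 * k + t)).1 - ζ k| +
          |(pos X Y ζ τ ω l (11 * k + t)).1 - ζ k'| := by
        rw [abs_sub_comm _ (ζ k)]
        exact abs_sub_le _ _ _
      have := H.S0 hk
      nlinarith [mul_nonneg hl.le this]

/-! ### Segments -/

theorem Dat.seg_o {k : ℕ} (hk : k < 2 * wid M) {x : ℝ × ℝ}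
    (hx : x ∈ segment ℝ (pos X Y ζ τ ω l 10) (pos X Y ζ τ ω l (11 * k + 1)))
    (hy : -(4 * l) ≤ x.2) : x = pos X Y ζ τ ω l (11 * k + 1) := by
  have h1 := H.oY
  have h2 : (pos X Y ζ τ ω l (11 * k + 1)).2 = -(4 * l) := by
    rw [pos_g k (by norm_num)]
    simp only [Ps, T, ty]
    push_cast
    ring
  obtain ⟨t, t0, t1, e1, e2⟩ := mem_seg.1 hx
  have h3 : t = 1 := by
    rw [h2] at e2
    by_contra h4
    have h5 : t < 1 := lt_of_le_of_ne t1 h4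
    nlinarith
  rw [h3] at e1 e2
  exact Prod.ext (by linarith) (by linarith)

theorem Dat.seg_g {k : ℕ} (hk : k < 2 * wid M) {s t : ℕ} (hs : s < 9) (ht : t < 9) {x : ℝ × ℝ}
    (hx : x ∈ segment ℝ (pos X Y ζ τ ω l (11 * k + s)) (pos X Y ζ τ ω l (11 * k + t))) :
    |x.1 - ζ k| ≤ l * S ∧ -(4 * l) ≤ x.2 ∧ x.2 ≤ 4 * l := by
  obtain ⟨a1, a2, a3⟩ := H.box hk hs
  obtain ⟨b1, b2, b3⟩ := H.box hk ht
  exact ⟨box_seg a1 b1 hx, ge_seg a2 b2 hx, le_seg a3 b3 hx⟩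

theorem Dat.low {k : ℕ} (hk : k < 2 * wid M) {b : Bool} {s : ℕ}
    (hs : s = 0 ∨ s = 8 ∨ s = if b = true then 4 else 5) :
    0 ≤ (pos X Y ζ τ ω l (11 * k + s)).2 ∧ (pos X Y ζ τ ω l (11 * k + s)).2 ≤ 2 * l := by
  obtain ⟨h1, h2⟩ := sp_ty hs
  rw [pos_g k (sp_lt hs)]
  have hl := H.hl
  have h3 : (0 : ℝ) ≤ (T (4 / ω) s).2 := by
    change (0 : ℝ) ≤ ((ty s : ℤ) : ℝ)
    exact_mod_cast h1
  have h4 : (T (4 / ω) s).2 ≤ (2 : ℝ) := by
    change ((ty s : ℤ) : ℝ) ≤ 2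
    exact_mod_cast h2
  unfold Ps
  simp only
  constructor <;> nlinarith

/-- The low part of an edge to a point is close to the gadget. -/
theorem Dat.far {k i : ℕ} (hk : k < 2 * wid M) (hi : i < M.length) {b : Bool} {s : ℕ}
    (hs : s = 0 ∨ s = 8 ∨ s = if b = true then 4 else 5) {x : ℝ × ℝ}
    (hx : x ∈ segment ℝ (pos X Y ζ τ ω l (11 * k + s)) (pos X Y ζ τ ω l (11 * i + 9)))
    (hy : x.2 ≤ 4 * l) : |x.1 - ζ k| ≤ l * (17 * S) := by
  have hl := H.hl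
  have hl10 := H.hl10
  obtain ⟨h1, h2⟩ := H.low hk hs
  obtain ⟨b1, -, -⟩ := H.box hk (sp_lt hs)
  have hS := H.S0 hk
  have hX := H.hS2 i hi k hk
  have hY := H.hY i hi
  rw [pos_p] at hx
  obtain ⟨t, t0, t1, e1, e2⟩ := mem_seg.1 hx
  set g := pos X Y ζ τ ω l (11 * k + s) with hg
  simp only at e1 e2
  have h3 : t ≤ 8 * l := by
    have h4 : t * (1 / 2) ≤ t * (Y i - g.2) := mul_le_mul_of_nonneg_left (by linarith) t0
    linarith
  have e : x.1 - ζ k = (1 - t) * (g.1 - ζ k) + t * (X i - ζ k) := by rw [e1]; ring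
  rw [e]
  refine (abs_add_le _ _).trans ?_
  rw [abs_mul, abs_mul, abs_of_nonneg t0, abs_of_nonneg (sub_nonneg.2 t1)]
  have h5 : (1 - t) * |g.1 - ζ k| ≤ 1 * (l * S) :=
    mul_le_mul (by linarith) b1 (abs_nonneg _) (by norm_num)
  have h6 : t * |X i - ζ k| ≤ (8 * l) * S := mul_le_mul h3 hX (abs_nonneg _) (by linarith)
  nlinarith [mul_nonneg hl.le hS]

/-- Objects of different gadgets are far away. -/
theorem Dat.apart {k k' : ℕ} (hk : k < 2 * wid M) (hk' : k' < 2 * wid M) {a : ℝ}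
    (h1 : |a - ζ k| ≤ l * S) (h2 : |a - ζ k'| ≤ l * (17 * S)) : k = k' := by
  by_contra hkk
  have h3 := H.hl1 k hk k' hk' hkk
  have h4 : |ζ k - ζ k'| ≤ |a - ζ k| + |a - ζ k'| := by
    rw [abs_sub_comm _ (ζ k)]
    exact abs_sub_le _ _ _
  linarith

theorem Dat.apart' {k k' : ℕ} (hk : k < 2 * wid M) (hk' : k' < 2 * wid M) {a : ℝ}
    (h1 : |a - ζ k| ≤ l * S) (h2 : |a - ζ k'| ≤ l * S) : k = k' := by
  refine H.apart hk hk' h1 (h2.trans ?_)
  have := mul_nonneg H.hl.le (H.S0 hk)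
  linarith

/-- The points in the coordinates of a gadget. -/
theorem Dat.point (k i : ℕ) : pos X Y ζ τ ω l (11 * i + 9) =
    Ps (ζ k) (τ k) ω l ((X i - ζ k - τ k * Y i) / (l * ω), Y i / l) := by
  have hl := H.hl.ne'
  have hω := H.hω.ne'
  rw [pos_p]
  unfold Ps
  refine Prod.ext ?_ ?_
  · simp only
    field_simp
    ring
  · simp only
    field_simp

/-- The edges between a point and a gadget, and the crossing-free edges of the gadget. -/
theorem Dat.own {k i : ℕ} (hk : k < 2 * wid M) (hi : i < M.length) {s : ℕ}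
    (hs : s = 0 ∨ s = 8 ∨ s = if ent M i (k / 2) = true then 4 else 5) {e : ℕ × ℕ}
    (he : e ∈ F0 ∨ (e.1 = e.2 ∧ e.1 < 9)) {x : ℝ × ℝ}
    (hx1 : x ∈ segment ℝ (pos X Y ζ τ ω l (11 * k + s)) (pos X Y ζ τ ω l (11 * i + 9)))
    (hx2 : x ∈ segment ℝ (pos X Y ζ τ ω l (11 * k + e.1)) (pos X Y ζ τ ω l (11 * k + e.2))) :
    x = pos X Y ζ τ ω l (11 * k + s) := by
  have hl := H.hl
  have hω := H.hω
  have he9 : e.1 < 9 ∧ e.2 < 9 := by
    rcases he with he | ⟨he1, he2⟩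
    · exact F0_lt e he
    · exact ⟨he2, he1 ▸ he2⟩
  rw [H.point k i, pos_g k (sp_lt hs)] at hx1
  rw [pos_g k he9.1, pos_g k he9.2] at hx2
  obtain ⟨y, hy1, rfl⟩ := Ps_seg hx1
  have hy2 := Ps_seg_iff hω hl hx2
  have hY := H.hY i hi
  have h1 : 10 ≤ ((X i - ζ k - τ k * Y i) / (l * ω), Y i / l).2 := by
    change 10 ≤ Y i / l
    rw [le_div_iff₀ hl]
    linarith [H.hl10]
  have h2 : 3 * ((X i - ζ k - τ k * Y i) / (l * ω), Y i / l).2 < sgn (ent M i (k / 2)) *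
      ((X i - ζ k - τ k * Y i) / (l * ω), Y i / l).1 := by
    change 3 * (Y i / l) < sgn (ent M i (k / 2)) * ((X i - ζ k - τ k * Y i) / (l * ω))
    rw [← mul_div_assoc, ← mul_div_assoc, div_lt_div_iff₀ hl (mul_pos hl hω)]
    have := mul_lt_mul_of_pos_right (H.hs i hi k hk) hl
    nlinarith
  have h3 : 4 * (sgn (ent M i (k / 2)) * ((X i - ζ k - τ k * Y i) / (l * ω), Y i / l).1) <
      4 / ω * ((X i - ζ k - τ k * Y i) / (l * ω), Y i / l).2 := by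
    change 4 * (sgn (ent M i (k / 2)) * ((X i - ζ k - τ k * Y i) / (l * ω))) < 4 / ω * (Y i / l)
    rw [← mul_div_assoc, ← mul_div_assoc, div_mul_div_comm, mul_comm ω l]
    apply div_lt_div_of_pos_right _ (mul_pos hl hω)
    linarith [H.hb i hi k hk]
  rw [pt_side H.W (ent M i (k / 2)) h1 h2 h3 hs he hy1 hy2, pos_g k (sp_lt hs)]

end

end Pool.Agent.NPC.ER.GPP
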