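import Pool.Agent.H606R2.GPP.Tmpl

/-!
# Quantifier-free descriptions of segments and crossings
-/

namespace Pool.Agent.NPC.ER.GPP

theorem mem_seg_iff {u v w : ℝ × ℝ} : w ∈ segment ℝ u v ↔ D u v w = 0 ∧
    (w.1 - u.1) * (w.1 - v.1) + (w.2 - u.2) * (w.2 - v.2) ≤ 0 := by
  constructor
  · intro h
    refine ⟨D_self_of_mem h, ?_⟩
    obtain ⟨t, h0, h1, e1, e2⟩ := mem_seg.1 h
    have e : (w.1 - u.1) * (w.1 - v.1) + (w.2 - u.2) * (w.2 - v.2) =
        -(t * (1 - t) * ((v.1 - u.1) ^ 2 + (v.2 - u.2) ^ 2)) := by rw [e1, e2]; ring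
    rw [e]
    have := mul_nonneg (mul_nonneg h0 (sub_nonneg.2 h1))
      (add_nonneg (sq_nonneg (v.1 - u.1)) (sq_nonneg (v.2 - u.2)))
    linarith
  · rintro ⟨h1, h2⟩
    have hn : 0 ≤ (v.1 - u.1) ^ 2 + (v.2 - u.2) ^ 2 := by positivity
    rcases hn.eq_or_lt with hn | hn
    · have h3 : v.1 - u.1 = 0 := by nlinarith [sq_nonneg (v.1 - u.1), sq_nonneg (v.2 - u.2)]
      have h4 : v.2 - u.2 = 0 := by nlinarith [sq_nonneg (v.1 - u.1), sq_nonneg (v.2 - u.2)]
      have h5 : v.1 = u.1 := by linarith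
      have h6 : v.2 = u.2 := by linarith
      rw [h5, h6] at h2
      have h7 : w.1 - u.1 = 0 := by nlinarith [sq_nonneg (w.1 - u.1), sq_nonneg (w.2 - u.2)]
      have h8 : w.2 - u.2 = 0 := by nlinarith [sq_nonneg (w.1 - u.1), sq_nonneg (w.2 - u.2)]
      have : w = u := Prod.ext (by linarith) (by linarith)
      rw [this]
      exact left_mem_segment ℝ _ _
    · set n := (v.1 - u.1) ^ 2 + (v.2 - u.2) ^ 2 with hn'
      set t := ((w.1 - u.1) * (v.1 - u.1) + (w.2 - u.2) * (v.2 - u.2)) / n with ht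
      have ht' : t * n = (w.1 - u.1) * (v.1 - u.1) + (w.2 - u.2) * (v.2 - u.2) :=
        div_mul_cancel₀ _ hn.ne'
      unfold D at h1
      have k1 : w.1 = u.1 + t * (v.1 - u.1) := by
        have : n * w.1 = n * (u.1 + t * (v.1 - u.1)) := by
          have e : n * (u.1 + t * (v.1 - u.1)) = n * u.1 + (t * n) * (v.1 - u.1) := by ring
          rw [e, ht', hn']
          linear_combination (-(v.2 - u.2)) * h1
        exact mul_left_cancel₀ hn.ne' this
      have k2 : w.2 = u.2 + t * (v.2 - u.2) := by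
        have : n * w.2 = n * (u.2 + t * (v.2 - u.2)) := by
          have e : n * (u.2 + t * (v.2 - u.2)) = n * u.2 + (t * n) * (v.2 - u.2) := by ring
          rw [e, ht', hn']
          linear_combination (v.1 - u.1) * h1
        exact mul_left_cancel₀ hn.ne' this
      have k3 : t * (1 - t) * n = -((w.1 - u.1) * (w.1 - v.1) + (w.2 - u.2) * (w.2 - v.2)) := by
        rw [k1, k2, hn']; ring
      have k4 : 0 ≤ t * (1 - t) := by
        by_contra h
        push Not at h
        have := mul_neg_of_neg_of_pos h hn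
        linarith
      refine mem_seg.2 ⟨t, ?_, ?_, k1, k2⟩ <;> nlinarith

theorem line_param {p q r : ℝ × ℝ} (hpq : p ≠ q) (h : D p q r = 0) : ∃ t : ℝ, r = pt t p q := by
  unfold D at h
  by_cases h1 : q.1 - p.1 = 0
  · have h2 : q.2 - p.2 ≠ 0 := by
      intro h2
      exact hpq (Prod.ext (by linarith) (by linarith))
    refine ⟨(r.2 - p.2) / (q.2 - p.2), ?_⟩
    have h3 : r.1 - p.1 = 0 := by
      rw [h1, zero_mul, zero_sub, neg_eq_zero] at h
      exact (mul_eq_zero.1 h).resolve_left h2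
    refine Prod.ext ?_ ?_
    · simp only [pt]
      rw [h1]; linarith
    · simp only [pt]
      field_simp
      ring
  · refine ⟨(r.1 - p.1) / (q.1 - p.1), ?_⟩
    refine Prod.ext ?_ ?_
    · simp only [pt]
      field_simp
      ring
    · simp only [pt]
      field_simp
      linarith

theorem pt_eq {p q : ℝ × ℝ} (hpq : p ≠ q) {s t : ℝ} (h : pt s p q = pt t p q) : s = t := by
  have h1 := congrArg Prod.fst h
  have h2 := congrArg Prod.snd h
  simp only [pt] at h1 h2
  by_contra hst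
  have h3 : s - t ≠ 0 := sub_ne_zero.2 hst
  apply hpq
  refine Prod.ext ?_ ?_
  · have : (s - t) * (q.1 - p.1) = 0 := by linarith
    have := (mul_eq_zero.1 this).resolve_left h3
    linarith
  · have : (s - t) * (q.2 - p.2) = 0 := by linarith
    have := (mul_eq_zero.1 this).resolve_left h3
    linarith

theorem side_of_meets {p q r s : ℝ × ℝ} (h1 : r ∉ segment ℝ p q) (h2 : s ∉ segment ℝ p q)
    (h3 : p ∉ segment ℝ r s) (h : Meets p q r s) : D p q r * D p q s < 0 := by
  obtain ⟨x, hx1, hx2⟩ := h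
  have k1 := D_self_of_mem hx1
  obtain ⟨t, t0, t1, e1, e2⟩ := mem_seg.1 hx2
  have hx : x = pt t r s := Prod.ext e1 e2
  rw [hx, D_pt] at k1
  have ht0 : t ≠ 0 := by
    rintro rfl
    apply h1
    have : x = r := Prod.ext (by linarith) (by linarith)
    rwa [← this]
  have ht1 : t ≠ 1 := by
    rintro rfl
    apply h2
    have : x = s := Prod.ext (by linarith) (by linarith)
    rwa [← this]
  have t0' : 0 < t := lt_of_le_of_ne t0 (Ne.symm ht0)
  have t1' : 0 < 1 - t := sub_pos.2 (lt_of_le_of_ne t1 ht1)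
  by_cases ha : D p q r = 0
  · exfalso
    rw [ha, mul_zero, zero_add] at k1
    have hb : D p q s = 0 := (mul_eq_zero.1 k1).resolve_left ht0
    by_cases hpq : p = q
    · subst hpq
      rw [segment_same] at hx1
      rw [Set.mem_singleton_iff.1 hx1] at hx2
      exact h3 hx2
    · obtain ⟨ρ, hρ⟩ := line_param hpq ha
      obtain ⟨σ, hσ⟩ := line_param hpq hb
      obtain ⟨ξ, ξ0, ξ1, f1, f2⟩ := mem_seg.1 hx1
      have hxi : x = pt ξ p q := Prod.ext f1 f2
      have hξ : ξ = ρ + t * (σ - ρ) := by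
        apply pt_eq hpq
        rw [← hxi, hx, hρ, hσ]
        refine Prod.ext ?_ ?_ <;> simp only [pt] <;> ring
      have g1 : ρ < 0 ∨ 1 < ρ := by
        by_contra hc
        push Not at hc
        exact h1 (hρ ▸ pt_mem hc.1 hc.2 p q)
      have g2 : σ < 0 ∨ 1 < σ := by
        by_contra hc
        push Not at hc
        exact h2 (hσ ▸ pt_mem hc.1 hc.2 p q)
      have g3 : (ρ < 0 ∧ 1 < σ) ∨ (σ < 0 ∧ 1 < ρ) := by
        rcases g1 with g1 | g1 <;> rcases g2 with g2 | g2
        · exfalso; nlinarith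
        · exact Or.inl ⟨g1, g2⟩
        · exact Or.inr ⟨g2, g1⟩
        · exfalso; nlinarith
      apply h3
      have hne : σ - ρ ≠ 0 := by
        rcases g3 with ⟨a, b⟩ | ⟨a, b⟩
        · linarith
        · intro h; linarith
      refine mem_seg.2 ⟨-ρ / (σ - ρ), ?_, ?_, ?_, ?_⟩
      · rcases g3 with ⟨a, b⟩ | ⟨a, b⟩
        · exact div_nonneg (by linarith) (by linarith)
        · exact div_nonneg_of_nonpos (by linarith) (by linarith)
      · rcases g3 with ⟨a, b⟩ | ⟨a, b⟩
        · rw [div_le_one (by linarith)]; linarith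
        · rw [div_le_one_of_neg (by linarith)]; linarith
      · rw [hρ, hσ]
        simp only [pt]
        field_simp
        ring
      · rw [hρ, hσ]
        simp only [pt]
        field_simp
        ring
  · have h5 : (1 - t) * (D p q r * D p q s) = -(t * (D p q s) ^ 2) := by
      linear_combination D p q s * k1
    have hb : D p q s ≠ 0 := by
      intro hb
      rw [hb, mul_zero, add_zero] at k1
      exact ha ((mul_eq_zero.1 k1).resolve_left t1'.ne')
    have h6 : 0 < t * (D p q s) ^ 2 := by positivity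
    by_contra h7
    push Not at h7
    have := mul_nonneg t1'.le h7
    linarith

theorem meets_of_side {p q r s : ℝ × ℝ} (h1 : D p q r * D p q s < 0)
    (h2 : D r s p * D r s q < 0) : Meets p q r s := by
  have hq : D p q r - D p q s = D r s q - D r s p := by unfold D; ring
  have key : ∀ t : ℝ, D q r (pt t r s) = t * D r s q ∧ D r p (pt t r s) = -(t * D r s p) := by
    intro t
    constructor <;> (unfold D pt; ring)
  rcases lt_trichotomy (D p q r) 0 with ha | ha | ha
  · have hb : 0 < D p q s := by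
      by_contra h
      push Not at h
      nlinarith
    have hlt : D r s q < D r s p := by linarith
    have hc : 0 < D r s p := by
      by_contra h
      push Not at h
      nlinarith
    have hd : D r s q < 0 := by
      by_contra h
      push Not at h
      nlinarith
    set t := D p q r / (D p q r - D p q s) with ht
    have hne : D p q r - D p q s < 0 := by linarith
    have t0 : 0 ≤ t := div_nonneg_of_nonpos ha.le hne.le
    have t1 : t ≤ 1 := by rw [ht, div_le_one_of_neg hne]; linarith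
    have ht' : t * (D p q r - D p q s) = D p q r := div_mul_cancel₀ _ hne.ne
    refine ⟨pt t r s, ?_, pt_mem t0 t1 r s⟩
    refine mem_seg_of' (w := r) ha ?_ ?_ ?_
    · rw [D_pt]; linear_combination (-1 : ℝ) * ht'
    · rw [(key t).1]; exact mul_nonpos_of_nonneg_of_nonpos t0 hd.le
    · rw [(key t).2]; have := mul_nonneg t0 hc.le; linarith
  · rw [ha, zero_mul] at h1; exact absurd h1 (lt_irrefl _)
  · have hb : D p q s < 0 := by
      by_contra h
      push Not at h
      nlinarith
    have hlt : D r s p < D r s q := by linarith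
    have hc : D r s p < 0 := by
      by_contra h
      push Not at h
      nlinarith
    have hd : 0 < D r s q := by
      by_contra h
      push Not at h
      nlinarith
    set t := D p q r / (D p q r - D p q s) with ht
    have hne : 0 < D p q r - D p q s := by linarith
    have t0 : 0 ≤ t := div_nonneg ha.le hne.le
    have t1 : t ≤ 1 := by rw [ht, div_le_one hne]; linarith
    have ht' : t * (D p q r - D p q s) = D p q r := div_mul_cancel₀ _ hne.ne'
    refine ⟨pt t r s, ?_, pt_mem t0 t1 r s⟩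
    refine mem_seg_of (w := r) ha ?_ ?_ ?_
    · rw [D_pt]; linear_combination (-1 : ℝ) * ht'
    · rw [(key t).1]; exact mul_nonneg t0 hd.le
    · rw [(key t).2]; have := mul_nonpos_of_nonneg_of_nonpos t0 hc.le; linarith

theorem meets_iff {p q r s : ℝ × ℝ} (h1 : r ∉ segment ℝ p q) (h2 : s ∉ segment ℝ p q)
    (h3 : p ∉ segment ℝ r s) (h4 : q ∉ segment ℝ r s) :
    Meets p q r s ↔ D p q r * D p q s < 0 ∧ D r s p * D r s q < 0 := by
  constructor
  · intro h
    exact ⟨side_of_meets h1 h2 h3 h, side_of_meets h3 h4 h1 h.comm⟩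
  · rintro ⟨a, b⟩
    exact meets_of_side a b

/-- Two edges with a common endpoint never cross. -/
theorem eq_of_adj {u v w x : ℝ × ℝ} (h1 : v ∉ segment ℝ u w) (h2 : w ∉ segment ℝ u v)
    (hx1 : x ∈ segment ℝ u v) (hx2 : x ∈ segment ℝ u w) : x = u := by
  by_cases hD : D u v w = 0
  · have huv : u ≠ v := by
      rintro rfl
      exact h1 (left_mem_segment ℝ _ _)
    obtain ⟨ρ, hρ⟩ := line_param huv hD
    obtain ⟨t, t0, t1, e1, e2⟩ := mem_seg.1 hx1
    obtain ⟨s, s0, s1, f1, f2⟩ := mem_seg.1 hx2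
    have hts : t = s * ρ := by
      apply pt_eq huv
      have a1 : x = pt t u v := Prod.ext e1 e2
      rw [← a1]
      refine Prod.ext ?_ ?_
      · rw [f1, hρ]; simp only [pt]; ring
      · rw [f2, hρ]; simp only [pt]; ring
    have g1 : ρ < 0 ∨ 1 < ρ := by
      by_contra hc
      push Not at hc
      exact h2 (hρ ▸ pt_mem hc.1 hc.2 u v)
    rcases g1 with g1 | g1
    · have : t = 0 := by nlinarith
      rw [this] at e1 e2
      exact Prod.ext (by linarith) (by linarith)
    · exfalso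
      apply h1
      have hρ0 : ρ ≠ 0 := by linarith
      refine mem_seg.2 ⟨1 / ρ, by positivity, ?_, ?_, ?_⟩
      · rw [div_le_one (by linarith)]; linarith
      · rw [hρ]; simp only [pt]; field_simp; ring
      · rw [hρ]; simp only [pt]; field_simp; ring
  · exact eq_of_common hD hx1 hx2

/-- The crossing-free condition. -/
theorem free_iff {G : Inst} (hG : IsInst G) {p : ℕ → ℝ × ℝ} (hd : IsDrawing G.1 G.2.1 p) :
    (∀ e ∈ G.2.2, ∀ f ∈ G.2.1, ¬ Same e f → ¬ Cross p e f) ↔
    ∀ e ∈ G.2.2, ∀ f ∈ G.2.1, (e.1 ≠ f.1 ∧ e.1 ≠ f.2) ∧ (e.2 ≠ f.1 ∧ e.2 ≠ f.2) →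
      ¬ (D (p e.1) (p e.2) (p f.1) * D (p e.1) (p e.2) (p f.2) < 0 ∧
        D (p f.1) (p f.2) (p e.1) * D (p f.1) (p f.2) (p e.2) < 0) := by
  constructor
  · rintro h e he f hf ⟨⟨h1, h2⟩, h3, h4⟩ ⟨k1, k2⟩
    have hs : ¬ Same e f := by
      rintro (rfl | rfl)
      · exact h1 rfl
      · exact h2 rfl
    apply h e he f hf hs
    obtain ⟨x, hx1, hx2⟩ := meets_of_side k1 k2
    refine ⟨x, hx1, hx2, ?_⟩
    rintro ⟨w, hw1, hw2, -⟩
    rcases hw1 with rfl | rfl <;> rcases hw2 with hw2 | hw2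
    · exact h1 hw2
    · exact h2 hw2
    · exact h3 hw2
    · exact h4 hw2
  · rintro h e he f hf hs ⟨x, hx1, hx2, hno⟩
    have heE := hG.2 e he
    obtain ⟨a1, a2, a3⟩ := hG.1 e heE
    obtain ⟨b1, b2, b3⟩ := hG.1 f hf
    by_cases h1 : e.1 = f.1
    · have h2 : e.2 ≠ f.2 := fun h2 => hs (Or.inl (Prod.ext h1 h2))
      rw [← h1] at hx2
      have k1 : p e.2 ∉ segment ℝ (p e.1) (p f.2) := by
        have := hd.avoid f hf e.2 a2 (h1 ▸ a3.symm) h2
        rwa [← h1] at this
      have k2 : p f.2 ∉ segment ℝ (p e.1) (p e.2) :=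
        hd.avoid e heE f.2 b2 (h1 ▸ b3.symm) h2.symm
      exact hno ⟨e.1, Or.inl rfl, Or.inl h1, eq_of_adj k1 k2 hx1 hx2⟩
    by_cases h2 : e.1 = f.2
    · have h3 : e.2 ≠ f.1 := fun h3 => hs (Or.inr (Prod.ext h2 h3))
      rw [← h2, segment_symm] at hx2
      have k1 : p e.2 ∉ segment ℝ (p e.1) (p f.1) := by
        have := hd.avoid f hf e.2 a2 h3 (h2 ▸ a3.symm)
        rwa [← h2, segment_symm] at this
      have k2 : p f.1 ∉ segment ℝ (p e.1) (p e.2) :=
        hd.avoid e heE f.1 b1 (h2 ▸ b3) h3.symm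
      exact hno ⟨e.1, Or.inl rfl, Or.inr h2, eq_of_adj k1 k2 hx1 hx2⟩
    by_cases h3 : e.2 = f.1
    · rw [segment_symm] at hx1
      rw [← h3] at hx2
      have k1 : p e.1 ∉ segment ℝ (p e.2) (p f.2) := by
        have := hd.avoid f hf e.1 a1 h1 h2
        rwa [← h3] at this
      have k2 : p f.2 ∉ segment ℝ (p e.2) (p e.1) := by
        have := hd.avoid e heE f.2 b2 (Ne.symm h2) (h3 ▸ b3.symm)
        rwa [segment_symm] at this
      exact hno ⟨e.2, Or.inr rfl, Or.inl h3, eq_of_adj k1 k2 hx1 hx2⟩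
    by_cases h4 : e.2 = f.2
    · rw [segment_symm] at hx1
      rw [← h4, segment_symm] at hx2
      have k1 : p e.1 ∉ segment ℝ (p e.2) (p f.1) := by
        have := hd.avoid f hf e.1 a1 h1 h2
        rwa [← h4, segment_symm] at this
      have k2 : p f.1 ∉ segment ℝ (p e.2) (p e.1) := by
        have := hd.avoid e heE f.1 b1 (Ne.symm h1) (h4 ▸ b3)
        rwa [segment_symm] at this
      exact hno ⟨e.2, Or.inr rfl, Or.inr h4, eq_of_adj k1 k2 hx1 hx2⟩
    refine h e he f hf ⟨⟨h1, h2⟩, h3, h4⟩ ?_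
    rw [← meets_iff (hd.avoid e heE f.1 b1 (Ne.symm h1) (Ne.symm h3))
      (hd.avoid e heE f.2 b2 (Ne.symm h2) (Ne.symm h4)) (hd.avoid f hf e.1 a1 h1 h2)
      (hd.avoid f hf e.2 a2 h3 h4)]
    exact ⟨x, hx1, hx2⟩

end Pool.Agent.NPC.ER.GPP
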