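import Pool.Agent.H606R2.GPP.Tmpl
import Pool.Agent.H606R2.GPP.Graph

/-!
# Reflection of the template, affine images
-/

namespace Pool.Agent.NPC.ER.GPP

open Pool.Agent.NPC Pool.Agent.NPC.ER.Pat

/-- Reflection of the labels. -/
def mir (t : ℕ) : ℕ := if t = 2 then 3 else if t = 3 then 2 else if t = 4 then 5 else
  if t = 5 then 4 else if t = 6 then 7 else if t = 7 then 6 else t

/-- Reflection. -/
def rf (q : ℝ × ℝ) : ℝ × ℝ := (-q.1, q.2)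

theorem rf_rf (q : ℝ × ℝ) : rf (rf q) = q := by unfold rf; simp

theorem rf_seg {a b x : ℝ × ℝ} (h : x ∈ segment ℝ a b) : rf x ∈ segment ℝ (rf a) (rf b) := by
  obtain ⟨t, h0, h1, e1, e2⟩ := mem_seg.1 h
  refine mem_seg.2 ⟨t, h0, h1, ?_, ?_⟩
  · simp only [rf]; linarith
  · simp only [rf]; linarith

theorem tx_mir : ∀ t < 9, tx (mir t) = (-(tx t).1, -(tx t).2) ∧ ty (mir t) = ty t ∧
    mir (mir t) = t ∧ mir t < 9 := by decide

theorem rf_T (W : ℝ) {t : ℕ} (ht : t < 9) : rf (T W t) = T W (mir t) := by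
  obtain ⟨h1, h2, -⟩ := tx_mir t ht
  unfold rf T
  rw [h1, h2]
  refine Prod.ext ?_ rfl
  push_cast
  ring

theorem mir_F0 : ∀ e ∈ F0, ((mir e.1, mir e.2) ∈ F0 ∨ (mir e.2, mir e.1) ∈ F0) := by decide

theorem F0_lt : ∀ e ∈ F0, e.1 < 9 ∧ e.2 < 9 := by decide

theorem N0_lt : ∀ e ∈ N0, e.1 < 9 ∧ e.2 < 9 := by decide

/-- The edges to a point on the left-hand side. -/
theorem pt_left {W : ℝ} (hW : 12 ≤ W) {q : ℝ × ℝ} (h1 : 10 ≤ q.2) (h2 : 3 * q.2 < -q.1)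
    (h3 : 4 * (-q.1) < W * q.2) {s : ℕ} (hs : s = 0 ∨ s = 8 ∨ s = 5) {e : ℕ × ℕ}
    (he : e ∈ F0 ∨ (e.1 = e.2 ∧ e.1 < 9)) {x : ℝ × ℝ} (hx1 : x ∈ segment ℝ (T W s) q)
    (hx2 : x ∈ segment ℝ (T W e.1) (T W e.2)) : x = T W s := by
  have he9 : e.1 < 9 ∧ e.2 < 9 := by
    rcases he with he | ⟨he1, he2⟩
    · exact F0_lt e he
    · exact ⟨he2, he1 ▸ he2⟩
  have hs9 : s < 9 := by rcases hs with rfl | rfl | rfl <;> norm_num
  have hs' : mir s = 0 ∨ mir s = 8 ∨ mir s = 4 := by rcases hs with rfl | rfl | rfl <;> decide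
  have k1 := rf_seg hx1
  have k2 := rf_seg hx2
  rw [rf_T W hs9] at k1
  rw [rf_T W he9.1, rf_T W he9.2] at k2
  have k3 : rf x = T W (mir s) := by
    have q1 : 10 ≤ (rf q).2 := h1
    have q2 : 3 * (rf q).2 < (rf q).1 := h2
    have q3 : 4 * (rf q).1 < W * (rf q).2 := h3
    rcases he with he | ⟨he1, he2⟩
    · rcases mir_F0 e he with h | h
      · exact pt_right hW q1 q2 q3 hs' (Or.inl h) k1 k2
      · rw [segment_symm] at k2
        exact pt_right hW q1 q2 q3 hs' (Or.inl h) k1 k2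
    · exact pt_right hW q1 q2 q3 hs' (e := (mir e.1, mir e.2))
        (Or.inr ⟨by simp [he1], (tx_mir _ he2).2.2.2⟩) k1 k2
  rw [← rf_rf x, k3, rf_T W (tx_mir s hs9).2.2.2, (tx_mir s hs9).2.2.1]

/-- The edges to a point. -/
theorem pt_side {W : ℝ} (hW : 12 ≤ W) {q : ℝ × ℝ} (b : Bool) (h1 : 10 ≤ q.2)
    (h2 : 3 * q.2 < sgn b * q.1) (h3 : 4 * (sgn b * q.1) < W * q.2) {s : ℕ}
    (hs : s = 0 ∨ s = 8 ∨ s = if b = true then 4 else 5) {e : ℕ × ℕ}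
    (he : e ∈ F0 ∨ (e.1 = e.2 ∧ e.1 < 9)) {x : ℝ × ℝ} (hx1 : x ∈ segment ℝ (T W s) q)
    (hx2 : x ∈ segment ℝ (T W e.1) (T W e.2)) : x = T W s := by
  cases b with
  | true =>
    simp only [sgn, if_true] at h2 h3 hs
    exact pt_right hW h1 (by linarith) (by linarith) hs he hx1 hx2
  | false =>
    simp only [sgn, Bool.false_eq_true, if_false] at h2 h3 hs
    exact pt_left hW h1 (by linarith) (by linarith) hs he hx1 hx2

/-! ### Affine images -/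

/-- The affine map which places a gadget. -/
def Ps (ζ τ ω l : ℝ) (q : ℝ × ℝ) : ℝ × ℝ := (ζ + l * ω * q.1 + τ * l * q.2, l * q.2)

theorem Ps_seg {ζ τ ω l : ℝ} {a b x : ℝ × ℝ} (h : x ∈ segment ℝ (Ps ζ τ ω l a) (Ps ζ τ ω l b)) :
    ∃ x' ∈ segment ℝ a b, x = Ps ζ τ ω l x' := by
  obtain ⟨t, h0, h1, e1, e2⟩ := mem_seg.1 h
  refine ⟨pt t a b, pt_mem h0 h1 a b, Prod.ext ?_ ?_⟩
  · rw [e1]; simp only [Ps, pt]; ring
  · rw [e2]; simp only [Ps, pt]; ring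

theorem Ps_inj {ζ τ ω l : ℝ} (hω : 0 < ω) (hl : 0 < l) {a b : ℝ × ℝ}
    (h : Ps ζ τ ω l a = Ps ζ τ ω l b) : a = b := by
  have h1 := congrArg Prod.fst h
  have h2 := congrArg Prod.snd h
  simp only [Ps] at h1 h2
  have h3 : a.2 = b.2 := mul_left_cancel₀ hl.ne' h2
  rw [h3] at h1
  have h4 : l * ω * a.1 = l * ω * b.1 := by linarith
  exact Prod.ext (mul_left_cancel₀ (mul_pos hl hω).ne' h4) h3

theorem Ps_seg_iff {ζ τ ω l : ℝ} (hω : 0 < ω) (hl : 0 < l) {a b x : ℝ × ℝ}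
    (h : Ps ζ τ ω l x ∈ segment ℝ (Ps ζ τ ω l a) (Ps ζ τ ω l b)) : x ∈ segment ℝ a b := by
  obtain ⟨x', h1, h2⟩ := Ps_seg h
  rwa [Ps_inj hω hl h2]

/-- The template is small. -/
theorem T_bound {W : ℝ} (hW : 12 ≤ W) {t : ℕ} (ht : t < 9) :
    |(T W t).1| ≤ W ∧ |(T W t).2| ≤ 4 := by
  have h : ∀ t < 9, (tx t).2.natAbs * 12 + (tx t).1.natAbs ≤ 12 ∧ (ty t).natAbs ≤ 4 ∧
    ((tx t).2 = 0 ∨ (tx t).1 = 0 ∧ ((tx t).2 = 1 ∨ (tx t).2 = -1)) := by decide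
  obtain ⟨h1, h2, h3⟩ := h t ht
  unfold T
  constructor
  · rcases h3 with h3 | ⟨h3, h4 | h4⟩
    · rw [h3]
      simp only [h3, Int.natAbs_zero, zero_mul, zero_add] at h1
      have h5 : |(tx t).1| ≤ 12 := by rw [Int.abs_eq_natAbs]; omega
      have h6 : |((tx t).1 : ℝ)| ≤ 12 := by exact_mod_cast h5
      push_cast
      rw [zero_mul, add_zero]
      linarith
    · rw [h3, h4]
      push_cast
      rw [zero_add, one_mul, abs_of_pos (by linarith)]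
    · rw [h3, h4]
      push_cast
      rw [zero_add, neg_one_mul, abs_neg, abs_of_pos (by linarith)]
  · have h5 : |ty t| ≤ 4 := by rw [Int.abs_eq_natAbs]; omega
    change |((ty t : ℤ) : ℝ)| ≤ 4
    exact_mod_cast h5

/-- Convexity of boxes. -/
theorem box_seg {c r : ℝ} {a b x : ℝ × ℝ} (ha : |a.1 - c| ≤ r) (hb : |b.1 - c| ≤ r)
    (hx : x ∈ segment ℝ a b) : |x.1 - c| ≤ r := by
  obtain ⟨t, h0, h1, e1, -⟩ := mem_seg.1 hx
  rw [abs_le] at *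
  constructor
  · nlinarith
  · nlinarith

theorem ge_seg {c : ℝ} {a b x : ℝ × ℝ} (ha : c ≤ a.2) (hb : c ≤ b.2)
    (hx : x ∈ segment ℝ a b) : c ≤ x.2 := by
  obtain ⟨t, h0, h1, -, e2⟩ := mem_seg.1 hx
  nlinarith

theorem le_seg {c : ℝ} {a b x : ℝ × ℝ} (ha : a.2 ≤ c) (hb : b.2 ≤ c)
    (hx : x ∈ segment ℝ a b) : x.2 ≤ c := by
  obtain ⟨t, h0, h1, -, e2⟩ := mem_seg.1 hx
  nlinarith

end Pool.Agent.NPC.ER.GPP
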