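import Pool.Agent.H606R2.GPP.Local

/-!
# The template of the gadget
-/

namespace Pool.Agent.NPC.ER.GPP

/-- First coordinates (`α + β W`) of the vertices of the template. -/
def tx : ℕ → ℤ × ℤ
  | 2 => (0, -1)
  | 3 => (0, 1)
  | 4 => (1, 0)
  | 5 => (-1, 0)
  | 6 => (3, 0)
  | 7 => (-3, 0)
  | _ => (0, 0)

/-- Second coordinates of the vertices of the template. -/
def ty : ℕ → ℤ
  | 0 => 0
  | 1 => -4
  | 2 => 4
  | 3 => 4
  | 4 => 1
  | 5 => 1
  | _ => 2

/-- The template. -/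
def T (W : ℝ) (t : ℕ) : ℝ × ℝ := ((tx t).1 + (tx t).2 * W, ty t)

/-- The orientation, a linear polynomial in `W`. -/
def dz (a b c : ℕ) : ℤ × ℤ :=
  (((tx b).1 - (tx a).1) * (ty c - ty a) - (ty b - ty a) * ((tx c).1 - (tx a).1),
    ((tx b).2 - (tx a).2) * (ty c - ty a) - (ty b - ty a) * ((tx c).2 - (tx a).2))

theorem D_T (W : ℝ) (a b c : ℕ) : D (T W a) (T W b) (T W c) = (dz a b c).1 + (dz a b c).2 * W := by
  unfold D T dz
  push_cast
  ring

/-- Positive for `W ≥ 12`. -/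
def ps (d : ℤ × ℤ) : Bool := decide (0 ≤ d.2) && decide (0 < d.1 + 12 * d.2)

/-- Negative for `W ≥ 12`. -/
def ng (d : ℤ × ℤ) : Bool := decide (d.2 ≤ 0) && decide (d.1 + 12 * d.2 < 0)

theorem pos_of_ps {W : ℝ} (hW : 12 ≤ W) {d : ℤ × ℤ} (h : ps d = true) :
    0 < (d.1 : ℝ) + d.2 * W := by
  unfold ps at h
  rw [Bool.and_eq_true, decide_eq_true_iff, decide_eq_true_iff] at h
  have h1 : (0 : ℝ) ≤ d.2 := by exact_mod_cast h.1
  have h2 : (0 : ℝ) < d.1 + 12 * d.2 := by exact_mod_cast h.2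
  nlinarith

theorem neg_of_ng {W : ℝ} (hW : 12 ≤ W) {d : ℤ × ℤ} (h : ng d = true) :
    (d.1 : ℝ) + d.2 * W < 0 := by
  unfold ng at h
  rw [Bool.and_eq_true, decide_eq_true_iff, decide_eq_true_iff] at h
  have h1 : (d.2 : ℝ) ≤ 0 := by exact_mod_cast h.1
  have h2 : (d.1 : ℝ) + 12 * d.2 < 0 := by exact_mod_cast h.2
  nlinarith

/-- `c` and `d` are on the same side of the line `ab`. -/
def same (a b c d : ℕ) : Bool :=
  (ps (dz a b c) && ps (dz a b d)) || (ng (dz a b c) && ng (dz a b d))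

/-- Nondegenerate. -/
def nz (a b c : ℕ) : Bool := ps (dz a b c) || ng (dz a b c)

theorem ne_of_nz {W : ℝ} (hW : 12 ≤ W) {a b c : ℕ} (h : nz a b c = true) :
    D (T W a) (T W b) (T W c) ≠ 0 := by
  rw [D_T]
  unfold nz at h
  rw [Bool.or_eq_true] at h
  rcases h with h | h
  · exact (pos_of_ps hW h).ne'
  · exact (neg_of_ng hW h).ne

theorem D_of_mem {a b c d x : ℝ × ℝ} (h : x ∈ segment ℝ c d) :
    ∃ t : ℝ, 0 ≤ t ∧ t ≤ 1 ∧ D a b x = (1 - t) * D a b c + t * D a b d := by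
  obtain ⟨t, h0, h1, e1, e2⟩ := mem_seg.1 h
  refine ⟨t, h0, h1, ?_⟩
  have : x = pt t c d := Prod.ext e1 e2
  rw [this, D_pt]

theorem D_self_of_mem {a b x : ℝ × ℝ} (h : x ∈ segment ℝ a b) : D a b x = 0 := by
  obtain ⟨t, -, -, h1⟩ := D_of_mem (a := a) (b := b) h
  rw [h1]
  unfold D; ring

theorem not_meets_of_same {W : ℝ} (hW : 12 ≤ W) {a b c d : ℕ} (h : same a b c d = true) :
    ¬ Meets (T W a) (T W b) (T W c) (T W d) := by
  rintro ⟨x, h1, h2⟩
  have h3 := D_self_of_mem h1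
  obtain ⟨t, h0, h0', h4⟩ := D_of_mem (a := T W a) (b := T W b) h2
  rw [h3, D_T, D_T] at h4
  unfold same at h
  rw [Bool.or_eq_true, Bool.and_eq_true, Bool.and_eq_true] at h
  rcases h with ⟨h5, h6⟩ | ⟨h5, h6⟩
  · have k1 := pos_of_ps hW h5
    have k2 := pos_of_ps hW h6
    rcases eq_or_lt_of_le h0 with rfl | h0
    · linarith
    · have := mul_pos h0 k2
      have := mul_nonneg (sub_nonneg.2 h0') k1.le
      linarith
  · have k1 := neg_of_ng hW h5
    have k2 := neg_of_ng hW h6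
    rcases eq_or_lt_of_le h0 with rfl | h0
    · linarith
    · have := mul_neg_of_pos_of_neg h0 k2
      have := mul_nonpos_of_nonneg_of_nonpos (sub_nonneg.2 h0') k1.le
      linarith

/-- Two segments with a common end which are not collinear. -/
theorem eq_of_common {a b c x : ℝ × ℝ} (h : D a b c ≠ 0) (h1 : x ∈ segment ℝ a b)
    (h2 : x ∈ segment ℝ a c) : x = a := by
  have h3 := D_self_of_mem h1
  obtain ⟨t, h0, h0', e1, e2⟩ := mem_seg.1 h2
  have h4 : D a b x = t * D a b c := by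
    have : x = pt t a c := Prod.ext e1 e2
    rw [this, D_pt]
    have : D a b a = 0 := by unfold D; ring
    rw [this]; ring
  rw [h3] at h4
  rcases mul_eq_zero.1 h4.symm with h5 | h5
  · rw [h5] at e1 e2
    exact Prod.ext (by linarith) (by linarith)
  · exact absurd h5 h

/-- Test for two segments of the template. -/
def okp (e f : ℕ × ℕ) : Bool :=
  (decide (e = f) || decide (e = (f.2, f.1))) ||
  (if e.1 = f.1 then nz e.1 e.2 f.2 || decide (e.1 = 8 ∧ ((e.2 = 6 ∧ f.2 = 7) ∨ (e.2 = 7 ∧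
      f.2 = 6))) else
    if e.1 = f.2 then nz e.1 e.2 f.1 else if e.2 = f.1 then nz e.2 e.1 f.2 else
    if e.2 = f.2 then nz e.2 e.1 f.1 else same e.1 e.2 f.1 f.2 || same f.1 f.2 e.1 e.2)

theorem okp_all : ∀ e ∈ F0, ∀ f ∈ F0 ++ N0, okp e f = true := by decide

theorem okp_spec {W : ℝ} (hW : 12 ≤ W) {e f : ℕ × ℕ} (h : okp e f = true) (hs : ¬ Same e f)
    {x : ℝ × ℝ} (h1 : x ∈ segment ℝ (T W e.1) (T W e.2)) (h2 : x ∈ segment ℝ (T W f.1) (T W f.2)) :
    ∃ w, (w = e.1 ∨ w = e.2) ∧ (w = f.1 ∨ w = f.2) ∧ x = T W w := by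
  unfold okp at h
  rw [Bool.or_eq_true, Bool.or_eq_true, decide_eq_true_iff, decide_eq_true_iff] at h
  rcases h with (h | h) | h
  · exact absurd (Or.inl h) hs
  · exact absurd (Or.inr h) hs
  split_ifs at h with c1 c2 c3 c4
  · rw [Bool.or_eq_true, decide_eq_true_iff] at h
    refine ⟨e.1, Or.inl rfl, Or.inl c1, ?_⟩
    rw [← c1] at h2
    rcases h with h | ⟨h3, h | h⟩
    · exact eq_of_common (ne_of_nz hW h) h1 h2
    · rw [h3, h.1] at h1
      rw [h3, h.2] at h2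
      obtain ⟨t, t0, t1, e1, e2⟩ := mem_seg.1 h1
      obtain ⟨s, s0, s1, g1, g2⟩ := mem_seg.1 h2
      simp only [T, tx, ty] at e1 e2 g1 g2 ⊢
      norm_num at e1 e2 g1 g2
      rw [h3]
      refine Prod.ext ?_ ?_
      · simp only [tx]; norm_num; linarith
      · simp only [ty]; norm_num; linarith
    · rw [h3, h.1] at h1
      rw [h3, h.2] at h2
      obtain ⟨t, t0, t1, e1, e2⟩ := mem_seg.1 h1
      obtain ⟨s, s0, s1, g1, g2⟩ := mem_seg.1 h2
      simp only [T, tx, ty] at e1 e2 g1 g2 ⊢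
      norm_num at e1 e2 g1 g2
      rw [h3]
      refine Prod.ext ?_ ?_
      · simp only [tx]; norm_num; linarith
      · simp only [ty]; norm_num; linarith
  · rw [← c2, segment_symm] at h2
    exact ⟨e.1, Or.inl rfl, Or.inr c2, eq_of_common (ne_of_nz hW h) h1 h2⟩
  · rw [segment_symm] at h1
    rw [← c3] at h2
    exact ⟨e.2, Or.inr rfl, Or.inl c3, eq_of_common (ne_of_nz hW h) h1 h2⟩
  · rw [segment_symm] at h1
    rw [← c4, segment_symm] at h2
    exact ⟨e.2, Or.inr rfl, Or.inr c4, eq_of_common (ne_of_nz hW h) h1 h2⟩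
  · rw [Bool.or_eq_true] at h
    rcases h with h | h
    · exact absurd ⟨x, h1, h2⟩ (not_meets_of_same hW h)
    · exact absurd ⟨x, h2, h1⟩ (not_meets_of_same hW h)

/-- Test for a vertex and an edge of the template. -/
def oka (f : ℕ × ℕ) (w : ℕ) : Bool :=
  decide (w = f.1 ∨ w = f.2) || (nz f.1 f.2 w || decide ((f = (0, 1) ∧ w = 8) ∨
    (f = (8, 6) ∧ w = 7) ∨ (f = (8, 7) ∧ w = 6)))

theorem oka_all : ∀ f ∈ F0 ++ N0, ∀ w < 9, oka f w = true := by decide

theorem tmpl_avoid {W : ℝ} (hW : 12 ≤ W) {f : ℕ × ℕ} (hf : f ∈ F0 ++ N0) {w : ℕ} (hw : w < 9)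
    (h1 : w ≠ f.1) (h2 : w ≠ f.2) : T W w ∉ segment ℝ (T W f.1) (T W f.2) := by
  have h := oka_all f hf w hw
  unfold oka at h
  rw [Bool.or_eq_true, Bool.or_eq_true, decide_eq_true_iff, decide_eq_true_iff] at h
  intro hx
  rcases h with (h | h) | h | ⟨rfl, rfl⟩ | ⟨rfl, rfl⟩ | ⟨rfl, rfl⟩
  · exact h1 h
  · exact h2 h
  · exact ne_of_nz hW h (D_self_of_mem hx)
  all_goals
    obtain ⟨t, t0, t1, e1, e2⟩ := mem_seg.1 hx
    simp only [T, tx, ty] at e1 e2
    norm_num at e1 e2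
    linarith

/-- The difference of the first coordinates. -/
def df (s t : ℕ) : ℤ × ℤ := ((tx s).1 - (tx t).1, (tx s).2 - (tx t).2)

theorem inj_all : ∀ s < 9, ∀ t < 9, (decide (s = t) || decide (ty s ≠ ty t) || ps (df s t) ||
    ng (df s t)) = true := by decide

theorem tmpl_inj {W : ℝ} (hW : 12 ≤ W) {s t : ℕ} (hs : s < 9) (ht : t < 9) (h : T W s = T W t) :
    s = t := by
  have h1 := congrArg Prod.fst h
  have h2 := congrArg Prod.snd h
  unfold T at h1 h2
  simp only at h1 h2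
  have h3 := inj_all s hs t ht
  rw [Bool.or_eq_true, Bool.or_eq_true, Bool.or_eq_true, decide_eq_true_iff,
    decide_eq_true_iff] at h3
  rcases h3 with ((h3 | h3) | h3) | h3
  · exact h3
  · exact absurd (by exact_mod_cast h2) h3
  · have := pos_of_ps hW h3
    unfold df at this
    push_cast at this
    linarith
  · have := neg_of_ng hW h3
    unfold df at this
    push_cast at this
    linarith

/-! ### Edges to the points -/

/-- A separating line. -/
theorem lineSep (α β γ : ℝ) {A B C E x : ℝ × ℝ} (hA : 0 ≤ α * A.1 + β * A.2 + γ)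
    (hB : 0 < α * B.1 + β * B.2 + γ) (hC : α * C.1 + β * C.2 + γ ≤ 0)
    (hE : α * E.1 + β * E.2 + γ ≤ 0) (h1 : x ∈ segment ℝ A B) (h2 : x ∈ segment ℝ C E) :
    x = A := by
  obtain ⟨t, t0, t1, e1, e2⟩ := mem_seg.1 h1
  obtain ⟨s, s0, s1, g1, g2⟩ := mem_seg.1 h2
  have k1 : α * x.1 + β * x.2 + γ = (1 - t) * (α * A.1 + β * A.2 + γ) +
      t * (α * B.1 + β * B.2 + γ) := by rw [e1, e2]; ring
  have k2 : α * x.1 + β * x.2 + γ = (1 - s) * (α * C.1 + β * C.2 + γ) +
      s * (α * E.1 + β * E.2 + γ) := by rw [g1, g2]; ring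
  have k3 := mul_nonpos_of_nonneg_of_nonpos (sub_nonneg.2 s1) hC
  have k4 := mul_nonpos_of_nonneg_of_nonpos s0 hE
  have k5 := mul_nonneg (sub_nonneg.2 t1) hA
  rcases eq_or_lt_of_le t0 with h | h
  · rw [← h] at e1 e2
    exact Prod.ext (by linarith) (by linarith)
  · have := mul_pos h hB
    linarith

/-- The edges to a point on the right-hand side. -/
theorem pt_right {W : ℝ} (hW : 12 ≤ W) {q : ℝ × ℝ} (h1 : 10 ≤ q.2) (h2 : 3 * q.2 < q.1)
    (h3 : 4 * q.1 < W * q.2) {s : ℕ} (hs : s = 0 ∨ s = 8 ∨ s = 4) {e : ℕ × ℕ}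
    (he : e ∈ F0 ∨ (e.1 = e.2 ∧ e.1 < 9)) {x : ℝ × ℝ} (hx1 : x ∈ segment ℝ (T W s) q)
    (hx2 : x ∈ segment ℝ (T W e.1) (T W e.2)) : x = T W s := by
  have he' : e ∈ F0 ++ (List.range 9).map fun t => (t, t) := by
    rw [List.mem_append]
    rcases he with he | ⟨he1, he2⟩
    · exact Or.inl he
    · exact Or.inr (List.mem_map.2 ⟨e.1, List.mem_range.2 he2, Prod.ext rfl he1⟩)
  have hq : 0 < q.1 := by linarith
  rcases hs with rfl | rfl | rfl
  · simp only [F0, List.range, List.range.loop, List.map_cons, List.map_nil, List.cons_append,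
      List.nil_append, List.mem_cons, List.not_mem_nil, or_false] at he'
    rcases he' with rfl | rfl | rfl | rfl | rfl | rfl | rfl | rfl | rfl | rfl | rfl | rfl | rfl |
      rfl | rfl | rfl | rfl | rfl | rfl | rfl | rfl | rfl | rfl <;>
    first
    | (refine lineSep 1 (-3) 0 ?_ ?_ ?_ ?_ hx1 hx2 <;> norm_num [T, tx, ty] <;>
        linarith)
    | (refine lineSep (-4) W 0 ?_ ?_ ?_ ?_ hx1 hx2 <;> norm_num [T, tx, ty] <;>
        linarith)
    | (refine lineSep 4 W 0 ?_ ?_ ?_ ?_ hx1 hx2 <;> norm_num [T, tx, ty] <;>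
        nlinarith)
  · simp only [F0, List.range, List.range.loop, List.map_cons, List.map_nil, List.cons_append,
      List.nil_append, List.mem_cons, List.not_mem_nil, or_false] at he'
    rcases he' with rfl | rfl | rfl | rfl | rfl | rfl | rfl | rfl | rfl | rfl | rfl | rfl | rfl |
      rfl | rfl | rfl | rfl | rfl | rfl | rfl | rfl | rfl | rfl <;>
    first
    | (refine lineSep 0 1 (-2) ?_ ?_ ?_ ?_ hx1 hx2 <;> norm_num [T, tx, ty] <;>
        linarith)
    | (refine lineSep (-4) W 0 ?_ ?_ ?_ ?_ hx1 hx2 <;> norm_num [T, tx, ty] <;>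
        linarith)
    | (refine lineSep 4 W 0 ?_ ?_ ?_ ?_ hx1 hx2 <;> norm_num [T, tx, ty] <;>
        nlinarith)
  · simp only [F0, List.range, List.range.loop, List.map_cons, List.map_nil, List.cons_append,
      List.nil_append, List.mem_cons, List.not_mem_nil, or_false] at he'
    rcases he' with rfl | rfl | rfl | rfl | rfl | rfl | rfl | rfl | rfl | rfl | rfl | rfl | rfl |
      rfl | rfl | rfl | rfl | rfl | rfl | rfl | rfl | rfl | rfl <;>
    first
    | (refine lineSep 1 (-1) 0 ?_ ?_ ?_ ?_ hx1 hx2 <;> norm_num [T, tx, ty] <;>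
        linarith)
    | (refine lineSep 2 (-5) 3 ?_ ?_ ?_ ?_ hx1 hx2 <;> norm_num [T, tx, ty] <;>
        linarith)
    | (refine lineSep (-4) W 0 ?_ ?_ ?_ ?_ hx1 hx2 <;> norm_num [T, tx, ty] <;>
        linarith)
    | (refine lineSep 4 W 0 ?_ ?_ ?_ ?_ hx1 hx2 <;> norm_num [T, tx, ty] <;>
        nlinarith)

end Pool.Agent.NPC.ER.GPP
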